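import Pool.Agent.K7.H46.TS.Seg

set_option autoImplicit false

/-!
# Chains with one block of four columns
-/

namespace Pool.Agent.K7.H46.TS

open Pool.Agent.Y479.LS Pool.Agent.K7.H39.TB Pool.Agent.K7.H46.LO Pool.Agent.K7.H46.TW Aut

variable {X : Type*} [LinearOrder X] {R : ℕ → ZMod 3 → Aut X} {ε : ℕ → Bool} {k : ℕ}

/-- The letters `j`, ..., `j + 3` have the same sign. -/
def Four (ε : ℕ → Bool) (k j : ℕ) : Prop := j + 3 < k ∧ ∀ i, j ≤ i → i ≤ j + 3 → ε i = ε j

theorem tri_mirror {W E S N : Aut X} (h : Tri W E S N) : Tri E W N S :=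
  ⟨fun p => ⟨(h.1 p).2, (h.1 p).1⟩, fun x => ⟨(h.2.1 x).2, (h.2.1 x).1⟩,
    fun x => ⟨(h.2.2 x).2, (h.2.2 x).1⟩⟩

/-- the chain, read from right to left -/
def mR (R : ℕ → ZMod 3 → Aut X) (k i : ℕ) (t : ZMod 3) : Aut X := R (k + 1 - i) (-t)

def mε (ε : ℕ → Bool) (k i : ℕ) : Bool := ε (k - 1 - i)

theorem chn_mirror (h : Chn R ε k) : Chn (mR R k) (mε ε k) k := by
  intro c hc t
  have h1 := h (k - 1 - c) (by omega) (-t - 1)
  unfold mR mε
  have e0 : k + 1 - c = k - 1 - c + 2 := by omega
  have e1 : k + 1 - (c + 2) = k - 1 - c := by omega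
  have e2 : k + 1 - (c + 1) = k - 1 - c + 1 := by omega
  have e3 : -(t + 1) = -t - 1 := by ring
  have e4 : -t - 1 + 1 = -t := by ring
  rw [e0, e1, e2, e3]
  rw [e4] at h1
  unfold Tri' at h1 ⊢
  split_ifs at h1 ⊢
  · exact tri_mirror h1
  · exact tri_mirror h1

theorem fam_mirror {j : ℕ} (hj : j + 4 ≤ k) {b : Bool} {i : ℕ} (hi : i ≤ 5) (t : ZMod 3) :
    fam (mR R k) b (k - 4 - j) i t = fam R b j (5 - i) (-t + if b then 0 else 1) := by
  cases b with
  | true =>
    simp only [fam, mR, if_true, add_zero]
    congr 1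
    omega
  | false =>
    simp only [fam, mR, Bool.false_eq_true, if_false]
    have e1 : k + 1 - (k - 4 - j + i) = j + (5 - i) := by omega
    rw [e1]
    congr 1
    rw [Nat.cast_sub hi]
    push_cast
    have e5 : (5 : ZMod 3) = 2 := by decide
    have e6 : (2 : ZMod 3) = -1 := by decide
    rw [e5, e6]
    ring

/-- the information from the left -/
theorem left_info (hC : ∀ E r, 1 ≤ r → r ≤ 3 → Certs E r) (h : Chn R ε k)
    (h0 : ∀ t, R 0 t = R 0 0) {j : ℕ} (hj : Four ε k j) (hu : ∀ i, Four ε k i → i = j) :
    (j = 0 ∨ Lft (fam R (ε j) j 0) (fam R (ε j) j 1)) ∧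
      ∀ i, 1 ≤ i → i ≤ 3 → Rgt (fam R (ε j) j i) (fam R (ε j) j (i + 1)) := by
  obtain ⟨hjk, hj'⟩ := hj
  have hrun : ∀ a, a + 3 < j + 3 → ∃ i, a ≤ i ∧ i ≤ a + 3 ∧ ε i ≠ ε a := by
    intro a ha
    by_contra hn
    push Not at hn
    have := hu a ⟨by omega, fun i h1 h2 => hn i h1 h2⟩
    omega
  obtain ⟨a, ha, hs, hl, hr⟩ := inv (k := j + 3) (R := R) (ε := ε) hC
    (fun c hc t => h c (by omega) t) h0 hrun (j + 3) (by omega) le_rfl
  have haj : a = j := by
    rcases Nat.lt_trichotomy a j with h1 | h1 | h1
    · have : Four ε k a := ⟨by omega, fun i h2 h3 => hs i h2 (by omega)⟩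
      have := hu a this
      omega
    · exact h1
    · rcases hl with h2 | ⟨h2, -⟩
      · omega
      · exact absurd ((hj' (a - 1) (by omega) (by omega)).trans
          (hj' a (by omega) (by omega)).symm) h2
  subst haj
  refine ⟨hl.imp_right And.right, fun i h1 h2 => ?_⟩
  rw [rgt_shift]
  exact hr (a + i) (by omega) (by omega)

/-- The third column of the block of four columns is constant. -/
theorem const_col (hC : ∀ E r, 1 ≤ r → r ≤ 3 → Certs E r)
    (hD : ∀ A B : Bool, Ct A B [true, true, true, true]
      ((if A then [] else [(0, false)]) ++ [(1, true), (2, true), (3, true)] ++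
        (if B then [] else [(4, false)])) [⟨[2 * cd 3 1], [2 * cd 3 0], true⟩])
    (h : Chn R ε k) (h0 : ∀ t, R 0 t = R 0 0) (h1 : ∀ t, R (k + 1) t = R (k + 1) 0)
    {j : ℕ} (hj : Four ε k j) (hu : ∀ i, Four ε k i → i = j) (t : ZMod 3) :
    R (j + 3) t = R (j + 3) 0 := by
  obtain ⟨hl, hm⟩ := left_info hC h h0 hj hu
  have hjk := hj.1
  -- the mirrored chain
  have hε : ∀ i, i < k → mε ε k (k - 1 - i) = ε i := fun i hi => by
    unfold mε; congr 1; omega
  have hbj : mε ε k (k - 4 - j) = ε j := by
    have := hε (j + 3) (by omega)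
    rw [show k - 1 - (j + 3) = k - 4 - j by omega] at this
    rw [this, hj.2 (j + 3) (by omega) le_rfl]
  have hj2 : Four (mε ε k) k (k - 4 - j) := by
    refine ⟨by omega, fun i h2 h3 => ?_⟩
    rw [hbj]
    unfold mε
    exact hj.2 _ (by omega) (by omega)
  have hu2 : ∀ i, Four (mε ε k) k i → i = k - 4 - j := by
    intro i hi
    have hik := hi.1
    have h2 : Four ε k (k - 4 - i) := by
      refine ⟨by omega, fun a h3 h4 => ?_⟩
      rw [← hε a (by omega), hi.2 _ (by omega) (by omega), ← hε (k - 4 - i) (by omega),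
        hi.2 (k - 1 - (k - 4 - i)) (by omega) (by omega)]
    have := hu _ h2
    omega
  obtain ⟨hl', -⟩ := left_info hC (chn_mirror h) (fun t => by
    unfold mR
    rw [Nat.sub_zero, h1 (-t), h1 (-0)]) hj2 hu2
  rw [hbj] at hl'
  set F := fam R (ε j) j with hF
  have hr : j + 4 = k ∨ Lft (F 4) (F 5) := by
    rcases hl' with h2 | h2
    · left; omega
    · right
      have h3 := lft_mirror h2
      have e1 : (fun t => fam (mR R k) (ε j) (k - 4 - j) 1 (-t)) =
          fun t => F 4 (t + if ε j then 0 else 1) := by
        funext t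
        rw [fam_mirror (by omega) (by omega), neg_neg]
      have e0 : (fun t => fam (mR R k) (ε j) (k - 4 - j) 0 (-t)) =
          fun t => F 5 (t + if ε j then 0 else 1) := by
        funext t
        rw [fam_mirror (by omega) (by omega), neg_neg]
      rw [e1, e0] at h3
      have h4 := h3.shift (-(if ε j then 0 else 1))
      simp only [neg_add_cancel_right] at h4
      exact h4
  -- the segment
  have hS : Sg (decide (j = 0)) (decide (j + 4 = k)) [true, true, true, true] F := by
    refine ⟨fun i hi t => ?_, fun hA t => ?_, fun hB t => ?_⟩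
    · have hB : Blk 4 F := h.blk (by omega) (fun i h2 h3 => hj.2 i h2 (by omega))
      have hi' : i < 4 := hi
      have e : sgn [true, true, true, true] i = true := by
        interval_cases i <;> rfl
      rw [e]
      exact hB i hi' t
    · have hj0 : j = 0 := by simpa using hA
      rw [hF]
      cases ε j <;> simp only [fam, hj0, Nat.zero_add, Bool.false_eq_true, if_false, if_true]
      · rw [h0 (-t - _), h0 (-0 - _)]
      · exact h0 t
    · have hjk' : j + 4 = k := by simpa using hB
      rw [hF]
      have e5 : j + ([true, true, true, true].length + 1) = k + 1 := by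
        simp only [List.length_cons, List.length_nil]; omega
      cases ε j <;> simp only [fam, Bool.false_eq_true, if_false, if_true]
      · rw [e5, h1 (-t - _), h1 (-0 - _)]
      · rw [e5]; exact h1 t
  have hc := (hD (decide (j = 0)) (decide (j + 4 = k))).const hS (by
    intro a ha
    rw [List.mem_append, List.mem_append] at ha
    rcases ha with (ha | ha) | ha
    · by_cases hj0 : j = 0
      · simp [hj0] at ha
      · simp only [hj0, decide_false, Bool.false_eq_true, if_false, List.mem_singleton] at ha
        subst ha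
        exact hl.resolve_left hj0
    · simp only [List.mem_cons, List.not_mem_nil, or_false] at ha
      rcases ha with rfl | rfl | rfl
      · exact hm 1 (by omega) (by omega)
      · exact hm 2 (by omega) (by omega)
      · exact hm 3 (by omega) (by omega)
    · by_cases hjk' : j + 4 = k
      · simp [hjk'] at ha
      · simp only [hjk', decide_false, Bool.false_eq_true, if_false, List.mem_singleton] at ha
        subst ha
        exact hr.resolve_left hjk')
  -- back to the chain
  rw [hF] at hc
  cases hb : ε j with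
  | true =>
    have := hc t
    simpa only [hb, fam, if_true] using this
  | false =>
    have h2 := hc (-t)
    have h3 := hc 0
    simp only [hb, fam, Bool.false_eq_true, if_false] at h2 h3
    have e3 : ((3 : ℕ) : ZMod 3) = 0 := by decide
    rw [e3] at h2
    simp only [neg_neg, neg_zero, sub_zero] at h2
    exact h2

/-- All regions of a column agree everywhere, and so do the columns of the same parity. -/
theorem all_flat' (hC : ∀ E r, 1 ≤ r → r ≤ 3 → Certs E r)
    (hD : ∀ A B : Bool, Ct A B [true, true, true, true]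
      ((if A then [] else [(0, false)]) ++ [(1, true), (2, true), (3, true)] ++
        (if B then [] else [(4, false)])) [⟨[2 * cd 3 1], [2 * cd 3 0], true⟩])
    (h : Chn R ε k) (hk : 1 ≤ k) (h0 : ∀ t, R 0 t = R 0 0) (h1 : ∀ t, R (k + 1) t = R (k + 1) 0)
    (hu : ∀ i j, Four ε k i → Four ε k j → i = j) (p : X) :
    (∀ i, i ≤ k + 1 → ∀ t, R i t p = R i 0 p) ∧ ∀ c, c < k → R c 0 p = R (c + 2) 0 p := by
  by_cases hF : ∃ j, Four ε k j
  · obtain ⟨j, hj⟩ := hF
    have hu' : ∀ i, Four ε k i → i = j := fun i hi => hu i j hi hj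
    have hjk := hj.1
    have hc := const_col hC hD h h0 h1 hj hu'
    obtain ⟨f1, f2⟩ := all_flat (k := j + 2) (R := R) (ε := ε) hC (fun c hc t => h c (by omega) t)
      (by omega) h0 hc (by
        intro a ha
        by_contra hn
        push Not at hn
        have := hu' a ⟨by omega, fun i h1 h2 => hn i h1 h2⟩
        omega) p
    obtain ⟨g1, g2⟩ := all_flat (k := k - (j + 3)) (R := fun i => R (j + 3 + i))
      (ε := fun i => ε (j + 3 + i)) hC (fun c hc t => h (j + 3 + c) (by omega) t)
      (by omega) hc (by
        intro t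
        have e : j + 3 + (k - (j + 3) + 1) = k + 1 := by omega
        simp only [e]
        exact h1 t) (by
        intro a ha
        by_contra hn
        push Not at hn
        have := hu' (j + 3 + a) ⟨by omega, fun i h1 h2 => by
          have := hn (i - (j + 3)) (by omega) (by omega)
          rwa [show j + 3 + (i - (j + 3)) = i by omega] at this⟩
        omega) p
    refine ⟨fun i hi t => ?_, fun c hc' => ?_⟩
    · rcases Nat.lt_or_ge i (j + 3) with h2 | h2
      · exact f1 i (by omega) t
      · have := g1 (i - (j + 3)) (by omega) t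
        simp only [show j + 3 + (i - (j + 3)) = i by omega] at this
        exact this
    · rcases Nat.lt_trichotomy c (j + 2) with h2 | h2 | h2
      · exact f2 c h2
      · subst h2
        have h8 := h (j + 2) hc' 0
        have h6 : R (j + 2) (0 + 1) p = R (j + 2 + 2) 0 p := by
          unfold Tri' at h8
          have e9 : R (j + 2 + 1) 0 p = R (j + 2 + 1) (0 + 1) p := by rw [hc (0 + 1)]
          split_ifs at h8
          · exact (h8.iff_eq p).mpr e9
          · exact (h8.iff_eq p).mpr e9.symm
        rw [← h6, f1 (j + 2) (by omega) (0 + 1)]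
      · have := g2 (c - (j + 3)) (by omega)
        simp only [show j + 3 + (c - (j + 3)) = c by omega,
          show j + 3 + (c - (j + 3) + 2) = c + 2 by omega] at this
        exact this
  · exact all_flat hC h hk h0 h1 (by
      intro a ha
      by_contra hn
      push Not at hn
      exact hF ⟨a, ha, fun i h1 h2 => hn i h1 h2⟩) p

end Pool.Agent.K7.H46.TS
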