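import Pool.Agent.K7.H46.TS.Pub
import Pool.Agent.K7.H46.TS.Flat
import Pool.Agent.K7.H46.TW.Main

set_option autoImplicit false

/-!
# The group of a closed chain with at most one block of four columns
-/

namespace Pool.Agent.K7.H46.TS

open Pool.Agent.Y479.LS Pool.Agent.K7.H39.TB Pool.Agent.K7.H46.LO Pool.Agent.K7.H46.TW Aut

/-- Chains with three tangles in each column, with at most one place with four equal signs. -/
theorem noLO (hC : ∀ E r, 1 ≤ r → r ≤ 3 → Certs E r)
    (hD : ∀ A B : Bool, Ct A B [true, true, true, true]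
      ((if A then [] else [(0, false)]) ++ [(1, true), (2, true), (3, true)] ++
        (if B then [] else [(4, false)])) [⟨[2 * cd 3 1], [2 * cd 3 0], true⟩])
    {k : ℕ} {ε : Fin k → Bool} (hε : ∀ i j, FourEqual ε i → FourEqual ε j → i = j)
    (T : Fin k → ZMod 3 → Tang) (hb : ∀ c t, (T c t).Bounded) (hp : ∀ c t, (T c t).Proper) :
    NoLO (ThreeChain ε T) := by
  intro H _ hH f γ
  refine hom_trivial (1 : ThreeChain ε T) ?_ ?_ H hH f γ
  · intro X _ φ x _ γ
    refine Three.trivial_of_flat φ (fun hk hc e0 eL p => all_flat' hC hD hc hk e0 eL ?_ p)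
      (fun c t => (T c t).ok) (fun c t => (T c t).bounded (hb c t))
      (fun c t => (T c t).proper (hp c t)) x γ
    have key : ∀ a, (ha : Four (Three.sg ε) k a) →
        FourEqual ε ⟨a, by have := ha.1; omega⟩ := by
      intro a ha
      have hak := ha.1
      refine ⟨hak, fun i h1 h2 => ?_⟩
      have := ha.2 i.1 h1 h2
      rwa [Three.sg_eq, show Three.sg ε a = ε ⟨a, by omega⟩ from
        Three.sg_eq ⟨a, by omega⟩] at this
    intro a b ha hb'
    have := hε _ _ (key a ha) (key b hb')
    simpa using this
  · intro X _ _ φ h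
    obtain ⟨x⟩ := ‹Nonempty X›
    have := h x
    rw [map_one, one_apply] at this
    exact lt_irrefl _ this

end Pool.Agent.K7.H46.TS
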