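import Pool.Agent.K7.H46.TS.Seg

set_option autoImplicit false
set_option maxRecDepth 100000

/-!
# Certificates for a block of four columns, with rules from both sides
-/

namespace Pool.Agent.K7.H46.TS

open Pool.Agent.K7.H46.TW Pool.Agent.K7.H46.LO

def ee_0 : CertW :=
  (.step 0 106 144 (.step 1 134 10 (.step 0 126 146 (.step 0 147 138 (.step 0 127 146 (.step 1 135 10 (.step 0 126 150 (.step 0 151 143 (.step 1 135 18 (.step 0 153 145 (.step 2 148 9 (.step 1 149 25 (.step 0 156 108 (.step 1 152 27 (.step 1 155 33 (.step 0 133 159 (.step 0 160 158 (.step 1 158 18 (.step 1 159 18 (.step 0 154 163 (.step 0 164 162 (.step 8 161 6 (.step 0 165 166 (.step 0 167 88 (.step 1 168 19 (.step 0 157 169 (.step 1 169 10 (.step 0 127 171 (.step 8 170 3 (.step 0 173 172 (.contra 174)))))))))))))))))))))))))))))))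

def ee_1 : CertW :=
  (.step 5 70 5 (.step 1 73 25 (.step 1 74 16 (.step 7 74 11 (.step 6 75 10 (.step 0 57 89 (.step 9 76 8 (.step 0 90 91 (.step 0 92 87 (.step 0 90 91 (.step 7 77 2 (.step 0 95 26 (.step 6 78 7 (.step 0 97 48 (.step 1 79 1 (.step 0 66 99 (.step 1 80 37 (.step 1 84 29 (.step 0 51 102 (.step 1 85 9 (.step 1 86 10 (.step 1 86 18 (.step 1 96 9 (.step 0 100 107 (.step 1 99 8 (.step 0 98 109 (.step 0 110 96 (.step 6 99 0 (.step 0 98 112 (.step 0 72 112 (.step 7 101 8 (.step 0 46 115 (.step 0 47 115 (.step 1 102 36 (.step 9 103 8 (.step 0 118 119 (.step 0 120 67 (.step 7 104 5 (.step 0 122 93 (.step 0 122 94 (.step 1 107 10 (.step 0 113 125 (.step 0 114 125 (.step 1 111 27 (.step 0 128 102 (.step 1 116 29 (.step 0 129 130 (.step 1 121 33 (.step 0 86 132 (.step 1 123 17 (.step 1 124 17 (.step 1 128 40 (.step 8 131 10 (.step 0 116 137 (.step 0 117 137 (.step 0 139 136 (.step 1 132 10 (.step 0 105 141 (.step 0 142 140 (.step 1 132 18 ee_0))))))))))))))))))))))))))))))))))))))))))))))))))))))))))))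

def ee_2 : CertW :=
  (.step 0 24 0 (.step 1 19 12 (.step 1 21 16 (.step 0 22 27 (.step 1 21 18 (.step 1 21 28 (.step 1 22 17 (.step 0 31 21 (.step 0 20 31 (.step 4 22 3 (.crule [22,23] 1 (.crule [23,18] 11 (.step 1 24 29 (.step 5 25 8 (.crule [0,25] 24 (.crule [25,24] 34 (.crule [28,29] 11 (.crule [28,29] 22 (.step 1 31 18 (.step 1 31 20 (.step 0 44 18 (.step 8 31 3 (.step 0 12 46 (.step 9 32 5 (.step 0 30 48 (.step 9 33 5 (.step 1 34 25 (.step 4 35 0 (.step 5 36 2 (.step 1 37 24 (.step 0 0 54 (.step 1 37 26 (.step 8 37 7 (.step 1 38 17 (.step 1 39 33 (.step 5 39 11 (.step 4 40 10 (.step 5 41 2 (.step 4 42 7 (.crule [43,45] 1 (.crule [43,45] 12 (.step 1 46 25 (.step 6 51 3 (.step 1 52 17 (.step 1 53 17 (.crule [55,56] 23 (.step 7 58 8 (.step 0 71 49 (.step 9 59 11 (.step 1 60 25 (.step 1 61 29 (.step 0 74 75 (.step 1 62 1 (.step 1 63 35 (.step 4 64 0 (.step 5 65 8 (.step 6 68 0 (.step 1 69 8 (.step 0 50 82 (.step 0 83 81 ee_1))))))))))))))))))))))))))))))))))))))))))))))))))))))))))))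

def ee_3 : CertW :=
  (.step 0 18 22 (.split [28] [26] ee_2 (.crule [24,0] 19 (.step 0 25 18 (.contra 26)))))

def ee_4 : CertW :=
  (.step 1 15 12 (.step 6 15 4 (.step 2 16 4 (.step 1 17 21 (.step 1 18 17 (.step 1 18 21 (.split [18] [16] ee_3 (.crule [18,22] 16 (.step 0 23 0 (.contra 24))))))))))

def ee_5 : CertW :=
  (.step 7 98 1 (.step 0 18 115 (.step 0 31 115 (.step 8 99 3 (.step 0 116 118 (.step 0 117 118 (.step 6 100 6 (.step 0 121 120 (.step 1 106 17 (.step 1 112 19 (.step 0 16 124 (.step 1 113 1 (.step 1 114 32 (.step 1 119 25 (.step 1 122 25 (.step 1 123 32 (.step 0 130 101 (.step 0 130 109 (.step 1 124 10 (.step 9 125 1 (.step 0 132 134 (.step 0 135 17 (.step 6 126 0 (.step 0 80 137 (.step 1 128 32 (.step 0 6 139 (.step 0 140 127 (.step 1 129 32 (.step 0 142 127 (.step 1 133 9 (.step 1 144 32 (.step 0 141 145 (.step 0 146 131 (.step 0 143 145 (.step 0 148 136 (.step 1 147 17 (.step 1 149 1 (.step 1 150 24 (.step 0 81 152 (.step 0 153 138 (.step 1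 151 10 (.step 0 155 154 (.contra 156)))))))))))))))))))))))))))))))))))))))))))

def ee_6 : CertW :=
  (.step 0 20 54 (.step 0 54 28 (.crule [0,44] 24 (.crule [44,43] 34 (.crule [4,45] 13 (.crule [4,45] 24 (.step 1 50 17 (.step 5 52 5 (.step 4 53 10 (.step 1 54 17 (.step 0 22 64 (.crule [55,54] 1 (.crule [20,55] 7 (.crule [29,56] 18 (.step 5 57 11 (.step 4 58 10 (.step 4 59 3 (.step 5 60 11 (.step 7 61 8 (.step 1 62 9 (.step 1 63 41 (.step 1 64 18 (.step 0 76 20 (.step 1 64 20 (.step 9 64 5 (.step 0 73 79 (.step 8 65 3 (.step 1 66 9 (.step 4 66 0 (.step 5 67 1 (.step 4 68 6 (.step 1 69 25 (.step 1 70 29 (.step 0 86 87 (.step 1 71 11 (.step 1 72 41 (.step 7 74 5 (.step 0 91 47 (.step 1 75 36 (.step 0 93 48 (.crule [77,78] 1 (.step 8 82 0 (.step 1 83 17 (.step 1 84 19 (.step 0 97 98 (.step 1 85 33 (.step 7 86 11 (.step 0 101 51 (.step 6 87 10 (.step 0 92 103 (.step 9 88 8 (.step 0 104 105 (.step 6 89 3 (.step 0 94 107 (.step 0 102 107 (.step 7 90 11 (.step 0 6 110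 (.step 0 111 108 (.step 4 95 0 (.step 1 96 17 ee_5))))))))))))))))))))))))))))))))))))))))))))))))))))))))))))

def ee_7 : CertW :=
  (.step 0 1 38 (.step 1 38 24 (.step 0 0 40 (.step 1 38 26 (.step 1 38 28 (.step 0 43 0 (.step 0 5 43 (.step 1 38 36 (.step 8 38 7 (.step 9 39 8 (.step 0 46 48 (.step 0 49 3 (.step 0 46 48 (.crule [41,42] 23 (.crule [41,42] 34 (.split [20] [16] ee_6 (.crule [54,20] 20 (.step 0 55 43 (.contra 56)))))))))))))))))))

def ee_8 : CertW :=
  (.crule [78,33] 20 (.step 1 79 20 (.step 0 42 87 (.step 1 80 20 (.step 0 70 89 (.step 9 80 0 (.step 0 91 69 (.step 0 91 90 (.step 1 81 17 (.step 9 82 3 (.step 8 83 5 (.step 0 76 96 (.step 1 84 25 (.crule [85,41] 32 (.step 5 86 7 (.step 1 91 17 (.step 0 101 71 (.step 4 93 5 (.step 7 94 0 (.step 0 104 97 (.step 1 95 25 (.step 0 102 106 (.step 7 98 3 (.step 5 99 10 (.step 1 100 35 (.step 1 103 29 (.step 0 111 107 (.step 1 109 29 (.step 7 110 7 (.step 0 105 114 (.step 0 115 50 (.step 6 111 5 (.step 0 88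 117 (.step 0 118 92 (.step 8 112 8 (.step 0 108 120 (.step 7 113 10 (.step 0 122 119 (.step 1 116 29 (.step 1 121 37 (.step 0 125 124 (.step 1 123 37 (.step 0 127 126 (.contra 128))))))))))))))))))))))))))))))))))))))))))))

def ee_9 : CertW :=
  (.step 0 32 77 (.step 1 73 29 (.step 1 75 9 (.step 5 75 0 (.step 1 77 17 (.step 0 24 82 (.step 5 77 3 (.split [24] [28] ee_8 (.crule [0,85] 13 (.step 0 86 77 (.contra 87)))))))))))

def ee_10 : CertW :=
  (.step 1 68 0 (.step 0 69 20 (.step 1 69 17 (.step 2 69 1 (.step 0 18 72 (.step 2 70 2 (.step 0 74 72 (.step 1 71 8 (.split [16] [18] ee_9 (.crule [20,77] 7 (.step 0 78 72 (.contra 79))))))))))))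

def ee_11 : CertW :=
  (.step 9 155 4 (.step 0 11 166 (.step 0 35 166 (.step 1 156 12 (.step 0 167 169 (.step 0 168 169 (.step 2 159 11 (.step 0 6 172 (.step 1 165 12 (.step 0 170 174 (.step 0 175 163 (.step 0 171 174 (.step 0 177 164 (.step 1 173 37 (.step 0 165 179 (.step 0 180 63 (.step 1 176 25 (.step 4 178 8 (.step 0 148 183 (.step 0 184 161 (.step 8 181 8 (.step 0 186 138 (.step 1 182 16 (.step 0 147 188 (.step 0 189 187 (.step 4 185 5 (.step 10 190 5 (.step 1 191 9 (.step 0 193 192 (.contra 194))))))))))))))))))))))))))))))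

def ee_12 : CertW :=
  (.crule [95,33] 20 (.crule [96,98] 14 (.step 4 104 2 (.crule [105,41] 32 (.step 5 106 7 (.step 4 107 8 (.step 1 108 21 (.step 0 112 91 (.step 5 109 10 (.step 1 110 35 (.step 1 111 37 (.step 6 112 2 (.step 0 81 117 (.step 0 81 117 (.step 0 119 102 (.step 0 117 102 (.step 8 113 5 (.step 0 100 122 (.step 1 114 29 (.step 0 124 64 (.step 7 115 7 (.step 0 120 126 (.step 0 126 50 (.step 0 121 126 (.step 0 129 50 (.step 6 116 8 (.step 0 131 99 (.step 1 118 9 (.step 1 120 29 (.step 1 123 29 (.step 1 124 20 (.step 7 124 10 (.step 0 137 42 (.step 9 125 7 (.step 0 54 139 (.step 0 140 136 (.step 0 54 139 (.step 1 127 27 (.step 0 8 143 (.step 1 128 29 (.step 1 132 29 (.step 1 133 16 (.step 1 134 16 (.step 1 134 20 (.step 0 138 149 (.step 1 135 12 (.step 0 151 130 (.step 0 151 121 (.step 1 141 21 (.step 0 154 7 (.step 1 142 21 (.step 8 144 9 (.step 0 127 157 (.step 0 158 14 (.step 1 145 36 (.step 0 160 138 (.step 1 146 12 (.step 0 162 152 (.step 0 162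 153 (.step 1 150 37 ee_11))))))))))))))))))))))))))))))))))))))))))))))))))))))))))))

def ee_13 : CertW :=
  (.step 0 103 75 (.split [24] [28] ee_12 (.crule [0,105] 13 (.step 0 106 94 (.contra 107)))))

def ee_14 : CertW :=
  (.step 0 90 72 (.step 0 24 90 (.step 1 90 8 (.step 1 90 16 (.step 0 32 94 (.step 1 90 18 (.step 1 90 20 (.step 0 20 97 (.step 9 90 3 (.step 7 91 0 (.step 8 92 5 (.step 0 93 101 (.split [8] [10] ee_13 (.crule [75,103] 6 (.step 0 104 94 (.contra 105))))))))))))))))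

def ee_15 : CertW :=
  (.step 1 216 37 (.step 0 225 195 (.step 5 218 10 (.step 0 207 227 (.step 1 219 37 (.step 5 221 10 (.step 5 222 10 (.step 0 212 231 (.step 1 224 29 (.step 9 226 10 (.step 0 207 234 (.step 1 228 29 (.step 0 236 192 (.step 1 229 16 (.step 1 230 29 (.step 1 232 29 (.step 1 233 16 (.step 0 188 241 (.step 8 233 8 (.step 0 242 243 (.step 0 244 223 (.step 0 238 243 (.step 0 246 223 (.step 0 243 223 (.step 1 235 29 (.step 9 237 7 (.step 0 54 250 (.step 7 239 10 (.step 0 245 252 (.step 0 253 42 (.step 0 247 252 (.step 0 255 42 (.step 0 248 252 (.step 0 257 42 (.step 1 240 16 (.step 0 259 258 (.step 1 249 16 (.step 0 261 256 (.step 1 251 21 (.step 4 254 5 (.step 1 263 16 (.step 0 203 265 (.step 0 266 262 (.step 1 264 9 (.step 6 268 5 (.step 0 260 269 (.step 0 267 269 (.step 1 270 17 (.step 1 271 17 (.step 8 272 2 (.step 0 274 19 (.step 1 273 0 (.step 0 276 275 (.contra 277))))))))))))))))))))))))))))))))))))))))))))))))))))))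

def ee_16 : CertW :=
  (.step 0 176 181 (.step 0 184 180 (.step 0 177 181 (.step 0 186 180 (.step 1 164 16 (.step 1 165 35 (.step 1 168 33 (.step 1 168 35 (.step 0 191 53 (.step 1 171 21 (.step 1 179 33 (.step 1 183 35 (.step 0 190 195 (.step 7 189 7 (.step 0 156 197 (.step 0 83 197 (.step 1 191 26 (.step 0 198 200 (.step 0 201 49 (.step 1 193 16 (.step 1 194 40 (.step 1 195 36 (.step 0 111 205 (.step 1 195 40 (.step 8 196 9 (.step 0 198 208 (.step 0 209 204 (.step 0 199 208 (.step 0 211 204 (.step 1 202 29 (.step 2 210 11 (.step 0 179 214 (.step 0 215 111 (.step 0 179 214 (.step 0 217 206 (.step 0 179 214 (.step 0 185 214 (.step 0 220 111 (.step 0 187 214 (.step 1 213 36 (.split [10] [28,25,10] ee_15 (.crule [154,224] 24 (.step 0 225 214 (.contra 226))))))))))))))))))))))))))))))))))))))))))))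

def ee_17 : CertW :=
  (.step 4 118 2 (.step 4 119 2 (.step 0 89 125 (.step 1 120 16 (.step 0 127 124 (.step 1 121 0 (.step 0 127 129 (.step 1 121 20 (.step 0 128 131 (.step 8 122 2 (.step 0 129 133 (.step 0 130 133 (.step 1 123 17 (.step 1 124 17 (.step 1 124 21 (.step 0 138 113 (.step 5 126 4 (.step 4 132 5 (.step 8 136 5 (.step 1 137 8 (.step 0 116 143 (.step 0 144 142 (.step 1 138 26 (.step 0 146 81 (.step 6 138 2 (.step 0 81 148 (.step 0 149 117 (.step 0 147 148 (.step 0 151 114 (.step 0 107 148 (.step 0 153 117 (.step 8 139 5 (.step 0 116 155 (.step 0 152 155 (.step 1 140 27 (.step 1 141 29 (.step 1 145 29 (.step 1 150 27 (.step 0 102 161 (.step 0 160 161 (.step 1 150 29 (.step 5 157 7 (.step 7 158 4 (.step 0 134 166 (.step 0 167 112 (.step 0 134 166 (.step 0 86 166 (.step 0 170 112 (.step 0 135 166 (.step 6 159 5 (.step 0 173 127 (.step 0 173 172 (.step 1 161 34 (.step 0 109 176 (.step 8 162 6 (.step 0 169 178 (.step 0 175 178 (.step 9 163 7 (.step 0 176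 181 (.step 0 182 174 ee_16))))))))))))))))))))))))))))))))))))))))))))))))))))))))))))

def ee_18 : CertW :=
  (.step 1 113 8 (.step 1 113 16 (.step 7 113 0 (.step 3 115 0 (.step 0 117 75 (.step 0 87 117 (.step 1 116 9 (.step 1 117 9 (.step 0 84 121 (.split [16] [20] ee_17 (.crule [92,123] 1 (.step 0 124 117 (.contra 125)))))))))))))

def ee_19 : CertW :=
  (.step 1 208 11 (.step 0 189 216 (.step 6 211 3 (.step 0 187 218 (.step 1 212 0 (.step 1 214 28 (.step 0 152 221 (.step 0 130 221 (.step 9 217 1 (.step 0 219 224 (.step 0 225 220 (.step 3 226 2 (.step 0 210 227 (.step 0 228 174 (.step 0 210 227 (.step 0 230 213 (.step 1 229 9 (.step 1 231 9 (.step 0 215 233 (.step 1 232 28 (.step 0 222 235 (.step 1 233 28 (.step 0 222 237 (.step 0 223 237 (.step 9 234 5 (.step 0 238 240 (.step 0 241 119 (.step 0 239 240 (.step 0 243 119 (.step 2 236 10 (.step 0 245 62 (.step 1 242 29 (.step 1 244 29 (.step 0 101 248 (.step 5 246 11 (.step 1 247 36 (.step 9 249 8 (.step 0 251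 252 (.step 0 253 105 (.step 1 250 25 (.step 11 254 11 (.step 0 256 255 (.contra 257)))))))))))))))))))))))))))))))))))))))))))

def ee_20 : CertW :=
  (.step 1 148 33 (.step 5 148 11 (.step 1 149 21 (.step 1 149 33 (.step 1 150 21 (.step 5 155 8 (.step 1 156 26 (.step 0 162 61 (.step 9 156 11 (.step 0 163 164 (.step 1 157 25 (.step 0 166 64 (.step 0 166 146 (.step 1 159 16 (.step 0 169 153 (.step 1 159 24 (.step 0 164 171 (.step 0 172 138 (.step 1 160 8 (.step 1 161 17 (.step 1 164 25 (.step 4 165 6 (.step 1 166 18 (.step 0 178 67 (.step 7 166 11 (.step 0 67 180 (.step 0 179 180 (.step 0 182 154 (.step 8 167 6 (.step 0 184 180 (.step 9 168 8 (.step 0 154 186 (.step 0 183 186 (.step 1 173 13 (.step 0 189 64 (.step 7 175 8 (.step 0 191 143 (.step 1 176 16 (.step 0 187 193 (.step 0 194 170 (.step 1 177 19 (.step 1 181 17 (.step 1 181 19 (.step 0 158 198 (.step 4 188 3 (.step 7 190 4 (.step 0 201 185 (.step 1 195 21 (.step 6 196 6 (.step 0 164 204 (.step 1 197 24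 (.step 0 99 206 (.step 0 207 192 (.step 9 199 4 (.step 0 205 209 (.step 1 200 11 (.step 1 202 21 (.step 1 203 8 (.step 1 208 9 (.step 0 126 214 ee_19))))))))))))))))))))))))))))))))))))))))))))))))))))))))))))

def ee_21 : CertW :=
  (.step 0 114 73 (.step 1 114 24 (.step 0 116 11 (.step 0 116 30 (.step 6 114 0 (.step 8 115 3 (.step 0 79 120 (.step 0 79 120 (.step 0 122 117 (.step 0 79 120 (.step 0 124 118 (.step 1 119 9 (.step 1 123 27 (.step 4 125 6 (.step 1 126 28 (.step 0 77 129 (.step 1 127 18 (.step 1 128 33 (.step 1 131 33 (.step 0 133 45 (.step 6 132 6 (.step 0 58 135 (.step 0 136 121 (.step 0 135 31 (.step 0 135 121 (.step 1 133 40 (.step 8 134 9 (.step 0 48 141 (.step 0 142 140 (.step 1 137 25 (.step 1 139 25 (.step 1 143 29 (.step 2 143 10 (.step 0 147 65 (.step 0 147 43 (.step 0 147 42 (.step 1 144 28 (.step 0 151 129 (.step 1 145 16 (.step 1 146 36 (.split [28] [24] ee_20 (.crule [155,41] 32 (.step 0 156 147 (.contra 157))))))))))))))))))))))))))))))))))))))))))))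

def ee_22 : CertW :=
  (.step 8 164 9 (.step 0 48 175 (.step 0 176 172 (.step 1 165 34 (.step 9 166 7 (.step 0 178 179 (.step 0 180 169 (.step 1 167 35 (.step 2 177 10 (.step 0 171 183 (.step 0 184 181 (.step 1 181 35 (.step 0 161 186 (.step 7 182 7 (.step 0 174 188 (.step 5 185 11 (.step 0 190 189 (.step 8 187 9 (.step 0 192 191 (.contra 193))))))))))))))))))))

def ee_23 : CertW :=
  (.step 0 113 73 (.step 1 114 8 (.step 1 114 20 (.step 7 114 0 (.step 1 113 24 (.step 0 119 11 (.step 1 113 28 (.step 6 113 0 (.step 0 116 122 (.step 0 116 122 (.step 0 124 75 (.step 8 115 3 (.step 0 79 126 (.step 0 127 120 (.step 1 118 9 (.step 1 122 9 (.step 0 114 130 (.step 4 125 2 (.step 0 132 117 (.step 1 128 27 (.step 1 129 16 (.step 1 132 21 (.step 0 136 114 (.step 0 136 73 (.step 1 132 33 (.step 4 133 5 (.step 0 118 140 (.step 0 141 121 (.step 1 134 18 (.step 1 136 26 (.step 0 144 81 (.step 6 136 2 (.step 0 81 146 (.step 0 147 123 (.step 0 146 116 (.step 0 145 146 (.step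 0 150 116 (.step 8 137 5 (.step 0 149 152 (.step 0 151 152 (.step 9 138 4 (.step 0 155 153 (.step 1 139 36 (.step 1 142 29 (.step 0 158 131 (.step 1 143 33 (.step 0 139 160 (.step 0 139 160 (.step 0 162 73 (.step 0 160 45 (.step 1 148 27 (.step 0 158 165 (.step 5 154 7 (.step 6 159 5 (.step 0 168 135 (.step 1 160 36 (.step 0 157 170 (.step 1 160 40 (.step 6 163 6 (.step 0 173 156 ee_22))))))))))))))))))))))))))))))))))))))))))))))))))))))))))))

def ee_24 : CertW :=
  (.split [17,0] [] ee_21 ee_23)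

def ee_25 : CertW :=
  (.step 1 91 16 (.step 1 91 24 (.step 0 93 11 (.step 1 91 26 (.step 0 95 81 (.step 1 91 34 (.step 1 91 36 (.step 8 91 3 (.step 0 99 94 (.step 1 99 25 (.step 0 101 91 (.step 1 100 27 (.step 1 101 16 (.step 0 104 6 (.step 1 101 26 (.step 0 106 96 (.step 1 101 34 (.step 0 108 97 (.step 1 101 36 (.step 0 110 98 (.step 1 103 18 (.split [] [17,0] ee_18 ee_24))))))))))))))))))))))

def ee_26 : CertW :=
  (.step 8 133 2 (.step 0 151 152 (.step 0 153 150 (.step 1 134 21 (.step 0 155 92 (.step 1 136 37 (.step 0 157 91 (.step 6 138 5 (.step 0 144 159 (.step 0 160 145 (.step 0 159 145 (.step 8 139 8 (.step 0 141 163 (.step 1 140 35 (.step 1 154 35 (.step 6 155 2 (.step 0 81 167 (.step 0 168 107 (.step 8 156 5 (.step 0 105 170 (.step 6 158 8 (.step 0 172 171 (.step 1 161 35 (.step 0 155 174 (.step 1 162 21 (.step 0 176 155 (.step 1 164 37 (.step 0 178 177 (.step 7 165 7 (.step 0 169 180 (.step 1 166 26 (.step 0 182 49 (.step 7 175 7 (.step 0 173 184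 (.step 0 185 183 (.step 1 181 27 (.step 0 179 187 (.step 1 187 40 (.step 0 186 189 (.step 9 188 10 (.step 0 191 190 (.contra 192))))))))))))))))))))))))))))))))))))))))))

def ee_27 : CertW :=
  (.step 0 91 72 (.step 0 24 91 (.step 1 91 0 (.step 0 70 94 (.step 1 91 8 (.step 1 91 16 (.step 0 97 20 (.step 0 32 97 (.step 1 91 24 (.step 0 0 100 (.step 9 91 3 (.step 0 101 102 (.step 7 92 0 (.step 0 102 104 (.step 8 93 5 (.step 0 96 106 (.step 1 90 10 (.step 0 108 75 (.step 1 90 16 (.step 1 90 24 (.step 1 90 32 (.step 8 90 3 (.step 0 113 111 (.step 3 95 0 (.step 0 96 115 (.step 0 116 108 (.step 0 96 115 (.step 0 118 109 (.crule [97,98] 14 (.step 0 114 120 (.crule [99,33] 20 (.step 1 102 25 (.step 0 91 123 (.step 1 103 27 (.step 0 90 125 (.step 0 84 125 (.step 1 103 29 (.step 1 104 9 (.step 1 113 25 (.step 0 130 126 (.step 1 117 9 (.step 0 84 132 (.step 4 119 2 (.step 4 120 8 (.step 0 110 135 (.step 1 121 29 (.step 0 137 132 (.step 0 137 124 (.step 5 122 7 (.step 1 123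 16 (.step 7 127 4 (.step 1 128 20 (.step 0 42 143 (.step 1 129 16 (.step 1 130 32 (.step 0 146 112 (.step 8 131 6 (.step 0 142 148 (.step 0 149 147 (.step 1 132 0 ee_26))))))))))))))))))))))))))))))))))))))))))))))))))))))))))))

def ee_28 : CertW :=
  (.split [17,18] [] ee_25 ee_27)

def ee_29 : CertW :=
  (.step 1 69 0 (.step 7 69 1 (.step 1 70 17 (.step 1 70 19 (.step 1 70 21 (.step 3 70 1 (.step 1 71 13 (.step 1 72 28 (.step 7 73 1 (.step 0 31 78 (.step 1 74 12 (.step 0 25 80 (.step 1 74 28 (.step 0 26 82 (.step 1 75 13 (.step 1 76 0 (.step 1 76 20 (.step 1 84 8 (.step 1 84 18 (.step 0 88 85 (.split [] [17,18] ee_14 ee_28)))))))))))))))))))))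

def ee_30 : CertW :=
  (.step 1 107 25 (.step 5 108 7 (.step 1 111 29 (.step 0 132 110 (.step 1 120 25 (.step 0 133 134 (.step 4 125 8 (.step 1 127 29 (.step 5 129 7 (.step 7 130 3 (.step 1 131 35 (.step 6 132 5 (.step 0 96 141 (.step 0 142 100 (.step 8 135 8 (.step 0 139 144 (.step 1 136 37 (.step 1 138 35 (.step 0 137 147 (.step 7 140 7 (.step 0 128 149 (.step 0 150 50 (.step 1 143 35 (.step 1 145 37 (.step 0 153 148 (.step 6 146 8 (.step 0 155 151 (.step 1 152 40 (.step 0 156 157 (.step 9 154 10 (.step 0 159 158 (.contra 160))))))))))))))))))))))))))))))))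

def ee_31 : CertW :=
  (.step 0 24 69 (.step 1 69 0 (.step 0 71 20 (.step 1 69 12 (.step 0 18 73 (.step 6 70 2 (.step 0 37 75 (.step 1 68 8 (.step 0 76 77 (.step 7 68 1 (.step 0 74 79 (.step 0 73 79 (.step 1 71 17 (.step 0 82 22 (.step 2 72 2 (.step 0 84 81 (.step 1 80 29 (.step 1 82 8 (.step 0 87 27 (.step 1 82 28 (.step 1 85 9 (.step 5 85 0 (.step 0 91 71 (.step 0 32 91 (.step 0 93 71 (.step 1 86 20 (.step 0 42 95 (.step 1 90 20 (.step 0 72 97 (.step 9 90 0 (.step 0 99 71 (.step 0 99 98 (.step 1 91 17 (.step 0 102 82 (.step 0 102 83 (.step 0 24 102 (.step 0 105 82 (.step 5 92 3 (.crule [94,33] 20 (.step 1 99 17 (.step 0 109 82 (.step 4 101 5 (.step 1 102 8 (.step 0 78 112 (.step 0 113 87 (.step 1 102 28 (.step 0 115 89 (.step 7 102 0 (.step 0 117 87 (.step 0 117 88 (.step 9 103 3 (.step 0 120 118 (.step 0 120 119 (.step 8 104 5 (.step 0 122 123 (.step 0 124 116 (.step 8 106 5 (.step 0 118 126 (.step 0 121 126 (.step 0 114 126 ee_30))))))))))))))))))))))))))))))))))))))))))))))))))))))))))))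

def ee_32 : CertW :=
  (.split [1,18] [] ee_29 ee_31)

def ee_33 : CertW :=
  (.step 1 59 26 (.step 1 59 40 (.step 2 60 9 (.step 1 61 25 (.step 1 61 27 (.step 2 61 9 (.step 1 63 32 (.step 0 6 66 (.split [] [1,18] ee_10 ee_32)))))))))

def ee_34 : CertW :=
  (.step 1 59 24 (.step 0 0 60 (.step 1 59 28 (.step 0 41 62 (.step 1 59 34 (.step 0 55 64 (.step 3 61 11 (.step 0 66 65 (.step 3 63 10 (.step 0 68 67 (.contra 69)))))))))))

def ee_35 : CertW :=
  (.step 1 39 20 (.step 1 39 28 (.step 9 39 7 (.step 0 42 40 (.crule [41,0] 30 (.step 1 43 35 (.step 1 44 35 (.step 4 44 9 (.step 7 45 7 (.step 8 46 9 (.step 0 13 49 (.step 1 47 27 (.step 1 47 41 (.step 1 49 27 (.step 6 51 9 (.step 6 52 9 (.step 0 55 43 (.step 1 56 33 (.step 1 57 24 (.split [41,26] [] ee_33 ee_34))))))))))))))))))))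

def ee_36 : CertW :=
  (.step 5 84 1 (.step 1 86 25 (.step 1 86 27 (.step 1 87 24 (.step 7 89 8 (.step 0 99 104 (.step 8 90 10 (.step 0 105 106 (.step 0 107 94 (.step 9 91 11 (.step 0 109 103 (.step 1 92 25 (.step 0 111 102 (.step 1 93 11 (.step 6 96 6 (.step 0 110 114 (.step 0 115 31 (.step 7 97 5 (.step 0 117 58 (.step 1 100 1 (.step 1 101 32 (.step 0 6 120 (.step 7 111 11 (.step 0 121 122 (.step 0 123 55 (.step 8 112 6 (.step 0 125 122 (.step 6 113 3 (.step 0 124 127 (.step 0 55 127 (.step 1 116 13 (.step 0 130 102 (.step 7 119 1 (.step 0 132 108 (.step 1 128 19 (.step 0 98 134 (.step 0 16 134 (.step 7 131 4 (.step 0 137 126 (.step 1 133 13 (.step 1 134 0 (.step 8 135 0 (.step 0 140 141 (.step 0 142 118 (.step 9 136 1 (.step 0 129 144 (.step 0 145 17 (.step 1 138 21 (.step 0 139 147 (.step 1 143 1 (.step 0 149 148 (.step 1 143 21 (.step 0 151 150 (.step 1 146 21 (.step 0 153 152 (.contra 154))))))))))))))))))))))))))))))))))))))))))))))))))))))))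

def ee_37 : CertW :=
  (.step 0 1 39 (.step 1 39 20 (.step 1 39 24 (.step 0 0 42 (.step 1 39 26 (.step 1 39 28 (.step 0 45 0 (.step 0 5 45 (.step 1 39 34 (.step 1 39 36 (.step 8 39 7 (.step 0 41 50 (.step 0 41 50 (.step 0 52 48 (.step 9 40 8 (.step 0 49 54 (.step 1 38 16 (.step 0 56 28 (.step 1 38 20 (.step 1 38 26 (.step 0 59 43 (.step 1 38 32 (.step 1 38 34 (.step 1 38 40 (.step 9 38 7 (.step 0 62 64 (.step 0 65 58 (.crule [43,44] 23 (.step 0 41 67 (.step 0 68 56 (.step 0 41 67 (.step 0 70 57 (.crule [43,44] 34 (.step 0 49 72 (.step 0 73 66 (.crule [0,46] 24 (.crule [4,47] 13 (.step 1 51 35 (.crule [59,60] 30 (.step 0 53 78 (.step 0 79 61 (.step 5 67 5 (.step 1 69 17 (.step 0 82 23 (.crule [29,71] 7 (.step 4 72 10 (.step 0 85 63 (.step 1 74 33 (.step 1 74 37 (.step 0 82 88 (.step 0 77 88 (.step 1 75 33 (.step 5 75 11 (.step 4 76 3 (.step 1 77 40 (.step 1 80 33 (.step 0 95 23 (.step 1 81 9 (.step 0 97 38 (.step 8 83 3 ee_36))))))))))))))))))))))))))))))))))))))))))))))))))))))))))))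

def ee_38 : CertW :=
  (.split [29,26] [] ee_35 ee_37)

def ee_39 : CertW :=
  (.step 1 16 0 (.step 1 16 12 (.step 7 16 4 (.step 3 18 4 (.step 1 19 21 (.step 1 20 17 (.step 1 20 19 (.step 1 20 21 (.step 1 21 12 (.step 1 21 28 (.step 1 22 8 (.step 1 23 16 (.step 1 23 20 (.step 1 23 24 (.step 9 23 4 (.step 1 24 16 (.step 1 24 18 (.step 1 24 24 (.step 0 34 11 (.step 1 24 26 (.step 0 36 25 (.split [] [29,26] ee_7 ee_38))))))))))))))))))))))

def ee_40 : CertW :=
  (.step 7 65 2 (.step 0 37 90 (.step 6 73 0 (.step 0 87 92 (.step 0 92 46 (.step 8 74 3 (.step 0 89 95 (.step 9 75 5 (.step 0 97 92 (.step 0 97 94 (.step 1 80 35 (.step 0 100 65 (.step 1 83 37 (.step 0 73 102 (.step 0 100 102 (.step 1 84 41 (.step 1 85 37 (.step 1 93 29 (.step 1 98 29 (.step 1 100 40 (.step 6 101 7 (.step 0 110 99 (.step 7 103 8 (.step 0 96 112 (.step 8 104 10 (.step 0 113 114 (.step 0 115 109 (.step 0 113 114 (.step 7 105 11 (.step 0 6 118 (.step 7 106 8 (.step 0 46 120 (.step 0 111 120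 (.step 1 107 26 (.step 0 17 123 (.step 1 108 12 (.step 0 91 125 (.step 1 116 41 (.step 1 117 41 (.step 1 119 37 (.step 1 121 29 (.step 1 127 12 (.step 0 131 124 (.step 1 127 28 (.step 0 133 126 (.step 1 128 26 (.step 0 135 122 (.step 1 129 12 (.step 0 137 132 (.step 1 129 26 (.step 0 139 136 (.step 1 129 28 (.step 0 140 141 (.step 0 142 134 (.step 1 130 12 (.step 0 143 144 (.step 0 145 138 (.step 1 130 26 (.step 0 147 146 (.contra 148))))))))))))))))))))))))))))))))))))))))))))))))))))))))))))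

def ee_41 : CertW :=
  (.step 0 26 29 (.step 1 27 28 (.step 0 19 31 (.step 1 29 17 (.step 0 33 28 (.crule [24,29] 7 (.step 0 35 17 (.step 5 30 5 (.crule [29,30] 1 (.crule [30,26] 11 (.step 0 22 39 (.crule [30,26] 22 (.step 0 5 41 (.step 1 33 18 (.step 1 33 20 (.step 0 44 26 (.step 8 33 3 (.step 9 34 5 (.step 0 32 47 (.step 5 35 1 (.step 1 36 9 (.step 1 36 11 (.step 0 15 51 (.step 0 1 51 (.step 1 38 9 (.step 4 38 0 (.step 1 40 9 (.step 1 41 29 (.step 0 56 57 (.step 0 1 57 (.crule [4,42] 24 (.crule [43,45] 12 (.step 1 49 17 (.step 1 49 19 (.step 1 49 21 (.step 0 28 64 (.step 1 50 16 (.step 9 52 1 (.step 0 67 21 (.step 6 53 3 (.step 0 69 68 (.step 8 54 0 (.step 0 71 66 (.step 1 55 17 (.step 0 73 63 (.step 0 73 65 (.step 1 57 36 (.step 8 57 7 (.step 7 58 5 (.step 0 72 78 (.step 0 79 77 (.step 9 59 8 (.step 0 76 81 (.step 0 82 70 (.step 5 60 11 (.step 5 61 8 (.step 1 62 8 (.step 0 48 86 (.step 7 63 1 (.step 0 22 88 ee_40))))))))))))))))))))))))))))))))))))))))))))))))))))))))))))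

def ee_42 : CertW :=
  (.step 1 16 12 (.step 1 16 20 (.step 1 16 28 (.step 6 16 4 (.step 1 15 0 (.step 1 15 12 (.step 1 15 20 (.step 0 20 23 (.step 7 15 4 (.step 0 18 25 (.step 1 25 21 (.step 0 16 27 (.split [18] [16] ee_41 (.crule [26,29] 16 (.step 0 30 0 (.contra 31))))))))))))))))

def ee_43 : CertW :=
  (.split [13,26] [] ee_39 ee_42)

def ee_44 : CertW :=
  (.step 1 0 25 (.step 4 0 6 (.step 1 1 16 (.step 1 1 26 (.step 1 1 28 (.step 8 1 6 (.step 1 2 19 (.step 1 2 33 (.step 1 2 35 (.step 1 6 33 (.step 6 7 6 (.step 1 8 10 (.step 1 9 26 (.step 1 10 40 (.split [] [13,26] ee_4 ee_43)))))))))))))))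

theorem ct_ee : Ct true true [true, true, true, true] [(1, true), (2, true), (3, true)]
    [⟨[2 * cd 3 1], [2 * cd 3 0], true⟩] :=
  ⟨ee_44, by decide +kernel⟩

def ec_0 : CertW :=
  (.step 1 191 26 (.step 0 181 202 (.step 0 203 151 (.step 1 194 26 (.step 1 198 13 (.step 0 194 206 (.step 0 207 193 (.step 1 206 26 (.step 0 205 209 (.step 0 210 204 (.step 0 205 209 (.step 0 212 197 (.step 8 208 4 (.step 0 201 214 (.step 0 215 211 (.step 0 201 214 (.step 0 217 213 (.step 4 216 7 (.step 10 218 7 (.step 1 219 35 (.step 0 221 220 (.contra 222))))))))))))))))))))))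

def ec_1 : CertW :=
  (.step 1 125 17 (.step 1 127 35 (.step 1 132 0 (.step 1 132 8 (.step 0 145 95 (.step 9 133 5 (.step 0 75 147 (.step 0 148 146 (.step 1 134 26 (.step 0 103 150 (.step 1 139 19 (.step 0 132 152 (.step 1 140 32 (.step 0 2 154 (.step 1 140 34 (.step 0 139 156 (.step 1 140 44 (.step 0 61 158 (.step 0 159 135 (.step 0 130 158 (.step 0 161 135 (.step 1 141 42 (.step 1 142 0 (.step 0 136 164 (.step 0 165 144 (.step 1 143 26 (.step 1 149 13 (.step 8 153 3 (.step 0 169 131 (.crule [155,157] 46 (.step 0 163 171 (.step 0 172 135 (.step 1 160 43 (.step 1 162 25 (.step 0 142 175 (.step 0 176 85 (.step 3 166 1 (.step 0 98 178 (.step 0 179 12 (.step 1 168 26 (.step 1 168 42 (.step 0 170 182 (.step 0 183 173 (.step 1 173 43 (.step 1 174 34 (.step 0 125 186 (.step 0 187 128 (.step 8 177 0 (.step 0 189 188 (.step 1 180 29 (.step 0 168 191 (.step 0 192 74 (.step 1 184 11 (.step 1 185 26 (.step 0 181 195 (.step 0 196 167 (.step 2 190 1 (.step 1 191 12 (.step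 0 96 199 (.step 0 200 102 ec_0))))))))))))))))))))))))))))))))))))))))))))))))))))))))))))

def ec_2 : CertW :=
  (.step 0 80 13 (.step 0 80 79 (.step 0 80 77 (.step 1 63 11 (.step 1 64 45 (.step 1 65 1 (.step 4 66 0 (.step 5 67 8 (.step 6 68 0 (.step 0 90 46 (.step 1 69 8 (.step 0 47 92 (.step 0 93 91 (.step 7 70 2 (.step 0 48 95 (.step 9 71 5 (.step 0 97 90 (.step 0 97 91 (.step 5 72 5 (.step 4 73 10 (.step 1 74 12 (.step 1 74 26 (.step 5 83 8 (.step 1 84 29 (.step 6 85 3 (.step 0 55 106 (.step 7 86 11 (.step 0 6 108 (.step 7 87 2 (.step 0 110 24 (.step 1 88 1 (.step 1 89 37 (.step 1 100 9 (.step 1 101 43 (.step 1 104 17 (.step 1 105 36 (.step 1 109 37 (.step 1 111 9 (.step 1 112 16 (.step 7 113 8 (.step 0 94 121 (.step 0 99 121 (.step 7 114 5 (.step 0 124 54 (.step 6 115 10 (.step 0 126 56 (.step 0 126 107 (.step 7 116 8 (.step 0 129 81 (.step 0 129 82 (.step 1 117 17 (.step 0 132 57 (.step 1 117 21 (.step 1 118 44 (.step 1 119 0 (.step 1 119 16 (.step 0 120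 137 (.step 0 138 125 (.step 1 122 29 (.step 1 123 29 ec_1))))))))))))))))))))))))))))))))))))))))))))))))))))))))))))

def ec_3 : CertW :=
  (.step 0 21 0 (.step 0 5 21 (.step 1 16 12 (.step 1 18 16 (.step 0 19 25 (.step 1 18 18 (.step 1 19 17 (.step 0 17 28 (.step 1 19 21 (.step 0 18 30 (.crule [19,20] 1 (.crule [20,15] 11 (.step 1 21 29 (.step 0 1 34 (.step 4 21 7 (.step 5 22 8 (.crule [0,22] 24 (.crule [22,21] 34 (.crule [4,23] 13 (.crule [4,23] 24 (.crule [26,27] 11 (.step 1 28 18 (.step 1 28 20 (.step 0 44 15 (.step 8 28 3 (.step 9 29 5 (.step 9 31 5 (.step 4 32 0 (.step 5 33 2 (.step 1 34 24 (.step 0 0 51 (.step 1 34 26 (.step 8 34 7 (.step 9 35 8 (.step 0 55 3 (.step 1 36 21 (.step 1 37 37 (.step 5 38 11 (.step 1 39 37 (.crule [38,39] 46 (.step 0 61 59 (.step 4 40 3 (.step 5 41 11 (.step 5 42 2 (.crule [43,45] 1 (.crule [43,45] 12 (.step 1 49 17 (.step 1 50 17 (.step 1 50 21 (.step 0 68 70 (.crule [52,53] 23 (.crule [52,53] 34 (.step 1 54 21 (.step 6 57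 7 (.step 7 58 8 (.step 0 62 76 (.step 1 60 24 (.step 0 62 78 (.step 8 60 10 (.step 0 80 61 ec_2))))))))))))))))))))))))))))))))))))))))))))))))))))))))))))

def ec_4 : CertW :=
  (.step 0 15 19 (.split [28] [26] ec_3 (.crule [21,0] 19 (.step 0 22 15 (.contra 23)))))

def ec_5 : CertW :=
  (.step 1 11 12 (.step 1 11 42 (.step 6 11 4 (.step 2 12 4 (.step 1 14 21 (.step 1 15 17 (.step 1 15 21 (.split [18] [16] ec_4 (.crule [15,19] 16 (.step 0 20 0 (.contra 21)))))))))))

def ec_6 : CertW :=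
  (.step 5 84 8 (.step 1 85 10 (.step 0 99 66 (.step 6 86 6 (.step 0 101 21 (.step 6 87 0 (.step 0 103 68 (.step 1 88 10 (.step 0 105 69 (.step 7 89 1 (.step 0 102 107 (.step 0 108 106 (.step 0 102 107 (.step 8 90 3 (.step 0 110 111 (.step 1 91 17 (.step 1 96 24 (.step 1 97 1 (.step 1 98 37 (.step 1 109 25 (.step 1 112 25 (.step 7 113 8 (.step 0 114 119 (.step 0 120 77 (.step 0 104 119 (.step 0 122 77 (.step 6 115 0 (.step 0 65 124 (.step 0 125 100 (.step 7 116 8 (.step 0 126 127 (.step 1 118 8 (.step 0 129 103 (.step 0 129 123 (.step 1 128 29 (.step 0 117 132 (.step 1 132 44 (.step 0 121 134 (.step 9 133 11 (.step 0 135 136 (.step 1 137 25 (.step 1 138 8 (.step 0 139 130 (.step 0 139 131 (.step 1 140 11 (.step 1 141 45 (.step 1 142 18 (.step 0 93 144 (.step 0 145 95 (.step 1 143 36 (.step 0 147 146 (.contra 148))))))))))))))))))))))))))))))))))))))))))))))))))))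

def ec_7 : CertW :=
  (.step 0 37 19 (.step 0 15 37 (.crule [0,29] 24 (.crule [29,28] 34 (.crule [4,30] 13 (.crule [4,30] 24 (.step 1 33 17 (.step 5 36 5 (.step 1 37 17 (.step 0 46 16 (.step 1 37 19 (.step 0 16 48 (.crule [20,38] 7 (.crule [20,38] 18 (.crule [39,37] 1 (.crule [15,39] 7 (.step 5 40 11 (.step 1 41 37 (.crule [40,41] 46 (.step 0 56 54 (.step 4 42 3 (.step 5 43 11 (.step 1 44 24 (.step 1 45 9 (.step 1 46 18 (.step 0 62 15 (.step 1 46 20 (.step 9 46 5 (.step 8 47 3 (.step 0 18 66 (.step 0 67 60 (.step 8 49 3 (.step 5 50 1 (.step 4 51 6 (.step 4 52 0 (.step 5 53 1 (.step 1 55 24 (.step 0 57 74 (.step 8 55 10 (.step 0 76 56 (.step 0 76 75 (.step 1 58 11 (.step 1 59 45 (.step 7 61 5 (.step 0 81 32 (.crule [63,64] 1 (.crule [63,64] 12 (.step 1 70 1 (.step 1 71 33 (.step 1 72 17 (.step 1 72 19 (.step 1 73 19 (.step 0 87 89 (.step 5 78 8 (.step 6 79 3 (.step 0 35 92 (.step 7 80 11 (.step 0 6 94 (.step 1 82 17 (.step 4 83 0 ec_6))))))))))))))))))))))))))))))))))))))))))))))))))))))))))))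

def ec_8 : CertW :=
  (.step 0 1 22 (.step 1 22 20 (.step 1 22 24 (.step 0 0 25 (.step 1 22 26 (.step 1 22 28 (.step 0 28 0 (.step 0 5 28 (.step 1 22 36 (.step 8 22 7 (.step 0 24 32 (.step 9 23 8 (.step 0 31 34 (.crule [26,27] 23 (.split [20] [16] ec_7 (.crule [37,15] 20 (.step 0 38 28 (.contra 39))))))))))))))))))

def ec_9 : CertW :=
  (.step 0 74 166 (.step 0 167 42 (.step 4 164 0 (.step 1 166 17 (.step 3 168 8 (.step 1 169 17 (.step 0 172 152 (.step 1 170 28 (.step 0 136 174 (.step 9 170 5 (.step 0 176 160 (.step 0 175 176 (.step 0 178 160 (.step 1 171 25 (.step 6 172 0 (.step 0 177 181 (.step 0 182 121 (.step 0 181 165 (.step 0 179 181 (.step 0 185 121 (.step 8 173 3 (.step 0 149 187 (.step 1 180 28 (.step 1 184 9 (.step 5 186 8 (.step 1 188 25 (.crule [4,189] 24 (.step 1 190 28 (.step 0 194 183 (.step 1 191 37 (.step 1 192 28 (.step 0 197 195 (.step 5 193 11 (.step 7 196 8 (.step 0 198 200 (.step 1 199 45 (.step 1 201 29 (.step 7 202 11 (.step 0 6 204 (.step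 1 203 36 (.step 0 206 205 (.contra 207))))))))))))))))))))))))))))))))))))))))))

def ec_10 : CertW :=
  (.step 0 124 46 (.step 0 117 123 (.step 0 126 46 (.step 0 117 123 (.step 1 116 25 (.step 0 129 119 (.step 1 118 24 (.step 0 121 131 (.step 0 132 127 (.step 0 121 131 (.step 0 134 128 (.step 1 118 28 (.step 1 119 12 (.step 0 127 137 (.step 9 120 4 (.step 0 135 139 (.step 0 128 139 (.step 1 122 19 (.step 8 130 3 (.step 0 143 127 (.step 0 143 138 (.step 0 143 141 (.step 5 133 1 (.step 7 142 1 (.step 0 125 148 (.step 0 144 148 (.step 5 145 1 (.step 1 147 19 (.step 1 150 11 (.step 1 151 1 (.step 1 153 18 (.step 7 154 1 (.step 0 156 146 (.step 1 155 17 (.step 1 157 13 (.step 1 158 8 (.step 1 159 0 (.step 3 161 2 (.step 0 140 162 (.step 0 163 41 (.step 0 140 162 (.split [34] [16,21,34] ec_9 (.crule [166,110] 9 (.step 0 167 162 (.contra 168)))))))))))))))))))))))))))))))))))))))))))))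

def ec_11 : CertW :=
  (.step 0 64 59 (.step 0 57 64 (.step 1 64 28 (.step 0 28 67 (.step 0 49 67 (.step 1 64 32 (.step 0 56 70 (.step 1 64 34 (.step 1 64 36 (.step 0 29 73 (.step 0 61 73 (.step 1 64 42 (.step 8 64 10 (.step 0 68 77 (.step 0 78 76 (.step 0 67 77 (.step 0 80 76 (.step 0 69 77 (.step 0 82 76 (.step 0 77 76 (.step 9 65 11 (.step 0 63 85 (.step 9 66 11 (.crule [71,72] 35 (.crule [71,72] 46 (.step 0 79 89 (.step 0 90 87 (.step 0 81 89 (.step 0 92 86 (.step 0 83 89 (.step 0 94 87 (.step 0 84 89 (.step 0 96 86 (.step 0 84 89 (.step 0 98 87 (.crule [60,75] 36 (.step 0 50 100 (.step 5 88 8 (.step 1 91 25 (.crule [0,93] 13 (.step 4 95 6 (.step 1 101 45 (.step 1 102 17 (.step 1 103 32 (.step 0 6 108 (.step 0 44 108 (.step 1 104 17 (.crule [15,104] 7 (.step 1 105 19 (.step 1 106 24 (.step 7 107 8 (.step 0 115 97 (.step 0 115 99 (.step 1 109 17 (.step 1 109 19 (.step 0 34 119 (.step 8 111 3 (.step 5 112 1 (.step 6 113 6 (.step 0 114 123 ec_10))))))))))))))))))))))))))))))))))))))))))))))))))))))))))))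

def ec_12 : CertW :=
  (.step 1 101 0 (.step 0 15 102 (.step 1 102 19 (.step 0 16 104 (.step 3 102 2 (.step 3 103 1 (.step 0 107 106 (.step 7 105 1 (.step 0 94 109 (.step 4 108 0 (.step 1 111 17 (.step 0 112 105 (.step 1 112 24 (.step 0 114 110 (.step 8 113 3 (.step 0 116 115 (.contra 117)))))))))))))))))

def ec_13 : CertW :=
  (.step 0 111 16 (.step 1 111 24 (.step 0 113 94 (.step 8 112 3 (.step 0 18 115 (.step 0 116 114 (.step 0 109 115 (.step 0 118 114 (.step 5 117 1 (.step 11 119 1 (.step 1 120 19 (.step 0 122 121 (.contra 123)))))))))))))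

def ec_14 : CertW :=
  (.step 1 124 16 (.step 1 125 19 (.step 2 125 0 (.step 0 127 107 (.step 1 126 10 (.split [18] [16] (.step 5 128 1 (.step 1 130 19 (.step 1 131 19 (.step 8 132 3 (.step 0 129 134 (.step 0 135 94 (.step 7 133 1 (.step 0 137 136 (.contra 138))))))))) (.crule [130,115] 3 (.step 0 131 127 (.contra 132)))))))))

def ec_15 : CertW :=
  (.step 0 147 125 (.step 1 147 10 (.step 0 149 136 (.step 0 149 138 (.step 0 149 140 (.step 1 147 18 (.step 9 148 3 (.step 0 133 154 (.step 0 155 152 (.step 0 154 150 (.step 0 154 151 (.step 1 153 17 (.step 0 127 159 (.step 1 156 29 (.step 4 158 8 (.step 1 159 8 (.step 0 157 163 (.step 8 160 5 (.step 0 164 165 (.step 0 166 89 (.step 1 161 20 (.step 0 30 168 (.step 1 162 37 (.step 1 169 37 (.step 6 170 8 (.step 0 172 167 (.step 1 171 28 (.step 0 174 173 (.contra 175)))))))))))))))))))))))))))))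

def ec_16 : CertW :=
  (.step 0 17 186 (.step 1 186 8 (.step 0 110 188 (.step 1 186 24 (.step 9 186 3 (.step 0 190 191 (.step 0 192 137 (.step 0 190 191 (.step 0 194 140 (.step 8 187 5 (.step 0 189 196 (.step 0 197 181 (.step 4 193 8 (.step 1 199 37 (.step 6 200 8 (.step 0 180 201 (.step 0 202 195 (.step 0 198 201 (.step 0 204 100 (.step 1 203 29 (.step 1 205 13 (.step 0 207 206 (.contra 208)))))))))))))))))))))))

def ec_17 : CertW :=
  (.step 0 218 224 (.step 0 225 142 (.step 1 224 36 (.step 0 227 209 (.step 1 224 44 (.step 0 229 146 (.step 9 226 11 (.step 0 230 231 (.step 0 232 215 (.crule [32,228] 36 (.step 0 234 233 (.contra 235))))))))))))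

def ec_18 : CertW :=
  (.step 0 225 175 (.step 1 225 28 (.step 0 227 47 (.step 1 225 36 (.step 0 229 179 (.step 6 225 8 (.step 0 223 231 (.step 0 232 155 (.step 0 223 231 (.step 0 234 173 (.step 0 223 231 (.step 0 236 156 (.step 0 223 231 (.step 0 238 220 (.step 9 226 10 (.step 0 240 228 (.crule [230,203] 42 (.step 0 185 242 (.step 0 243 241 (.step 1 239 9 (.step 1 245 0 (.step 2 246 0 (.step 0 221 247 (.step 0 248 233 (.step 0 221 247 (.step 0 250 235 (.step 0 221 247 (.step 0 252 237 (.step 1 249 11 (.step 1 251 11 (.step 1 253 11 (.step 1 254 24 (.step 1 255 24 (.step 1 256 40 (.step 0 259 244 (.step 8 256 3 (.step 0 157 261 (.step 0 262 257 (.step 0 157 261 (.step 0 264 258 (.step 0 157 261 (.step 4 263 6 (.step 1 267 33 (.step 6 268 6 (.step 0 269 265 (.step 0 269 266 (.step 1 270 25 (.step 1 271 25 (.step 8 272 9 (.step 0 260 274 (.step 1 273 40 (.step 0 276 275 (.contra 277)))))))))))))))))))))))))))))))))))))))))))))))))))))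

def ec_19 : CertW :=
  (.step 0 218 225 (.step 0 226 142 (.step 1 225 36 (.step 0 228 209 (.step 1 225 44 (.step 0 230 146 (.step 9 227 11 (.step 0 231 232 (.step 0 233 215 (.crule [32,229] 36 (.step 0 235 234 (.contra 236))))))))))))

def ec_20 : CertW :=
  (.split [37,16] [] ec_18 ec_19)

def ec_21 : CertW :=
  (.step 1 187 24 (.step 0 188 150 (.step 0 188 9 (.step 0 188 97 (.step 8 187 3 (.step 0 161 192 (.step 0 193 189 (.step 0 161 192 (.step 0 195 190 (.step 0 144 192 (.step 0 197 191 (.step 0 145 192 (.step 0 199 191 (.step 4 194 6 (.step 0 131 201 (.step 0 202 184 (.step 1 196 27 (.step 1 198 13 (.step 4 200 2 (.step 1 201 33 (.step 1 204 18 (.step 0 131 208 (.step 1 205 28 (.step 0 163 210 (.step 0 211 90 (.step 1 206 1 (.step 6 207 6 (.step 0 214 212 (.step 1 208 17 (.step 0 128 216 (.step 1 208 33 (.step 6 213 2 (.step 0 97 219 (.step 1 216 10 (.step 8 217 5 (.step 0 222 182 (.split [] [37,16] ec_17 ec_20)))))))))))))))))))))))))))))))))))))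

def ec_22 : CertW :=
  (.step 1 187 24 (.step 9 187 3 (.step 0 188 189 (.step 0 190 137 (.step 0 188 189 (.step 0 192 140 (.step 1 186 24 (.step 0 194 100 (.step 8 186 3 (.step 0 144 196 (.step 0 197 195 (.step 4 191 8 (.step 1 198 13 (.step 1 199 37 (.step 1 200 28 (.step 0 193 202 (.step 0 203 180 (.step 6 201 8 (.step 0 205 204 (.contra 206))))))))))))))))))))

def ec_23 : CertW :=
  (.split [17,18] [] ec_21 ec_22)

def ec_24 : CertW :=
  (.step 0 106 148 (.step 1 148 24 (.step 1 148 26 (.step 0 121 151 (.step 7 148 1 (.step 0 94 153 (.step 0 154 109 (.step 0 94 153 (.step 0 21 153 (.step 9 149 4 (.step 0 151 158 (.step 0 159 123 (.step 0 158 144 (.step 0 158 119 (.step 0 158 141 (.step 0 158 123 (.step 0 152 158 (.step 0 165 123 (.step 1 160 29 (.step 1 162 27 (.step 5 166 7 (.step 1 167 20 (.step 0 30 170 (.step 1 168 10 (.step 0 156 172 (.step 1 169 35 (.step 1 171 35 (.step 1 171 37 (.step 7 174 7 (.step 0 164 177 (.step 1 175 36 (.step 1 176 28 (.step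 0 89 180 (.step 0 91 180 (.step 1 178 27 (.step 1 183 32 (.step 1 183 40 (.split [] [17,18] ec_16 ec_23))))))))))))))))))))))))))))))))))))))

def ec_25 : CertW :=
  (.step 0 106 147 (.step 0 148 125 (.step 1 147 26 (.step 9 149 4 (.step 0 151 152 (.step 0 153 141 (.step 1 148 10 (.step 0 155 136 (.step 0 155 138 (.step 1 148 18 (.step 9 150 3 (.step 0 159 156 (.step 0 159 157 (.step 1 154 29 (.step 1 158 17 (.step 0 127 163 (.step 4 161 8 (.step 1 162 20 (.step 0 30 166 (.step 1 163 8 (.step 0 160 168 (.step 8 164 5 (.step 0 169 170 (.step 0 171 89 (.step 1 165 37 (.step 1 167 37 (.step 6 173 8 (.step 0 175 172 (.step 1 174 28 (.step 0 177 176 (.contra 178)))))))))))))))))))))))))))))))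

def ec_26 : CertW :=
  (.split [] [19,0] ec_24 ec_25)

def ec_27 : CertW :=
  (.step 0 106 125 (.step 0 17 125 (.step 0 85 125 (.step 1 125 8 (.step 0 110 129 (.step 1 125 16 (.step 1 125 24 (.step 0 0 132 (.step 1 125 28 (.step 0 117 134 (.step 7 125 0 (.step 0 136 117 (.step 0 136 135 (.step 8 126 5 (.step 0 136 139 (.step 0 130 139 (.step 1 131 37 (.step 3 131 0 (.step 0 110 143 (.step 0 95 143 (.step 1 142 44 (.split [19,0] [] ec_15 ec_26))))))))))))))))))))))

def ec_28 : CertW :=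
  (.step 7 124 0 (.step 1 125 8 (.step 0 126 127 (.step 0 128 107 (.step 1 125 16 (.step 5 129 1 (.step 1 130 19 (.step 1 131 19 (.step 0 133 132 (.step 1 132 10 (.step 7 133 1 (.step 0 94 136 (.step 0 137 135 (.step 8 134 3 (.step 0 139 138 (.contra 140))))))))))))))))

def ec_29 : CertW :=
  (.split [] [17,0] ec_27 ec_28)

def ec_30 : CertW :=
  (.step 1 112 8 (.step 0 110 113 (.step 1 112 16 (.step 8 112 5 (.step 0 108 116 (.step 0 114 116 (.step 0 118 47 (.step 1 115 21 (.step 1 120 26 (.step 8 120 5 (.step 0 110 122 (.split [17,0] [] ec_14 ec_29))))))))))))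

def ec_31 : CertW :=
  (.step 0 112 16 (.step 1 112 24 (.step 0 114 94 (.step 8 113 3 (.step 0 18 116 (.step 0 117 115 (.step 0 109 116 (.step 0 119 115 (.step 5 118 1 (.step 11 120 1 (.step 1 121 19 (.step 0 123 122 (.contra 124)))))))))))))

def ec_32 : CertW :=
  (.split [] [17,20] ec_30 ec_31)

def ec_33 : CertW :=
  (.step 1 102 0 (.step 1 103 17 (.step 1 103 19 (.step 1 103 21 (.step 2 103 2 (.step 1 104 8 (.step 1 105 10 (.step 6 106 2 (.split [17,20] [] ec_13 ec_32)))))))))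

def ec_34 : CertW :=
  (.step 0 102 16 (.step 1 101 12 (.step 0 94 104 (.step 6 101 2 (.step 1 102 0 (.step 0 15 107 (.step 1 102 8 (.step 0 106 109 (.step 7 103 1 (.step 0 105 111 (.step 1 107 17 (.step 3 108 1 (.step 0 114 110 (.step 1 113 24 (.step 4 115 0 (.step 1 117 17 (.step 0 113 118 (.step 0 119 16 (.step 1 118 24 (.step 0 116 121 (.step 0 122 112 (.step 8 120 3 (.step 0 124 123 (.contra 125))))))))))))))))))))))))

def ec_35 : CertW :=
  (.split [] [1,20] ec_33 ec_34)

def ec_36 : CertW :=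
  (.step 1 65 28 (.step 0 66 47 (.step 0 66 62 (.step 1 65 36 (.step 9 65 10 (.step 0 70 67 (.step 0 70 68 (.crule [69,32] 42 (.step 0 51 73 (.step 0 74 70 (.step 0 51 73 (.step 0 76 71 (.step 0 51 73 (.step 0 78 72 (.step 1 77 27 (.step 5 79 7 (.step 1 80 34 (.step 1 81 21 (.step 1 82 19 (.step 1 82 21 (.step 0 85 7 (.step 7 83 7 (.step 0 10 87 (.step 0 88 75 (.step 0 87 51 (.step 0 87 75 (.step 1 84 26 (.step 0 9 92 (.step 0 93 21 (.step 1 85 8 (.step 9 86 4 (.step 0 9 96 (.step 1 91 29 (.step 1 98 12 (.step 0 97 99 (.split [1,20] [] ec_12 ec_35))))))))))))))))))))))))))))))))))))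

def ec_37 : CertW :=
  (.step 5 113 8 (.step 0 103 126 (.step 4 115 6 (.step 1 120 27 (.step 1 121 17 (.crule [96,122] 7 (.step 1 124 17 (.step 1 124 19 (.step 1 125 32 (.step 0 6 134 (.step 1 127 17 (.step 1 128 19 (.step 1 129 34 (.step 7 130 8 (.step 0 139 117 (.step 5 131 1 (.step 0 68 141 (.step 0 142 93 (.step 8 132 3 (.step 8 133 3 (.step 0 145 9 (.step 1 135 17 (.step 1 135 19 (.step 0 136 148 (.step 0 34 148 (.step 6 137 6 (.step 0 140 151 (.step 0 152 46 (.step 0 140 151 (.step 1 138 19 (.step 1 143 19 (.step 1 147 24 (.step 0 144 157 (.step 0 158 154 (.step 1 148 12 (.step 0 153 160 (.step 8 149 3 (.step 0 162 161 (.step 0 162 154 (.step 9 150 4 (.step 0 159 165 (.step 0 164 165 (.step 1 155 26 (.step 0 146 168 (.step 0 169 21 (.step 7 156 1 (.step 0 170 171 (.step 5 163 1 (.step 1 172 11 (.step 1 173 1 (.step 1 174 18 (.step 7 175 1 (.step 0 177 167 (.step 3 176 0 (.step 0 41 179 (.step 0 180 166 (.step 1 178 13 (.step 4 181 2 (.step 1 182 0 (.step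 0 184 183 (.contra 185)))))))))))))))))))))))))))))))))))))))))))))))))))))))))))))

def ec_38 : CertW :=
  (.step 0 65 59 (.step 0 57 65 (.step 1 65 18 (.step 1 65 20 (.step 0 15 69 (.step 1 65 24 (.step 0 0 71 (.step 1 65 28 (.step 0 28 73 (.step 0 49 73 (.step 1 65 32 (.step 0 56 76 (.step 1 65 34 (.step 1 65 40 (.step 0 51 79 (.step 1 65 42 (.step 8 65 10 (.step 0 74 82 (.step 0 83 81 (.step 0 73 82 (.step 0 85 81 (.step 0 75 82 (.step 0 87 81 (.step 0 82 81 (.step 9 66 11 (.step 0 63 90 (.step 9 67 11 (.step 1 64 0 (.step 1 64 16 (.step 1 64 18 (.step 0 95 70 (.step 1 64 26 (.step 0 97 72 (.step 1 64 28 (.step 0 99 47 (.step 1 64 34 (.step 0 101 77 (.step 1 64 36 (.step 1 64 42 (.step 9 64 10 (.step 0 104 105 (.step 0 106 100 (.crule [77,78] 35 (.crule [77,78] 46 (.step 0 84 109 (.step 0 110 92 (.step 0 86 109 (.step 0 112 91 (.step 0 88 109 (.step 0 114 92 (.step 0 89 109 (.step 0 116 92 (.crule [101,102] 42 (.step 0 80 118 (.step 0 119 107 (.step 5 108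 8 (.crule [98,108] 13 (.step 0 68 122 (.step 0 123 94 (.step 1 111 25 ec_37))))))))))))))))))))))))))))))))))))))))))))))))))))))))))))

def ec_39 : CertW :=
  (.split [37,34] [] ec_36 ec_38)

def ec_40 : CertW :=
  (.step 1 54 40 (.step 2 55 9 (.step 1 56 33 (.step 1 56 35 (.step 1 56 37 (.step 1 57 34 (.step 1 57 36 (.step 1 58 28 (.step 1 59 44 (.split [] [37,34] ec_11 ec_39))))))))))

def ec_41 : CertW :=
  (.step 1 54 32 (.step 0 55 53 (.split [36] [32] (.step 0 57 56 (.split [34] [36] (.step 0 59 58 (.contra 60)) (.crule [59,56] 29 (.step 0 60 28 (.contra 61))))) (.crule [56,57] 27 (.step 0 58 0 (.contra 59))))))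

def ec_42 : CertW :=
  (.step 1 23 8 (.step 1 23 18 (.step 0 25 6 (.step 1 23 20 (.step 1 23 28 (.step 1 23 36 (.step 9 23 7 (.step 0 30 27 (.crule [28,0] 30 (.step 1 30 21 (.step 0 33 23 (.step 1 31 19 (.step 1 31 35 (.step 1 32 33 (.step 1 32 35 (.step 4 32 9 (.step 1 33 8 (.step 0 40 24 (.step 1 33 16 (.step 1 33 18 (.step 0 43 26 (.step 1 35 26 (.step 0 45 21 (.step 7 36 7 (.step 1 37 26 (.step 0 48 28 (.step 8 37 9 (.step 8 38 9 (.step 1 39 41 (.step 6 52 9 (.split [41,26] [] ec_40 ec_41)))))))))))))))))))))))))))))))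

def ec_43 : CertW :=
  (.step 9 136 1 (.step 0 122 144 (.step 0 145 143 (.step 1 140 9 (.step 1 146 37 (.step 1 147 24 (.step 0 133 149 (.step 0 150 128 (.step 1 148 42 (.step 0 152 151 (.contra 153)))))))))))

def ec_44 : CertW :=
  (.step 1 61 28 (.step 1 68 33 (.step 0 85 64 (.step 0 85 78 (.step 1 69 12 (.step 0 88 40 (.step 9 70 4 (.step 0 90 89 (.step 1 71 9 (.step 0 92 22 (.step 9 73 5 (.step 0 84 94 (.step 4 74 0 (.step 5 75 1 (.step 1 78 32 (.step 0 68 98 (.step 1 78 34 (.step 8 78 10 (.step 7 79 8 (.step 0 102 101 (.step 1 81 45 (.step 1 82 11 (.step 1 83 45 (.step 6 86 6 (.step 0 107 91 (.step 9 87 11 (.step 0 109 108 (.step 7 92 5 (.step 0 111 36 (.step 1 95 9 (.step 1 96 17 (.step 1 97 19 (.step 0 114 115 (.crule [99,100] 46 (.step 0 117 110 (.step 1 104 36 (.step 0 119 39 (.step 6 105 3 (.step 0 39 121 (.step 0 120 121 (.step 7 106 11 (.step 0 6 124 (.step 0 125 123 (.step 1 113 24 (.step 0 127 103 (.step 6 114 0 (.step 7 115 1 (.step 0 118 130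 (.step 8 116 3 (.step 0 131 132 (.step 1 126 19 (.step 0 93 134 (.step 0 12 134 (.step 1 134 0 (.step 0 13 137 (.step 1 134 10 (.step 0 129 139 (.step 8 135 0 (.step 0 138 141 (.step 0 142 112 ec_43))))))))))))))))))))))))))))))))))))))))))))))))))))))))))))

def ec_45 : CertW :=
  (.step 0 1 23 (.step 0 22 16 (.step 1 23 20 (.step 0 15 26 (.step 1 23 24 (.step 0 0 28 (.step 1 23 26 (.step 1 23 28 (.step 0 31 0 (.step 0 5 31 (.step 1 23 34 (.step 1 23 36 (.step 8 23 7 (.step 0 26 36 (.step 9 24 8 (.step 0 35 38 (.step 1 22 12 (.step 1 22 16 (.step 1 22 26 (.step 0 42 29 (.step 1 22 32 (.step 1 22 34 (.step 1 22 42 (.step 9 22 7 (.crule [29,30] 23 (.step 0 47 48 (.step 0 49 41 (.step 0 26 48 (.step 0 51 41 (.step 0 27 48 (.step 0 53 41 (.crule [29,30] 34 (.step 0 35 55 (.step 0 56 45 (.crule [0,32] 24 (.crule [4,33] 13 (.crule [4,33] 24 (.step 1 36 21 (.step 0 23 61 (.step 1 37 19 (.step 0 16 63 (.step 0 25 63 (.crule [42,43] 30 (.step 0 34 66 (.step 0 67 44 (.step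 1 47 21 (.step 0 69 65 (.step 5 48 5 (.step 1 50 17 (.step 0 72 62 (.crule [54,52] 1 (.crule [15,54] 7 (.step 4 55 10 (.step 0 76 46 (.step 1 57 37 (.step 0 72 78 (.crule [58,57] 46 (.step 0 77 80 (.step 4 59 3 (.step 5 60 11 ec_44))))))))))))))))))))))))))))))))))))))))))))))))))))))))))))

def ec_46 : CertW :=
  (.split [29,26] [] ec_42 ec_45)

def ec_47 : CertW :=
  (.step 1 12 0 (.step 1 12 12 (.step 3 14 4 (.step 1 15 19 (.step 1 15 21 (.step 1 16 10 (.step 1 16 16 (.step 1 16 20 (.step 9 16 4 (.split [] [29,26] ec_8 ec_46))))))))))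

def ec_48 : CertW :=
  (.step 0 89 77 (.step 1 65 37 (.crule [61,65] 46 (.step 5 66 11 (.step 4 67 0 (.step 5 68 8 (.step 7 69 1 (.step 0 32 96 (.step 0 97 52 (.step 7 70 1 (.step 0 17 99 (.step 7 72 2 (.step 0 39 101 (.step 6 78 0 (.step 0 103 52 (.step 8 79 3 (.step 0 100 105 (.step 9 80 5 (.step 0 107 104 (.step 1 87 37 (.step 1 90 37 (.step 0 78 110 (.step 8 91 10 (.step 0 112 92 (.step 1 93 45 (.step 1 94 1 (.step 1 95 37 (.step 1 109 28 (.step 0 117 113 (.step 7 111 8 (.step 0 106 119 (.step 0 120 118 (.step 7 114 11 (.step 0 23 122 (.step 6 115 0 (.step 0 53 124 (.step 7 116 8 (.step 0 52 126 (.step 0 98 126 (.step 0 108 126 (.step 1 121 45 (.step 1 123 37 (.step 0 131 130 (.step 1 129 29 (.step 0 133 132 (.step 1 130 28 (.step 0 135 125 (.step 0 135 102 (.step 1 131 28 (.step 0 127 138 (.step 0 139 136 (.step 0 128 138 (.step 0 141 137 (.step 1 140 11 (.step 0 134 143 (.step 1 142 13 (.step 0 145 144 (.contra 146))))))))))))))))))))))))))))))))))))))))))))))))))))))))))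

def ec_49 : CertW :=
  (.step 0 21 29 (.step 1 24 24 (.step 1 27 12 (.step 1 28 18 (.step 1 28 20 (.step 1 29 17 (.step 0 28 35 (.crule [19,29] 7 (.step 0 37 13 (.step 5 30 5 (.crule [29,30] 1 (.crule [30,21] 11 (.step 0 17 41 (.crule [29,30] 12 (.crule [30,21] 22 (.step 0 5 44 (.step 1 35 18 (.step 0 33 46 (.step 0 47 19 (.step 1 35 20 (.step 0 34 49 (.step 8 35 3 (.step 0 51 31 (.step 9 36 5 (.step 5 37 1 (.step 1 38 11 (.step 0 11 55 (.step 0 1 55 (.step 4 40 0 (.step 1 42 9 (.step 0 59 55 (.crule [0,43] 24 (.step 1 44 29 (.step 0 59 62 (.step 0 1 62 (.crule [43,44] 34 (.crule [4,45] 24 (.crule [48,50] 1 (.crule [48,50] 12 (.step 1 54 1 (.step 1 54 19 (.step 1 54 21 (.step 0 26 71 (.step 1 55 0 (.step 9 56 1 (.step 0 74 16 (.step 6 57 3 (.step 0 76 75 (.step 1 58 17 (.step 0 78 70 (.step 0 78 72 (.step 8 60 0 (.step 0 73 81 (.step 1 62 36 (.step 8 62 7 (.step 7 63 5 (.step 0 82 85 (.step 0 86 84 (.step 9 64 8 (.step 0 83 88 ec_48))))))))))))))))))))))))))))))))))))))))))))))))))))))))))))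

def ec_50 : CertW :=
  (.step 1 12 12 (.step 1 12 20 (.step 6 12 4 (.step 1 11 0 (.step 1 11 12 (.step 1 11 20 (.step 0 15 18 (.step 7 11 4 (.step 0 14 20 (.step 0 14 20 (.step 0 22 6 (.step 1 19 17 (.step 1 20 21 (.step 0 12 25 (.step 1 21 1 (.step 1 21 17 (.split [18] [16] ec_49 (.crule [21,29] 16 (.step 0 30 0 (.contra 31))))))))))))))))))))

def ec_51 : CertW :=
  (.split [13,26] [] ec_47 ec_50)

def ec_52 : CertW :=
  (.step 1 0 25 (.step 4 0 6 (.step 1 1 16 (.step 1 1 26 (.step 1 1 28 (.step 8 1 6 (.step 1 2 19 (.step 1 2 21 (.step 6 7 6 (.step 1 8 28 (.split [] [13,26] ec_5 ec_51)))))))))))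

theorem ct_ec : Ct true false [true, true, true, true] [(1, true), (2, true), (3, true), (4, false)]
    [⟨[2 * cd 3 1], [2 * cd 3 0], true⟩] :=
  ⟨ec_52, by decide +kernel⟩

def ce_0 : CertW :=
  (.step 7 59 10 (.step 0 84 41 (.step 0 84 42 (.step 9 60 7 (.step 0 83 87 (.step 4 70 5 (.step 1 76 9 (.step 1 77 41 (.step 1 88 21 (.step 1 89 29 (.step 6 90 5 (.step 0 94 75 (.step 0 81 94 (.step 0 85 94 (.step 0 97 75 (.step 7 91 10 (.step 0 39 99 (.step 0 100 96 (.step 1 92 36 (.step 0 102 98 (.step 0 102 86 (.step 6 93 5 (.step 0 105 69 (.step 0 105 74 (.step 1 95 21 (.step 1 101 17 (.step 1 106 21 (.step 0 110 14 (.step 1 107 21 (.step 1 108 36 (.step 0 64 113 (.step 1 109 8 (.step 8 111 8 (.step 0 62 116 (.step 1 112 36 (.step 0 117 118 (.step 1 115 13 (.step 1 120 36 (.step 0 114 121 (.step 0 122 104 (.step 0 119 121 (.step 0 124 103 (.step 1 123 21 (.step 1 125 21 (.step 1 126 28 (.step 1 127 12 (.step 0 129 128 (.contra 130))))))))))))))))))))))))))))))))))))))))))))))))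

def ce_1 : CertW :=
  (.step 0 18 23 (.step 1 20 29 (.step 0 25 2 (.step 0 3 25 (.crule [21,8] 31 (.crule [21,8] 42 (.crule [22,0] 42 (.crule [20,22] 44 (.step 5 23 4 (.step 4 24 5 (.crule [18,24] 15 (.crule [24,23] 21 (.step 1 25 24 (.step 1 25 26 (.step 0 37 0 (.step 8 25 8 (.step 9 26 7 (.step 0 11 40 (.step 9 27 7 (.step 5 28 4 (.step 4 29 9 (.step 4 30 9 (.step 5 31 10 (.step 1 32 13 (.step 1 33 29 (.step 1 34 9 (.step 1 35 13 (.step 4 35 2 (.crule [34,35] 3 (.step 0 52 51 (.crule [36,38] 33 (.crule [36,38] 44 (.step 1 43 13 (.step 1 44 41 (.step 1 45 27 (.step 1 46 29 (.step 0 59 58 (.step 7 47 4 (.step 0 61 16 (.step 6 48 5 (.step 0 63 39 (.step 1 49 20 (.step 0 53 65 (.step 9 49 0 (.step 0 67 52 (.step 0 67 53 (.step 0 67 66 (.step 0 19 67 (.step 0 71 52 (.step 8 50 2 (.step 0 68 73 (.step 0 72 73 (.step 4 54 5 (.step 5 55 10 (.step 7 56 4 (.step 0 78 12 (.step 1 57 34 (.step 0 80 40 (.step 6 58 9 (.step 0 79 82 ce_0))))))))))))))))))))))))))))))))))))))))))))))))))))))))))))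

def ce_2 : CertW :=
  (.step 0 20 9 (.step 0 0 20 (.split [18] [20] ce_1 (.crule [23,18] 28 (.step 0 24 0 (.contra 25))))))

def ce_3 : CertW :=
  (.step 1 14 24 (.step 7 14 3 (.step 1 15 9 (.step 3 15 3 (.step 1 17 16 (.split [24] [28] ce_2 (.crule [0,20] 25 (.step 0 21 18 (.contra 22)))))))))

def ce_4 : CertW :=
  (.step 6 228 5 (.step 0 221 229 (.step 0 222 229 (.step 1 230 17 (.step 0 155 232 (.step 1 231 17 (.step 8 233 2 (.step 0 235 226 (.step 1 234 0 (.step 0 237 236 (.contra 238)))))))))))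

def ce_5 : CertW :=
  (.step 1 152 28 (.step 0 169 142 (.step 1 152 36 (.step 0 171 144 (.step 8 154 6 (.step 0 147 173 (.step 0 164 173 (.step 1 155 12 (.step 1 159 16 (.step 1 159 28 (.step 0 178 170 (.step 1 159 36 (.step 1 160 34 (.step 0 172 181 (.step 0 182 175 (.step 0 144 181 (.step 0 184 175 (.step 1 160 40 (.step 0 179 186 (.step 1 166 35 (.step 1 168 37 (.step 1 176 29 (.step 1 179 41 (.step 0 191 160 (.step 1 188 40 (.step 0 187 193 (.step 1 189 0 (.step 0 165 195 (.step 0 196 174 (.step 0 157 195 (.step 0 198 94 (.step 1 190 16 (.step 0 200 177 (.step 6 192 9 (.step 0 202 197 (.step 1 194 13 (.step 1 199 21 (.step 1 203 33 (.step 1 204 36 (.step 0 180 207 (.step 0 208 145 (.step 1 206 40 (.step 2 210 11 (.step 0 183 211 (.step 0 185 211 (.step 1 212 37 (.step 0 205 214 (.step 1 213 37 (.step 1 214 16 (.step 0 201 217 (.step 8 215 8 (.step 0 217 219 (.step 0 220 209 (.step 0 219 209 (.step 0 218 219 (.step 0 223 209 (.step 1 216 0 (.step 0 158 225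 (.step 4 224 5 (.step 1 227 9 ce_4))))))))))))))))))))))))))))))))))))))))))))))))))))))))))))

def ce_6 : CertW :=
  (.step 7 76 10 (.step 0 109 45 (.step 9 77 7 (.step 0 106 111 (.step 0 112 108 (.step 0 107 111 (.step 0 114 108 (.step 0 107 111 (.step 5 96 4 (.step 1 97 21 (.step 1 104 17 (.step 1 113 21 (.step 1 115 21 (.step 0 121 20 (.step 1 116 21 (.step 1 117 27 (.step 1 118 12 (.step 1 119 8 (.step 1 120 4 (.step 0 88 127 (.step 0 128 95 (.step 0 89 127 (.step 0 130 95 (.step 1 121 4 (.step 0 132 95 (.step 1 121 8 (.step 0 134 126 (.step 1 121 10 (.step 0 136 16 (.step 9 122 1 (.step 0 84 138 (.step 0 139 133 (.step 0 84 138 (.step 1 123 28 (.step 1 123 36 (.step 0 143 109 (.step 0 143 110 (.step 7 124 4 (.step 0 94 146 (.step 0 129 146 (.step 0 140 146 (.step 1 125 27 (.step 0 66 150 (.step 1 126 13 (.step 1 126 25 (.step 0 153 150 (.step 1 131 21 (.crule [135,137] 9 (.step 0 141 156 (.step 0 91 156 (.step 1 140 21 (.step 1 148 19 (.step 1 150 34 (.step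 0 144 161 (.step 9 151 7 (.step 0 163 149 (.step 0 163 157 (.step 0 163 85 (.step 0 162 163 (.step 0 167 83 ce_5))))))))))))))))))))))))))))))))))))))))))))))))))))))))))))

def ce_7 : CertW :=
  (.step 0 23 48 (.crule [39,8] 31 (.crule [39,8] 42 (.crule [40,0] 42 (.crule [38,40] 44 (.step 4 46 5 (.step 5 47 10 (.step 4 48 5 (.step 5 49 4 (.crule [49,23] 19 (.crule [48,49] 21 (.step 5 50 4 (.step 4 51 9 (.step 4 52 9 (.step 5 53 10 (.step 1 54 9 (.step 1 55 41 (.step 1 56 29 (.step 1 57 13 (.step 1 58 13 (.step 5 58 1 (.step 1 59 13 (.crule [59,58] 9 (.step 0 69 71 (.step 1 60 13 (.step 1 61 41 (.step 1 62 27 (.step 1 63 29 (.step 0 76 75 (.step 6 64 5 (.step 0 44 78 (.step 7 65 10 (.step 0 42 80 (.step 6 66 5 (.step 0 82 43 (.step 0 82 27 (.step 0 82 81 (.step 7 67 4 (.step 0 86 72 (.step 9 68 1 (.step 0 86 88 (.step 0 86 88 (.step 0 90 28 (.step 1 70 18 (.step 0 92 72 (.step 8 70 2 (.step 0 71 94 (.step 0 93 94 (.step 0 87 94 (.step 7 73 4 (.step 0 29 98 (.step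 0 99 12 (.step 0 98 12 (.step 1 74 34 (.step 0 81 102 (.step 0 103 79 (.step 6 75 9 (.step 0 100 105 (.step 0 101 105 (.step 1 76 20 ce_6))))))))))))))))))))))))))))))))))))))))))))))))))))))))))))

def ce_8 : CertW :=
  (.step 0 32 2 (.step 0 3 32 (.step 1 32 24 (.step 1 32 26 (.step 0 36 0 (.step 1 32 28 (.step 0 38 9 (.step 0 0 38 (.step 1 32 36 (.step 8 32 8 (.step 0 42 41 (.step 9 33 7 (.step 9 34 7 (.crule [35,37] 33 (.crule [35,37] 44 (.split [16] [20] ce_7 (.crule [23,48] 24 (.step 0 49 38 (.contra 50)))))))))))))))))))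

def ce_9 : CertW :=
  (.step 0 91 82 (.step 1 91 13 (.step 0 93 78 (.step 4 92 2 (.crule [81,92] 3 (.step 0 86 96 (.step 0 86 96 (.step 0 98 95 (.step 0 88 96 (.step 0 90 96 (.step 1 93 16 (.step 0 102 100 (.step 1 93 18 (.step 0 104 101 (.step 8 94 2 (.step 0 97 106 (.step 0 103 106 (.step 0 105 106 (.step 4 99 5 (.step 5 109 4 (.crule [108,109] 32 (.step 1 110 29 (.step 1 111 27 (.step 5 112 7 (.step 6 113 5 (.step 0 34 116 (.step 0 117 107 (.step 0 116 107 (.step 7 114 4 (.step 0 115 120 (.step 0 121 12 (.step 0 119 120 (.step 0 123 12 (.step 1 118 21 (.step 1 119 21 (.step 0 126 114 (.step 1 125 34 (.step 0 128 122 (.step 9 127 7 (.step 0 74 130 (.step 0 131 124 (.step 4 129 9 (.step 10 132 9 (.step 1 133 27 (.step 0 135 134 (.contra 136))))))))))))))))))))))))))))))))))))))))))))))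

def ce_10 : CertW :=
  (.step 1 78 2 (.step 1 78 8 (.step 1 78 10 (.step 1 78 12 (.step 1 78 16 (.step 0 31 83 (.step 9 78 0 (.step 0 85 79 (.step 0 83 85 (.step 0 87 79 (.step 0 84 85 (.step 0 89 79 (.split [24] [12,11,24] ce_9 (.crule [91,80] 16 (.step 0 92 31 (.contra 93))))))))))))))))

def ce_11 : CertW :=
  (.step 0 144 83 (.step 1 145 17 (.step 0 121 146 (.step 1 146 0 (.step 1 146 8 (.step 0 149 130 (.step 0 127 149 (.step 8 147 2 (.step 0 148 152 (.step 1 149 13 (.step 0 154 121 (.crule [150,124] 9 (.step 0 138 156 (.step 0 157 153 (.step 0 140 156 (.crule [151,129] 9 (.step 0 141 160 (.step 1 154 8 (.step 8 155 2 (.step 0 159 163 (.step 4 158 5 (.step 0 162 165 (.step 0 166 142 (.step 0 165 142 (.step 1 164 21 (.step 1 167 9 (.step 0 169 170 (.step 1 168 9 (.step 8 171 2 (.step 0 173 161 (.step 1 172 0 (.step 0 175 174 (.contra 176)))))))))))))))))))))))))))))))))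

def ce_12 : CertW :=
  (.step 1 84 29 (.step 3 84 10 (.step 0 86 61 (.step 1 85 20 (.step 0 88 7 (.step 4 87 9 (.step 1 90 27 (.step 0 58 91 (.step 0 85 91 (.step 1 91 20 (.step 0 88 94 (.step 6 91 9 (.step 0 12 96 (.step 0 72 96 (.step 8 92 6 (.step 0 99 50 (.step 9 93 7 (.step 0 97 101 (.step 0 102 88 (.step 0 97 101 (.step 0 104 89 (.step 0 97 101 (.step 0 98 101 (.step 0 107 95 (.step 5 105 4 (.step 5 108 4 (.step 1 109 13 (.step 1 110 13 (.step 7 111 4 (.step 0 29 113 (.step 0 114 103 (.step 0 113 103 (.step 0 113 106 (.step 7 112 4 (.step 0 118 100 (.step 1 115 21 (.step 1 116 21 (.step 0 121 20 (.step 1 117 21 (.step 1 120 12 (.step 1 121 4 (.step 0 125 24 (.step 1 121 8 (.step 1 121 10 (.step 0 128 16 (.step 1 121 12 (.step 0 130 25 (.step 1 121 16 (.step 0 132 27 (.step 9 122 1 (.step 0 27 134 (.step 0 135 126 (.step 0 133 134 (.step 0 137 125 (.step 0 119 134 (.step 0 139 125 (.step 0 119 134 (.step 1 123 28 (.crule [131,80] 7 (.step 0 136 143 ce_11))))))))))))))))))))))))))))))))))))))))))))))))))))))))))))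

def ce_13 : CertW :=
  (.step 0 100 122 (.crule [121,120] 19 (.crule [115,121] 21 (.step 1 122 27 (.step 0 87 126 (.step 0 88 126 (.step 4 123 6 (.step 0 129 111 (.step 1 125 13 (.crule [125,124] 9 (.step 1 126 20 (.step 9 126 7 (.step 0 134 133 (.step 6 127 9 (.step 0 72 136 (.step 0 137 135 (.step 8 128 6 (.step 0 139 111 (.step 4 130 3 (.step 1 131 4 (.step 0 142 132 (.step 8 131 2 (.step 0 143 144 (.step 5 138 4 (.step 1 141 11 (.step 1 146 13 (.step 6 147 3 (.step 0 140 149 (.step 7 148 4 (.step 0 145 151 (.step 0 152 150 (.step 1 150 19 (.step 0 148 154 (.step 13 153 1 (.step 0 156 155 (.contra 157))))))))))))))))))))))))))))))))))))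

def ce_14 : CertW :=
  (.step 1 113 29 (.step 2 113 5 (.step 1 114 8 (.step 1 114 24 (.step 0 98 117 (.step 2 116 5 (.step 2 118 3 (.step 0 120 115 (.split [26,29,40] [40] ce_13 (.crule [97,122] 35 (.step 0 123 119 (.contra 124))))))))))))

def ce_15 : CertW :=
  (.step 1 118 25 (.step 1 119 10 (.step 3 120 3 (.step 0 110 121 (.step 0 122 47 (.split [40] [26,25,40] (.step 0 124 68 (.step 4 123 9 (.step 0 126 125 (.contra 127)))) (.crule [124,86] 25 (.step 0 125 121 (.contra 126)))))))))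

def ce_16 : CertW :=
  (.step 1 128 8 (.step 1 128 10 (.step 1 128 12 (.split [40] [12,11,40] (.step 0 132 131 (.split [12,9,40] [40] (.step 0 134 133 (.contra 135)) (.crule [130,134] 14 (.step 0 135 116 (.contra 136))))) (.crule [132,129] 16 (.step 0 133 121 (.contra 134)))))))

def ce_17 : CertW :=
  (.step 0 140 129 (.step 1 140 0 (.step 1 140 8 (.step 1 140 10 (.step 0 144 132 (.step 1 140 18 (.step 0 146 133 (.step 1 140 20 (.step 0 148 116 (.step 8 140 2 (.step 0 142 150 (.step 0 151 149 (.step 0 142 150 (.step 9 141 1 (.step 0 133 154 (.step 0 147 154 (.step 0 124 154 (.step 0 126 154 (.crule [143,145] 9 (.step 0 155 159 (.step 0 160 153 (.step 0 156 159 (.step 0 162 153 (.step 0 157 159 (.step 0 164 152 (.step 0 158 159 (.step 0 166 153 (.step 5 163 4 (.step 1 165 17 (.step 1 168 27 (.step 7 170 4 (.step 0 161 171 (.step 0 167 171 (.step 1 172 19 (.step 0 169 174 (.step 12 173 6 (.step 0 176 175 (.contra 177))))))))))))))))))))))))))))))))))))))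

def ce_18 : CertW :=
  (.step 0 243 226 (.step 1 234 20 (.step 0 245 229 (.step 1 234 32 (.step 0 247 239 (.step 1 241 17 (.step 1 242 17 (.step 5 244 5 (.step 9 249 2 (.step 1 250 0 (.step 0 252 253 (.step 0 254 228 (.step 1 251 29 (.step 7 256 5 (.step 0 225 257 (.step 0 246 257 (.step 0 248 257 (.step 0 255 257 (.step 0 237 257 (.step 1 258 21 (.step 1 259 21 (.step 1 263 24 (.step 9 263 8 (.step 0 266 17 (.step 1 264 26 (.step 8 264 7 (.step 0 260 269 (.step 0 261 269 (.step 0 262 269 (.crule [265,268] 46 (.step 5 270 9 (.step 4 273 10 (.step 1 274 41 (.step 1 275 41 (.step 1 276 34 (.step 0 271 278 (.step 7 276 9 (.step 0 272 280 (.step 6 277 10 (.step 0 282 267 (.step 0 279 282 (.step 0 284 267 (.step 1 281 33 (.step 10 285 4 (.step 1 286 34 (.step 0 176 288 (.step 0 289 283 (.step 1 287 12 (.step 4 290 4 (.step 0 292 291 (.contra 293)))))))))))))))))))))))))))))))))))))))))))))))))))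

def ce_19 : CertW :=
  (.step 1 163 29 (.step 0 87 184 (.step 3 163 9 (.step 0 4 186 (.step 0 187 125 (.step 0 18 186 (.step 0 189 110 (.crule [165,161] 29 (.crule [23,174] 13 (.step 1 178 17 (.step 2 180 0 (.step 4 183 4 (.step 0 195 68 (.crule [182,183] 23 (.step 1 184 16 (.step 0 105 198 (.step 8 185 7 (.step 0 200 199 (.step 0 200 110 (.step 1 188 19 (.step 1 190 17 (.step 4 191 4 (.step 1 192 9 (.step 1 193 2 (.step 0 150 207 (.step 0 151 207 (.step 1 196 13 (.step 5 197 2 (.step 0 160 211 (.crule [194,197] 1 (.step 0 213 65 (.step 0 211 213 (.step 0 215 65 (.step 0 212 213 (.step 0 217 65 (.step 5 201 5 (.step 1 203 10 (.step 1 204 20 (.step 0 221 216 (.step 1 205 13 (.step 8 206 0 (.step 0 222 224 (.step 0 208 224 (.step 0 209 224 (.step 0 214 224 (.step 0 218 224 (.step 1 210 16 (.step 0 202 230 (.step 1 219 9 (.step 1 220 9 (.step 1 220 27 (.step 6 223 4 (.step 0 170 235 (.step 0 236 227 (.step 0 171 235 (.step 0 238 227 (.step 7 232 5 (.step 0 240 231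 (.step 0 240 202 (.step 1 233 20 ce_18))))))))))))))))))))))))))))))))))))))))))))))))))))))))))))

def ce_20 : CertW :=
  (.step 0 158 88 (.step 1 158 20 (.step 1 158 24 (.step 1 158 26 (.step 0 162 68 (.step 1 158 28 (.step 0 164 86 (.step 1 158 32 (.step 1 158 34 (.step 0 167 107 (.step 0 167 112 (.step 9 158 6 (.step 0 166 170 (.step 8 159 7 (.step 0 94 172 (.step 0 173 168 (.step 0 94 172 (.step 0 175 167 (.step 0 117 172 (.step 0 177 168 (.step 0 139 172 (.step 0 179 169 (.step 0 95 172 (.step 0 181 169 (.split [20,25,40] [18,25,40] ce_19 (.crule [183,127] 30 (.step 0 184 162 (.contra 185))))))))))))))))))))))))))))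

def ce_21 : CertW :=
  (.step 1 230 21 (.step 1 232 29 (.step 1 234 11 (.step 1 235 10 (.step 9 235 1 (.step 0 27 241 (.step 1 236 4 (.step 0 242 243 (.step 0 244 221 (.step 1 236 10 (.step 0 246 143 (.step 1 237 18 (.step 0 248 163 (.step 1 245 17 (.crule [240,247] 7 (.step 0 242 251 (.step 1 250 8 (.step 1 250 20 (.step 0 254 214 (.step 1 253 25 (.step 0 256 239 (.step 0 256 238 (.step 5 255 5 (.crule [23,255] 13 (.step 6 257 3 (.step 9 258 8 (.step 0 262 261 (.step 1 259 29 (.step 1 260 11 (.step 1 264 36 (.step 0 249 266 (.step 0 267 263 (.step 8 265 0 (.step 0 269 252 (.step 1 268 19 (.step 1 270 3 (.step 0 272 271 (.contra 273))))))))))))))))))))))))))))))))))))))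

def ce_22 : CertW :=
  (.step 0 87 176 (.step 0 154 176 (.step 0 178 168 (.step 0 154 176 (.step 1 176 2 (.step 0 155 181 (.step 0 182 171 (.step 1 176 10 (.step 0 156 184 (.step 0 185 172 (.step 0 156 184 (.step 0 187 173 (.step 1 176 12 (.step 0 157 189 (.step 0 190 174 (.step 1 176 20 (.step 0 192 169 (.step 0 192 73 (.step 0 192 175 (.step 9 176 7 (.step 0 196 193 (.step 0 196 194 (.step 0 196 195 (.step 0 196 192 (.step 6 177 9 (.step 0 12 201 (.step 0 202 197 (.step 0 12 201 (.step 0 204 198 (.step 0 12 201 (.step 0 206 199 (.step 0 12 201 (.step 0 208 200 (.step 9 179 1 (.step 0 124 210 (.step 7 180 4 (.step 0 145 212 (.step 0 213 161 (.step 0 145 212 (.step 0 215 166 (.crule [186,188] 7 (.step 0 211 217 (.step 0 218 183 (.crule [191,131] 7 (.step 0 220 134 (.step 5 205 4 (.step 1 219 17 (.step 1 222 13 (.step 1 223 20 (.step 0 225 216 (.step 7 224 4 (.step 0 227 203 (.step 0 227 207 (.step 0 227 209 (.step 5 226 5 (.step 0 231 66 (.crule [127,226] 13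 (.step 0 233 66 (.step 1 228 21 (.step 1 229 21 ce_21))))))))))))))))))))))))))))))))))))))))))))))))))))))))))))

def ce_23 : CertW :=
  (.step 0 104 188 (.step 0 189 182 (.step 0 161 188 (.step 4 188 5 (.step 0 192 85 (.step 1 190 35 (.step 1 193 9 (.step 1 194 20 (.step 0 191 196 (.step 1 195 20 (.step 0 191 198 (.step 0 199 145 (.step 5 197 4 (.step 11 200 4 (.step 1 201 13 (.step 0 203 202 (.contra 204)))))))))))))))))

def ce_24 : CertW :=
  (.step 3 186 0 (.split [16] [20] ce_23 (.crule [23,188] 13 (.step 0 189 187 (.contra 190)))))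

def ce_25 : CertW :=
  (.step 5 208 5 (.step 1 213 13 (.step 1 214 29 (.step 1 215 29 (.step 6 216 4 (.step 0 212 219 (.step 8 217 7 (.step 0 221 104 (.step 7 218 5 (.step 0 222 223 (.step 1 220 21 (.step 1 224 21 (.step 1 225 12 (.step 1 226 28 (.step 0 228 227 (.contra 229))))))))))))))))

def ce_26 : CertW :=
  (.step 0 207 23 (.crule [204,203] 11 (.step 0 209 202 (.step 9 206 2 (.step 0 211 210 (.step 4 207 4 (.split [28] [26] ce_25 (.crule [214,0] 31 (.step 0 215 207 (.contra 216))))))))))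

def ce_27 : CertW :=
  (.step 2 202 1 (.step 0 203 188 (.step 1 203 13 (.step 0 205 191 (.split [20] [18] ce_26 (.crule [207,23] 19 (.step 0 208 203 (.contra 209))))))))

def ce_28 : CertW :=
  (.step 2 213 1 (.step 0 196 214 (.step 0 214 195 (.step 1 214 13 (.step 0 190 217 (.step 5 215 2 (.step 0 192 219 (.crule [188,215] 1 (.step 0 221 187 (.step 0 221 193 (.step 0 219 221 (.step 0 224 187 (.step 0 220 221 (.step 0 226 193 (.crule [216,214] 11 (.step 0 194 228 (.step 0 229 213 (.step 1 217 18 (.step 0 230 231 (.step 9 218 2 (.step 0 233 222 (.step 0 233 232 (.step 0 233 223 (.step 5 225 5 (.step 5 227 5 (.step 4 235 4 (.step 1 237 29 (.step 1 238 29 (.step 0 212 241 (.step 1 239 27 (.step 7 240 5 (.step 0 234 244 (.step 0 37 244 (.step 7 241 5 (.step 0 236 247 (.step 9 242 8 (.step 0 249 52 (.step 1 243 34 (.step 1 245 21 (.step 0 243 252 (.step 1 248 21 (.step 1 250 37 (.step 8 253 7 (.step 0 246 256 (.step 0 257 251 (.step 1 254 34 (.step 0 258 259 (.step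 0 258 259 (.step 0 261 30 (.step 1 255 34 (.step 0 260 263 (.step 4 262 10 (.step 10 264 10 (.step 1 265 41 (.step 0 267 266 (.contra 268))))))))))))))))))))))))))))))))))))))))))))))))))))))))

def ce_29 : CertW :=
  (.step 0 181 297 (.step 0 300 269 (.step 1 295 24 (.step 7 295 11 (.step 0 291 303 (.step 1 296 41 (.step 3 296 9 (.step 0 238 306 (.step 0 307 125 (.step 1 301 21 (.step 3 302 11 (.step 1 304 37 (.step 1 305 26 (.step 1 308 19 (.step 1 309 36 (.step 0 299 314 (.step 0 315 273 (.step 1 311 34 (.step 3 312 9 (.step 0 310 318 (.step 1 313 34 (.step 1 316 3 (.step 0 313 321 (.step 0 322 280 (.step 4 319 10 (.step 1 321 34 (.step 0 320 325 (.step 0 326 317 (.step 8 323 7 (.step 0 271 328 (.step 0 329 327 (.step 1 324 29 (.step 10 330 10 (.step 0 332 331 (.contra 333)))))))))))))))))))))))))))))))))))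

def ce_30 : CertW :=
  (.step 3 239 2 (.step 0 224 240 (.step 1 240 9 (.crule [241,240] 1 (.step 0 239 243 (.step 0 244 223 (.crule [224,241] 7 (.step 0 233 246 (.step 1 242 12 (.step 1 242 20 (.step 0 249 245 (.step 0 192 249 (.step 9 242 2 (.step 0 249 252 (.step 0 251 252 (.crule [188,248] 1 (.step 0 253 255 (.step 0 256 193 (.step 0 252 255 (.step 0 258 193 (.step 0 254 255 (.step 0 260 193 (.step 5 250 5 (.step 5 261 5 (.step 1 262 29 (.step 0 234 264 (.step 1 263 29 (.step 0 212 266 (.step 7 264 5 (.step 0 104 268 (.step 0 245 268 (.step 0 41 268 (.step 9 265 8 (.step 0 272 247 (.step 7 266 5 (.step 0 257 274 (.step 0 259 274 (.step 9 267 8 (.step 0 277 17 (.step 0 277 19 (.step 1 270 21 (.step 1 275 21 (.step 1 276 21 (.step 1 281 36 (.step 0 5 283 (.step 0 284 279 (.step 0 48 283 (.step 0 286 279 (.step 0 163 283 (.step 0 288 278 (.step 1 282 36 (.step 0 290 279 (.step 5 285 11 (.step 1 287 33 (.step 1 289 19 (.step 1 292 41 (.step 1 293 24 (.step 1 294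 34 (.step 0 185 297 (.step 0 298 103 ce_29))))))))))))))))))))))))))))))))))))))))))))))))))))))))))))

def ce_31 : CertW :=
  (.step 0 267 241 (.step 3 267 5 (.step 0 249 269 (.step 1 268 29 (.step 1 270 17 (.step 0 272 271 (.step 1 271 36 (.step 1 272 36 (.step 0 275 274 (.step 9 273 8 (.step 0 276 277 (.step 0 278 266 (.step 0 277 266 (.step 0 277 252 (.step 5 279 11 (.step 1 282 41 (.step 1 283 24 (.step 7 283 11 (.step 0 280 285 (.step 3 284 11 (.step 1 286 37 (.step 1 288 20 (.step 1 288 28 (.step 1 288 40 (.step 3 290 10 (.step 0 292 287 (.step 3 291 10 (.step 0 294 281 (.step 4 293 9 (.step 1 295 35 (.step 1 296 27 (.step 0 288 298 (.step 1 297 20 (.step 1 297 28 (.step 0 301 178 (.step 9 299 7 (.step 0 264 303 (.step 0 304 289 (.step 0 264 303 (.step 0 306 300 (.step 1 302 9 (.step 1 302 41 (.step 5 307 4 (.step 1 308 20 (.step 0 311 145 (.step 1 309 20 (.step 0 305 313 (.step 0 314 312 (.step 1 310 13 (.step 11 315 4 (.step 0 317 316 (.contra 318))))))))))))))))))))))))))))))))))))))))))))))))))))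

def ce_32 : CertW :=
  (.step 2 292 8 (.step 0 293 236 (.step 2 294 5 (.step 0 291 295 (.step 0 296 280 (.step 0 291 295 (.step 0 298 7 (.step 11 297 4 (.step 5 299 4 (.step 1 300 12 (.step 0 302 301 (.contra 303))))))))))))

def ce_33 : CertW :=
  (.step 3 293 8 (.step 1 294 29 (.step 9 295 8 (.step 0 296 284 (.step 1 297 37 (.step 0 298 260 (.step 1 298 20 (.step 0 300 281 (.step 0 300 286 (.step 9 299 7 (.step 0 264 303 (.step 0 304 301 (.step 0 264 303 (.step 0 306 302 (.step 11 305 4 (.step 5 307 4 (.step 1 308 12 (.step 0 310 309 (.contra 311)))))))))))))))))))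

def ce_34 : CertW :=
  (.step 2 293 8 (.step 0 294 236 (.step 2 295 5 (.step 0 291 296 (.step 0 297 280 (.step 0 291 296 (.step 0 299 7 (.step 11 298 4 (.step 5 300 4 (.step 1 301 12 (.step 0 303 302 (.contra 304))))))))))))

def ce_35 : CertW :=
  (.split [36,25,8] [16,25,8] ce_33 ce_34)

def ce_36 : CertW :=
  (.step 0 268 254 (.step 1 269 9 (.step 1 270 12 (.step 0 271 144 (.step 1 272 9 (.step 1 272 25 (.step 1 272 27 (.step 1 273 16 (.step 0 37 276 (.step 0 277 184 (.step 1 273 20 (.step 0 279 146 (.step 0 279 145 (.step 1 274 32 (.step 0 266 282 (.step 0 283 48 (.step 1 275 20 (.step 0 262 285 (.step 4 278 10 (.step 1 287 41 (.step 1 288 36 (.step 0 53 289 (.step 0 290 37 (.split [16,25,8] [36,25,8] ce_32 ce_35))))))))))))))))))))))))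

def ce_37 : CertW :=
  (.step 0 267 254 (.step 0 268 241 (.step 1 269 9 (.step 3 268 5 (.step 0 249 272 (.step 1 270 29 (.step 1 271 12 (.step 0 275 144 (.step 1 273 17 (.step 0 277 274 (.step 1 276 9 (.step 1 276 25 (.step 1 276 27 (.step 9 278 8 (.step 0 282 266 (.step 1 279 20 (.step 0 284 145 (.step 1 280 32 (.step 0 283 286 (.step 0 287 48 (.step 1 281 20 (.step 0 262 289 (.step 1 288 37 (.step 0 291 260 (.step 1 291 20 (.step 0 293 285 (.step 0 293 290 (.step 9 292 7 (.step 0 264 296 (.step 0 297 294 (.step 0 264 296 (.step 0 299 295 (.step 11 298 4 (.step 5 300 4 (.step 1 301 12 (.step 0 303 302 (.contra 304)))))))))))))))))))))))))))))))))))))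

def ce_38 : CertW :=
  (.split [8,13,8] [28,13,8] ce_36 ce_37)

def ce_39 : CertW :=
  (.step 2 240 2 (.step 1 241 9 (.crule [241,224] 9 (.step 0 211 243 (.step 0 244 240 (.step 0 227 243 (.step 0 246 240 (.step 0 233 243 (.step 0 248 240 (.step 1 242 20 (.step 0 249 250 (.step 0 251 182 (.step 1 242 28 (.step 0 253 85 (.step 5 247 4 (.step 1 255 27 (.step 7 256 4 (.step 0 245 257 (.step 0 249 257 (.step 1 258 19 (.step 0 234 260 (.step 1 260 20 (.step 1 260 34 (.step 0 162 263 (.step 8 261 6 (.step 0 259 265 (.split [28,13,8] [8,13,8] ce_31 ce_38)))))))))))))))))))))))))))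

def ce_40 : CertW :=
  (.step 1 299 19 (.step 0 301 300 (.contra 302)))

def ce_41 : CertW :=
  (.step 2 239 2 (.step 3 240 2 (.step 0 224 242 (.step 1 241 9 (.crule [241,224] 9 (.step 0 227 245 (.step 0 246 239 (.step 0 233 245 (.step 0 248 239 (.step 1 242 9 (.step 0 234 250 (.step 4 243 0 (.crule [243,242] 1 (.step 0 240 253 (.step 0 240 253 (.step 0 255 252 (.step 1 244 2 (.step 0 254 257 (.step 0 258 193 (.step 1 244 20 (.step 0 249 260 (.step 0 261 182 (.step 5 247 4 (.step 1 250 20 (.step 0 264 259 (.step 0 192 264 (.step 0 266 259 (.step 1 250 28 (.step 5 256 5 (.step 0 268 269 (.step 0 270 241 (.step 1 263 27 (.step 0 251 272 (.step 5 267 5 (.step 1 271 29 (.step 0 234 275 (.step 7 272 4 (.step 0 249 277 (.step 8 273 6 (.step 0 278 279 (.step 1 274 29 (.step 0 212 281 (.step 1 275 36 (.step 0 48 283 (.step 9 276 8 (.step 0 284 285 (.step 0 286 280 (.step 7 281 5 (.step 0 265 288 (.step 9 282 8 (.step 0 290 17 (.step 1 287 33 (.step 1 289 21 (.step 1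 292 16 (.step 0 110 294 (.step 0 295 262 (.step 1 293 36 (.step 0 163 297 (.step 0 298 291 (.step 1 296 35 ce_40))))))))))))))))))))))))))))))))))))))))))))))))))))))))))))

def ce_42 : CertW :=
  (.split [0,13,8] [20,13,8] ce_39 ce_41)

def ce_43 : CertW :=
  (.step 3 214 1 (.step 1 215 13 (.crule [215,195] 7 (.step 0 214 217 (.step 0 218 199 (.step 0 214 217 (.step 0 220 200 (.step 1 216 2 (.step 0 222 198 (.step 1 216 10 (.step 1 216 18 (.step 9 216 1 (.step 0 225 226 (.step 4 219 3 (.step 1 221 19 (.step 1 228 25 (.step 1 229 10 (.step 6 230 3 (.step 0 232 226 (.step 1 231 25 (.step 1 231 27 (.step 1 234 28 (.step 1 235 18 (.step 0 237 12 (.split [20,13,8] [0,13,8] ce_30 ce_42)))))))))))))))))))))))))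

def ce_44 : CertW :=
  (.step 1 264 34 (.step 0 272 275 (.step 1 265 34 (.step 0 276 277 (.step 4 274 10 (.step 10 278 10 (.step 1 279 41 (.step 0 281 280 (.contra 282)))))))))

def ce_45 : CertW :=
  (.step 2 214 1 (.step 0 196 215 (.step 0 215 195 (.step 3 213 1 (.step 1 215 13 (.step 0 190 219 (.step 5 216 2 (.step 0 192 221 (.crule [188,216] 1 (.step 0 223 193 (.step 0 221 223 (.step 0 225 187 (.step 0 222 223 (.step 0 227 193 (.step 5 217 2 (.crule [195,217] 1 (.step 0 229 230 (.step 0 231 198 (.crule [217,215] 11 (.step 0 229 233 (.step 0 234 214 (.crule [218,195] 7 (.step 0 213 236 (.step 0 237 200 (.step 1 219 20 (.step 9 220 2 (.step 0 239 240 (.step 0 241 224 (.step 5 226 5 (.step 5 228 5 (.step 4 235 4 (.step 0 218 245 (.step 1 238 19 (.step 1 243 29 (.step 1 244 29 (.step 0 212 249 (.step 1 246 27 (.step 1 247 10 (.step 7 248 5 (.step 0 232 253 (.step 0 37 253 (.step 7 249 5 (.step 0 242 256 (.step 9 250 8 (.step 0 258 52 (.step 1 251 34 (.step 1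 252 29 (.step 1 254 21 (.step 0 251 262 (.step 1 257 21 (.step 1 259 37 (.step 1 261 34 (.step 1 262 34 (.step 0 260 267 (.step 0 268 266 (.step 8 263 7 (.step 0 255 270 (.step 0 271 260 (.step 0 255 270 (.step 0 273 269 ce_44))))))))))))))))))))))))))))))))))))))))))))))))))))))))))))

def ce_46 : CertW :=
  (.split [18,11,8] [4,11,8] ce_43 ce_45)

def ce_47 : CertW :=
  (.step 0 17 203 (.step 3 203 1 (.step 1 205 13 (.crule [205,188] 7 (.step 0 204 207 (.step 0 208 193 (.step 9 206 1 (.step 0 210 201 (.step 1 209 17 (.split [4,11,8] [18,11,8] ce_28 ce_46))))))))))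

def ce_48 : CertW :=
  (.step 1 218 29 (.step 1 219 13 (.step 1 220 29 (.step 7 221 5 (.step 0 104 224 (.step 6 222 4 (.step 0 217 226 (.step 8 223 7 (.step 0 228 225 (.step 1 227 21 (.step 1 229 21 (.step 1 230 12 (.step 1 231 28 (.step 0 233 232 (.contra 234)))))))))))))))

def ce_49 : CertW :=
  (.step 2 203 1 (.step 0 204 188 (.step 1 204 13 (.step 0 206 191 (.step 5 205 2 (.crule [188,205] 1 (.step 0 208 209 (.step 0 210 187 (.crule [205,204] 11 (.step 0 212 203 (.step 0 208 212 (.step 0 214 203 (.step 9 207 2 (.step 0 216 213 (.step 5 211 5 (.step 4 215 4 (.split [28] [26] ce_48 (.crule [220,0] 31 (.step 0 221 215 (.contra 222))))))))))))))))))))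

def ce_50 : CertW :=
  (.split [18] [4] ce_47 ce_49)

def ce_51 : CertW :=
  (.step 2 187 0 (.step 1 188 9 (.step 1 188 11 (.step 1 188 13 (.step 1 189 20 (.step 8 189 0 (.step 1 190 0 (.step 1 190 8 (.step 1 190 12 (.step 1 190 16 (.step 8 190 0 (.step 0 198 197 (.step 0 198 27 (.step 1 191 4 (.split [4] [18] ce_27 ce_50)))))))))))))))

def ce_52 : CertW :=
  (.step 0 190 192 (.step 1 191 18 (.step 1 192 13 (.step 0 191 195 (.step 4 193 2 (.crule [190,193] 3 (.step 0 187 198 (.step 0 199 197 (.step 0 188 198 (.step 0 189 198 (.step 1 195 18 (.step 0 194 203 (.step 0 204 201 (.step 8 196 2 (.step 0 205 206 (.step 0 202 206 (.step 4 200 5 (.step 0 209 85 (.step 5 207 4 (.step 1 210 27 (.step 1 211 27 (.step 1 212 18 (.step 0 214 208 (.step 7 213 4 (.step 0 216 215 (.contra 217))))))))))))))))))))))))))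

def ce_53 : CertW :=
  (.step 0 23 187 (.step 0 161 187 (.step 3 187 0 (.step 1 190 13 (.split [10] [12] ce_52 (.crule [192,190] 16 (.step 0 193 23 (.contra 194))))))))

def ce_54 : CertW :=
  (.split [2] [16] ce_51 ce_53)

def ce_55 : CertW :=
  (.step 1 177 28 (.step 1 177 34 (.step 0 179 75 (.step 8 177 7 (.step 0 94 181 (.step 0 117 181 (.step 0 183 180 (.step 0 137 181 (.split [16] [2] ce_24 ce_54)))))))))

def ce_56 : CertW :=
  (.step 1 231 21 (.step 1 233 29 (.step 1 235 11 (.step 1 236 10 (.step 9 236 1 (.step 0 27 242 (.step 1 237 4 (.step 0 243 244 (.step 0 245 222 (.step 1 237 10 (.step 0 247 143 (.step 1 238 18 (.step 0 249 163 (.step 1 246 17 (.crule [241,248] 7 (.step 0 243 252 (.step 1 251 8 (.step 1 251 20 (.step 0 255 215 (.step 1 254 25 (.step 0 257 240 (.step 0 257 239 (.step 5 256 5 (.crule [23,256] 13 (.step 6 258 3 (.step 9 259 8 (.step 0 263 262 (.step 1 260 29 (.step 1 261 11 (.step 1 265 36 (.step 0 250 267 (.step 0 268 264 (.step 8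 266 0 (.step 0 270 253 (.step 1 269 19 (.step 1 271 3 (.step 0 273 272 (.contra 274))))))))))))))))))))))))))))))))))))))

def ce_57 : CertW :=
  (.step 0 87 177 (.step 0 154 177 (.step 0 179 168 (.step 0 154 177 (.step 1 177 2 (.step 0 155 182 (.step 0 183 171 (.step 1 177 10 (.step 0 156 185 (.step 0 186 172 (.step 0 156 185 (.step 0 188 173 (.step 1 177 12 (.step 0 157 190 (.step 0 191 174 (.step 1 177 20 (.step 0 193 169 (.step 0 193 73 (.step 0 193 175 (.step 9 177 7 (.step 0 197 194 (.step 0 197 195 (.step 0 197 196 (.step 0 197 193 (.step 6 178 9 (.step 0 12 202 (.step 0 203 198 (.step 0 12 202 (.step 0 205 199 (.step 0 12 202 (.step 0 207 200 (.step 0 12 202 (.step 0 209 201 (.step 9 180 1 (.step 0 124 211 (.step 7 181 4 (.step 0 145 213 (.step 0 214 161 (.step 0 145 213 (.step 0 216 166 (.crule [187,189] 7 (.step 0 212 218 (.step 0 219 184 (.crule [192,131] 7 (.step 0 221 134 (.step 5 206 4 (.step 1 220 17 (.step 1 223 13 (.step 1 224 20 (.step 0 226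 217 (.step 7 225 4 (.step 0 228 204 (.step 0 228 208 (.step 0 228 210 (.step 5 227 5 (.step 0 232 66 (.crule [127,227] 13 (.step 0 234 66 (.step 1 229 21 (.step 1 230 21 ce_56))))))))))))))))))))))))))))))))))))))))))))))))))))))))))))

def ce_58 : CertW :=
  (.split [27,40] [29,40] ce_55 ce_57)

def ce_59 : CertW :=
  (.step 8 159 6 (.step 0 160 49 (.step 0 160 90 (.step 0 160 48 (.step 0 160 50 (.step 0 160 126 (.step 0 160 111 (.step 1 164 19 (.step 1 165 19 (.step 1 167 20 (.step 1 168 2 (.step 0 170 134 (.step 1 168 10 (.step 0 172 142 (.step 1 168 12 (.step 1 168 20 (.split [29,40] [27,40] ce_22 ce_58)))))))))))))))))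

def ce_60 : CertW :=
  (.step 7 276 9 (.step 0 272 280 (.step 6 277 10 (.step 0 282 267 (.step 0 279 282 (.step 0 284 267 (.step 1 281 33 (.step 10 285 4 (.step 1 286 34 (.step 0 176 288 (.step 0 289 283 (.step 1 287 12 (.step 4 290 4 (.step 0 292 291 (.contra 293)))))))))))))))

def ce_61 : CertW :=
  (.step 0 219 65 (.step 0 218 65 (.step 0 217 218 (.step 0 222 65 (.step 8 205 0 (.step 0 220 224 (.step 0 207 224 (.step 0 208 224 (.step 0 221 224 (.step 0 223 224 (.step 1 209 9 (.step 1 210 9 (.step 1 210 27 (.step 1 212 16 (.step 0 198 233 (.step 6 214 4 (.step 0 170 235 (.step 0 236 227 (.step 0 171 235 (.step 0 238 227 (.step 7 230 5 (.step 0 240 234 (.step 0 240 198 (.step 1 231 20 (.step 0 243 226 (.step 1 232 20 (.step 0 245 229 (.step 1 232 32 (.step 0 247 239 (.step 1 241 17 (.step 1 242 17 (.step 5 244 5 (.step 9 249 2 (.step 1 250 0 (.step 0 252 253 (.step 0 254 228 (.step 1 251 29 (.step 7 256 5 (.step 0 225 257 (.step 0 246 257 (.step 0 248 257 (.step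 0 255 257 (.step 0 237 257 (.step 1 258 21 (.step 1 259 21 (.step 1 263 24 (.step 9 263 8 (.step 0 266 17 (.step 1 264 26 (.step 8 264 7 (.step 0 260 269 (.step 0 261 269 (.step 0 262 269 (.crule [265,268] 46 (.step 5 270 9 (.step 4 273 10 (.step 1 274 41 (.step 1 275 41 (.step 1 276 34 (.step 0 271 278 ce_60))))))))))))))))))))))))))))))))))))))))))))))))))))))))))))

def ce_62 : CertW :=
  (.step 0 159 88 (.step 1 158 26 (.step 1 159 20 (.step 1 159 26 (.step 0 163 68 (.step 0 86 163 (.step 1 159 32 (.step 1 159 34 (.step 0 167 107 (.step 0 167 112 (.step 9 159 6 (.step 0 166 170 (.step 8 160 7 (.step 0 94 172 (.step 0 173 168 (.step 0 94 172 (.step 0 175 167 (.step 0 117 172 (.step 0 177 168 (.step 0 139 172 (.step 0 179 169 (.step 0 95 172 (.step 0 181 169 (.step 1 164 29 (.step 0 87 183 (.step 3 164 9 (.step 0 4 185 (.step 0 186 125 (.step 0 18 185 (.step 0 188 110 (.crule [165,163] 29 (.crule [23,174] 13 (.step 1 178 17 (.step 2 180 0 (.step 1 183 16 (.step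 0 105 194 (.step 8 184 7 (.step 0 196 195 (.step 0 196 110 (.step 1 187 19 (.step 1 189 17 (.step 4 190 4 (.step 0 201 68 (.step 0 201 161 (.crule [182,190] 23 (.step 1 191 9 (.step 1 192 2 (.step 0 150 206 (.step 0 151 206 (.step 5 197 5 (.step 1 199 10 (.step 1 200 20 (.step 1 202 13 (.step 1 203 13 (.step 0 159 213 (.step 5 204 2 (.step 0 211 215 (.step 0 162 215 (.crule [193,204] 1 (.step 0 216 218 ce_61))))))))))))))))))))))))))))))))))))))))))))))))))))))))))))

def ce_63 : CertW :=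
  (.split [25,40] [27,40] ce_59 ce_62)

def ce_64 : CertW :=
  (.step 1 141 8 (.step 0 142 63 (.step 1 141 12 (.step 1 141 20 (.step 0 145 64 (.step 9 141 2 (.step 0 145 147 (.crule [132,144] 1 (.step 0 148 149 (.step 0 147 149 (.step 0 147 149 (.step 0 152 136 (.step 1 153 21 (.step 1 154 2 (.step 1 154 10 (.step 1 154 12 (.split [27,40] [25,40] ce_20 ce_63)))))))))))))))))

def ce_65 : CertW :=
  (.step 0 141 129 (.step 1 140 12 (.step 1 141 0 (.step 1 141 8 (.step 1 141 10 (.step 0 146 132 (.step 1 141 20 (.step 0 148 116 (.step 8 141 2 (.step 0 144 150 (.step 0 151 149 (.step 0 144 150 (.step 0 153 148 (.step 0 144 150 (.step 9 142 1 (.step 0 133 156 (.step 0 124 156 (.step 0 126 156 (.crule [145,147] 9 (.step 0 157 160 (.step 0 161 154 (.step 0 158 160 (.step 0 163 152 (.step 0 159 160 (.step 0 165 155 (.step 5 162 4 (.step 0 167 143 (.step 1 164 17 (.step 1 168 27 (.step 0 141 170 (.step 0 169 170 (.step 7 171 4 (.step 0 166 173 (.step 8 172 6 (.step 0 175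 174 (.contra 176))))))))))))))))))))))))))))))))))))

def ce_66 : CertW :=
  (.split [9,40] [13,40] ce_64 ce_65)

def ce_67 : CertW :=
  (.step 1 129 2 (.step 1 129 8 (.step 1 129 10 (.step 1 129 18 (.step 8 129 0 (.step 0 130 134 (.step 0 135 117 (.step 0 134 117 (.step 0 122 134 (.step 0 138 117 (.split [13,40] [9,40] ce_17 ce_66)))))))))))

def ce_68 : CertW :=
  (.step 1 129 8 (.step 1 129 10 (.step 1 129 12 (.split [40] [12,11,40] (.step 0 133 132 (.split [12,9,40] [40] (.step 0 135 134 (.contra 136)) (.crule [131,135] 14 (.step 0 136 116 (.contra 137))))) (.crule [133,130] 16 (.step 0 134 121 (.contra 135)))))))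

def ce_69 : CertW :=
  (.split [9,40] [11,40] ce_67 ce_68)

def ce_70 : CertW :=
  (.step 1 119 25 (.step 2 119 3 (.step 1 120 2 (.step 1 120 10 (.step 6 120 3 (.step 0 110 124 (.step 0 111 124 (.step 2 123 3 (.split [11,40] [9,40] ce_16 ce_69)))))))))

def ce_71 : CertW :=
  (.step 1 118 25 (.step 1 119 25 (.step 3 119 3 (.step 1 120 16 (.step 0 110 123 (.step 0 124 122 (.step 0 111 123 (.step 0 126 122 (.step 1 121 18 (.step 0 125 128 (.step 0 129 47 (.step 0 127 128 (.step 4 130 9 (.step 0 68 132 (.step 3 131 6 (.step 0 134 133 (.contra 135)))))))))))))))))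

def ce_72 : CertW :=
  (.split [40] [24,11,40] ce_70 ce_71)

def ce_73 : CertW :=
  (.step 1 114 29 (.step 3 114 5 (.step 7 115 5 (.split [24,11,40] [40] ce_15 ce_72))))

def ce_74 : CertW :=
  (.step 1 114 29 (.step 2 114 5 (.step 1 113 29 (.step 3 113 5 (.step 1 115 8 (.step 1 115 10 (.step 0 120 98 (.step 1 115 16 (.step 0 122 116 (.step 1 115 20 (.step 0 124 118 (.step 1 115 26 (.step 0 99 126 (.step 1 117 10 (.step 1 117 16 (.step 0 125 129 (.step 1 117 18 (.step 2 121 3 (.step 0 131 132 (.step 0 133 122 (.step 0 131 132 (.step 0 135 123 (.crule [132,130] 13 (.step 0 91 137 (.step 0 138 119 (.step 0 128 137 (.step 0 140 119 (.crule [136,134] 19 (.crule [116,136] 21 (.crule [116,136] 32 (.step 0 127 144 (.step 0 145 113 (.step 0 144 113 (.step 1 139 11 (.step 0 58 148 (.step 1 141 11 (.step 1 143 13 (.step 0 151 150 (.crule [143,142] 9 (.step 1 146 27 (.step 0 58 154 (.step 1 147 27 (.step 0 151 156 (.step 6 149 3 (.step 0 111 158 (.step 1 151 4 (.step 0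 160 153 (.step 8 151 2 (.step 0 161 162 (.step 9 152 1 (.step 0 159 164 (.step 0 165 163 (.step 8 155 6 (.step 0 167 166 (.step 7 157 4 (.step 0 169 168 (.contra 170)))))))))))))))))))))))))))))))))))))))))))))))))))))))))

def ce_75 : CertW :=
  (.split [28,9,40] [40] ce_73 ce_74)

def ce_76 : CertW :=
  (.step 0 69 85 (.step 1 85 29 (.step 0 58 87 (.step 2 85 10 (.step 0 48 89 (.step 1 87 10 (.step 1 87 16 (.step 0 77 92 (.step 1 87 20 (.step 0 67 94 (.step 1 87 24 (.step 0 55 96 (.step 0 82 96 (.step 1 87 26 (.step 0 68 99 (.step 1 87 36 (.step 0 48 101 (.step 6 87 10 (.step 0 103 77 (.step 0 103 93 (.step 0 70 103 (.step 0 106 77 (.step 0 70 103 (.step 9 88 8 (.step 0 103 109 (.step 0 102 109 (.step 0 108 109 (.split [40] [28,9,40] ce_14 ce_75))))))))))))))))))))))))))))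

def ce_77 : CertW :=
  (.step 9 142 1 (.step 0 138 146 (.step 1 143 4 (.step 0 147 148 (.step 1 143 12 (.step 0 131 150 (.step 1 144 4 (.step 0 152 24 (.step 1 144 12 (.step 0 154 25 (.step 9 145 1 (.step 0 27 156 (.step 0 157 152 (.step 0 27 156 (.step 0 159 153 (.crule [155,80] 7 (.step 0 160 161 (.step 0 162 83 (.step 1 163 17 (.step 0 144 164 (.step 1 164 0 (.step 1 164 8 (.step 0 167 154 (.step 8 165 2 (.step 0 166 169 (.step 0 170 140 (.step 1 167 13 (.step 0 172 144 (.crule [168,151] 9 (.step 0 158 174 (.step 0 175 171 (.step 0 149 174 (.step 8 173 2 (.step 0 177 178 (.step 4 176 5 (.step 0 180 84 (.step 1 179 21 (.step 1 181 13 (.step 0 183 182 (.contra 184))))))))))))))))))))))))))))))))))))))))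

def ce_78 : CertW :=
  (.step 1 85 29 (.step 3 85 10 (.step 0 87 61 (.step 1 84 29 (.step 0 58 89 (.step 2 84 10 (.step 0 48 91 (.step 1 86 20 (.step 0 93 7 (.step 4 88 9 (.step 0 95 85 (.step 0 68 95 (.step 1 89 36 (.step 0 48 98 (.step 9 90 8 (.step 0 99 100 (.step 1 95 25 (.step 1 95 27 (.step 0 58 103 (.step 0 86 103 (.step 5 96 7 (.step 0 92 106 (.step 4 97 6 (.step 0 108 101 (.step 1 102 32 (.step 0 19 110 (.step 0 111 101 (.step 1 103 20 (.step 0 107 113 (.step 6 103 9 (.step 0 12 115 (.step 8 104 6 (.step 0 117 107 (.step 0 117 101 (.step 0 117 114 (.step 9 105 7 (.step 0 116 121 (.step 0 122 93 (.step 0 116 121 (.step 0 124 94 (.step 4 109 3 (.step 1 112 17 (.step 5 120 4 (.step 5 125 4 (.step 1 126 11 (.step 1 127 24 (.step 1 128 13 (.step 1 129 13 (.step 6 130 3 (.step 0 119 134 (.step 7 132 4 (.step 0 136 118 (.step 0 136 135 (.step 7 133 4 (.step 0 139 123 (.step 1 135 19 (.step 0 132 141 (.step 1 137 21 (.step 1 140 21 (.step 0 144 20 ce_77))))))))))))))))))))))))))))))))))))))))))))))))))))))))))))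

def ce_79 : CertW :=
  (.split [28] [40] ce_76 ce_78)

def ce_80 : CertW :=
  (.step 1 79 8 (.step 1 79 10 (.step 0 62 81 (.step 8 79 0 (.split [40] [28] ce_12 ce_79)))))

def ce_81 : CertW :=
  (.step 0 92 83 (.step 1 92 13 (.step 0 94 79 (.step 4 93 2 (.crule [82,93] 3 (.step 0 87 97 (.step 0 87 97 (.step 0 99 96 (.step 0 89 97 (.step 0 91 97 (.step 1 94 16 (.step 0 103 101 (.step 1 94 18 (.step 0 105 102 (.step 8 95 2 (.step 0 98 107 (.step 0 104 107 (.step 0 106 107 (.step 4 100 5 (.step 5 110 4 (.crule [109,110] 32 (.step 1 111 29 (.step 1 112 27 (.step 5 113 7 (.step 6 114 5 (.step 0 34 117 (.step 0 118 108 (.step 0 117 108 (.step 7 115 4 (.step 0 116 121 (.step 0 122 12 (.step 0 120 121 (.step 0 124 12 (.step 1 119 21 (.step 1 120 21 (.step 0 127 115 (.step 1 126 34 (.step 0 129 123 (.step 9 128 7 (.step 0 74 131 (.step 0 132 125 (.step 4 130 9 (.step 10 133 9 (.step 1 134 27 (.step 0 136 135 (.contra 137))))))))))))))))))))))))))))))))))))))))))))))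

def ce_82 : CertW :=
  (.step 1 79 2 (.step 1 79 8 (.step 1 79 10 (.step 1 79 12 (.step 1 79 16 (.step 0 31 84 (.step 9 79 0 (.step 0 86 80 (.step 0 84 86 (.step 0 88 80 (.step 0 85 86 (.step 0 90 80 (.split [24] [12,11,24] ce_81 (.crule [92,81] 16 (.step 0 93 31 (.contra 94))))))))))))))))

def ce_83 : CertW :=
  (.split [9,24] [11,24] ce_80 ce_82)

def ce_84 : CertW :=
  (.step 1 54 40 (.step 1 55 9 (.step 1 55 13 (.step 1 55 25 (.step 1 55 27 (.step 1 55 29 (.step 3 55 11 (.step 1 56 10 (.step 1 57 8 (.step 1 57 20 (.step 1 58 2 (.step 1 58 8 (.step 1 58 20 (.step 1 58 26 (.step 1 58 28 (.step 1 58 34 (.step 1 59 18 (.step 0 71 12 (.step 1 59 20 (.step 1 59 34 (.step 1 60 34 (.step 1 60 36 (.step 0 76 37 (.split [11,24] [9,24] ce_10 ce_83))))))))))))))))))))))))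

def ce_85 : CertW :=
  (.step 1 54 26 (.step 0 55 0 (.step 1 54 28 (.step 0 57 35 (.step 1 54 32 (.step 0 59 51 (.step 2 56 9 (.step 0 61 60 (.step 2 58 10 (.step 0 63 62 (.contra 64)))))))))))

def ce_86 : CertW :=
  (.step 1 33 20 (.step 1 33 28 (.step 1 33 36 (.step 9 33 8 (.step 0 36 37 (.step 0 36 37 (.step 0 39 27 (.step 0 13 37 (.crule [0,35] 36 (.step 5 42 11 (.step 1 43 25 (.step 1 43 41 (.step 1 44 18 (.step 0 46 4 (.step 7 44 11 (.step 0 48 38 (.step 0 48 40 (.step 7 45 11 (.step 0 18 51 (.step 0 12 51 (.split [] [41,24] ce_84 ce_85)))))))))))))))))))))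

def ce_87 : CertW :=
  (.step 0 144 119 (.step 0 124 143 (.step 0 146 119 (.crule [145,141] 2 (.step 0 118 148 (.step 3 147 0 (.step 0 150 149 (.contra 151))))))))

def ce_88 : CertW :=
  (.step 0 144 122 (.contra 145))

def ce_89 : CertW :=
  (.step 0 86 89 (.step 8 78 6 (.step 0 95 82 (.step 9 79 7 (.step 0 90 97 (.step 0 93 97 (.step 0 94 97 (.step 7 80 4 (.step 0 29 101 (.step 0 102 92 (.step 0 101 92 (.step 0 101 99 (.step 1 98 21 (.step 4 100 5 (.step 1 103 21 (.step 1 104 21 (.step 0 109 20 (.step 0 70 109 (.step 0 111 77 (.step 1 105 21 (.step 0 70 113 (.step 1 106 28 (.step 1 107 9 (.step 0 114 116 (.step 1 108 12 (.step 1 109 2 (.step 1 109 4 (.step 1 109 10 (.step 0 121 16 (.step 9 110 1 (.step 0 27 123 (.step 0 96 123 (.step 0 125 120 (.step 0 96 123 (.step 7 112 4 (.step 0 128 126 (.step 0 128 127 (.step 1 113 0 (.step 1 115 9 (.step 1 116 0 (.step 0 131 133 (.step 8 117 2 (.step 0 134 135 (.step 0 136 130 (.step 0 135 129 (.step 0 135 130 (.step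 1 132 0 (.step 0 140 138 (.step 0 140 139 (.split [4,13,24] [2,13,24] (.step 0 142 143 ce_87) (.crule [137,143] 8 ce_88)))))))))))))))))))))))))))))))))))))))))))))))))))

def ce_90 : CertW :=
  (.step 0 33 2 (.step 1 32 8 (.step 1 32 28 (.step 1 32 34 (.step 1 32 36 (.step 9 32 8 (.step 0 38 39 (.step 0 40 27 (.step 1 33 16 (.step 1 33 20 (.step 1 33 24 (.step 1 33 26 (.step 0 45 0 (.step 1 33 28 (.step 0 47 9 (.step 1 33 36 (.step 8 33 8 (.step 0 50 49 (.step 0 42 50 (.step 0 52 49 (.step 9 34 7 (.step 0 54 43 (.crule [0,36] 36 (.step 0 51 56 (.step 0 53 56 (.step 0 49 56 (.crule [44,46] 33 (.crule [44,46] 44 (.step 0 37 61 (.step 0 62 59 (.crule [48,8] 31 (.step 5 56 11 (.step 4 60 5 (.step 0 35 66 (.step 4 63 9 (.step 5 64 4 (.step 1 65 13 (.step 1 65 25 (.step 1 65 27 (.step 1 65 29 (.step 0 73 33 (.step 1 67 29 (.step 0 75 33 (.step 1 68 27 (.step 0 71 77 (.step 0 74 77 (.step 1 69 13 (.step 7 71 11 (.step 0 81 41 (.step 1 72 34 (.step 0 83 55 (.step 1 73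 16 (.step 0 85 58 (.step 6 76 5 (.step 0 87 57 (.step 6 77 9 (.step 0 88 89 (.step 0 12 89 (.step 0 91 84 (.step 0 12 89 ce_89))))))))))))))))))))))))))))))))))))))))))))))))))))))))))))

def ce_91 : CertW :=
  (.split [] [29,24] ce_86 ce_90)

def ce_92 : CertW :=
  (.step 1 15 24 (.step 6 15 3 (.step 0 17 4 (.step 0 17 6 (.step 1 16 11 (.step 1 16 13 (.step 1 16 29 (.step 2 16 3 (.step 1 20 4 (.step 1 20 12 (.step 1 20 24 (.step 6 20 3 (.step 1 21 4 (.step 1 21 20 (.step 1 22 34 (.step 2 26 3 (.split [29,24] [] ce_8 ce_91)))))))))))))))))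

def ce_93 : CertW :=
  (.step 0 83 92 (.step 1 67 24 (.step 0 46 96 (.step 0 97 18 (.step 1 67 26 (.step 0 47 99 (.step 0 100 19 (.step 8 67 8 (.step 0 22 102 (.step 0 103 45 (.step 0 78 102 (.step 0 105 45 (.step 6 69 5 (.step 0 107 87 (.step 0 107 95 (.step 0 107 89 (.step 9 71 7 (.step 0 111 108 (.step 0 111 109 (.step 0 111 110 (.step 4 72 9 (.step 5 93 4 (.step 1 94 21 (.crule [98,101] 44 (.step 4 114 9 (.step 1 115 41 (.step 1 116 27 (.step 0 117 121 (.step 5 118 10 (.step 1 119 41 (.step 6 120 9 (.step 0 125 112 (.step 7 121 4 (.step 0 113 127 (.step 9 122 7 (.step 0 129 106 (.step 1 123 41 (.step 1 124 34 (.step 0 132 128 (.step 1 126 33 (.step 7 131 10 (.step 0 104 135 (.step 0 136 133 (.step 0 130 135 (.step 1 137 19 (.step 0 134 139 (.step 1 138 35 (.step 0 141 140 (.contra 142)))))))))))))))))))))))))))))))))))))))))))))))))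

def ce_94 : CertW :=
  (.step 0 28 34 (.step 1 29 24 (.step 0 24 36 (.step 1 29 28 (.step 0 9 38 (.step 1 29 32 (.step 0 26 40 (.step 8 31 6 (.step 0 42 25 (.step 0 42 41 (.step 1 32 36 (.step 1 33 24 (.step 1 33 26 (.crule [34,22] 19 (.step 4 35 5 (.crule [28,35] 15 (.step 0 50 48 (.crule [28,35] 26 (.step 0 23 52 (.step 0 53 39 (.step 1 48 13 (.step 0 55 30 (.step 1 49 29 (.step 1 50 9 (.step 0 55 58 (.step 1 50 13 (.step 0 60 55 (.step 5 50 0 (.step 0 22 62 (.crule [50,51] 3 (.step 0 62 64 (.step 0 63 64 (.step 1 52 29 (.step 0 33 67 (.step 0 68 58 (.step 0 33 67 (.step 0 70 30 (.crule [54,37] 42 (.step 1 55 18 (.step 0 73 66 (.step 7 56 4 (.step 0 75 43 (.step 0 75 44 (.step 6 57 5 (.step 0 78 65 (.step 1 58 0 (.step 0 64 80 (.step 9 58 0 (.step 0 82 64 (.step 0 82 81 (.step 8 59 2 (.step 0 84 85 (.step 0 86 76 (.step 0 84 85 (.step 0 88 77 (.step 1 60 18 (.step 0 90 74 (.step 8 61 2 (.step 0 91 92 (.step 0 79 92 ce_93))))))))))))))))))))))))))))))))))))))))))))))))))))))))))))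

def ce_95 : CertW :=
  (.step 0 14 2 (.step 1 15 16 (.step 1 15 24 (.step 0 0 18 (.step 7 15 3 (.step 1 14 16 (.step 0 20 21 (.step 1 14 24 (.step 0 23 8 (.step 1 14 32 (.step 0 25 10 (.step 6 14 3 (.step 0 17 27 (.step 1 18 27 (.step 0 2 29 (.step 0 16 29 (.step 1 18 29 (.step 1 23 29 (.split [18] [20] ce_94 (.crule [34,28] 28 (.step 0 35 0 (.contra 36))))))))))))))))))))))

def ce_96 : CertW :=
  (.split [25,10] [] ce_92 ce_95)

def ce_97 : CertW :=
  (.step 1 0 25 (.step 1 0 27 (.step 1 0 29 (.step 4 0 6 (.step 1 1 36 (.step 8 1 6 (.step 1 2 20 (.step 1 2 24 (.step 1 2 28 (.step 1 2 32 (.step 1 2 34 (.step 8 2 6 (.step 1 3 36 (.split [] [25,10] ce_3 ce_96))))))))))))))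

theorem ct_ce : Ct false true [true, true, true, true] [(0, false), (1, true), (2, true), (3, true)]
    [⟨[2 * cd 3 1], [2 * cd 3 0], true⟩] :=
  ⟨ce_97, by decide +kernel⟩

def cc_0 : CertW :=
  (.step 5 116 1 (.crule [116,74] 7 (.step 0 122 123 (.step 0 124 77 (.step 0 122 123 (.step 0 126 78 (.crule [115,117] 9 (.step 0 128 114 (.step 1 118 4 (.step 0 130 129 (.step 0 130 128 (.step 8 118 2 (.step 0 132 133 (.step 9 119 1 (.step 0 135 131 (.step 0 135 134 (.step 7 120 4 (.step 0 137 138 (.step 1 121 19 (.step 0 90 140 (.step 0 141 25 (.step 1 125 19 (.step 4 127 3 (.step 1 136 19 (.step 1 139 19 (.step 8 142 3 (.step 0 147 89 (.step 1 143 10 (.step 0 149 56 (.step 1 144 25 (.step 0 151 146 (.step 1 145 10 (.step 0 153 148 (.step 1 150 25 (.step 0 155 95 (.step 6 151 3 (.step 0 157 139 (.step 8 152 6 (.step 0 158 159 (.step 1 154 45 (.step 1 155 36 (.step 0 162 110 (.step 9 156 8 (.step 0 110 164 (.step 0 165 160 (.step 0 163 164 (.step 0 167 160 (.step 1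 161 36 (.step 0 169 166 (.step 5 168 11 (.step 11 170 11 (.step 1 171 45 (.step 0 173 172 (.contra 174))))))))))))))))))))))))))))))))))))))))))))))))))))))

def cc_1 : CertW :=
  (.step 1 112 0 (.step 0 113 20 (.step 2 113 2 (.step 0 115 75 (.step 0 43 115 (.step 1 115 13 (.step 0 118 61 (.step 0 118 111 (.split [18] [20] cc_0 (.crule [34,121] 23 (.step 0 122 115 (.contra 123))))))))))))

def cc_2 : CertW :=
  (.step 0 167 183 (.step 0 184 25 (.step 1 183 8 (.step 0 156 186 (.step 0 187 30 (.step 1 183 12 (.step 0 189 31 (.step 1 183 26 (.step 0 158 191 (.step 9 183 4 (.step 0 192 193 (.step 0 194 190 (.step 8 185 3 (.step 0 196 181 (.step 0 196 188 (.step 0 196 195 (.step 1 197 11 (.step 5 199 1 (.crule [199,198] 7 (.step 0 201 202 (.step 1 200 2 (.step 0 204 203 (.contra 205)))))))))))))))))))))))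

def cc_3 : CertW :=
  (.step 2 236 1 (.crule [238,237] 10 (.step 0 240 239 (.contra 241))))

def cc_4 : CertW :=
  (.step 1 247 19 (.step 1 248 4 (.step 2 249 1 (.step 0 250 231 (.step 1 251 13 (.step 0 252 222 (.step 0 252 221 (.step 0 252 194 (.step 1 252 42 (.step 0 256 219 (.step 8 253 4 (.step 0 224 258 (.step 1 259 27 (.step 0 260 254 (.step 1 260 34 (.step 8 261 7 (.step 0 73 263 (.step 0 264 262 (.step 1 265 35 (.step 0 266 255 (.step 1 266 42 (.step 0 268 257 (.step 8 267 10 (.step 0 270 269 (.contra 271)))))))))))))))))))))))))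

def cc_5 : CertW :=
  (.step 1 248 19 (.step 3 248 1 (.step 1 249 2 (.step 0 251 234 (.step 1 249 10 (.step 0 253 243 (.split [8,5,34] [10,5,34] (.step 0 255 254 (.contra 256)) (.crule [250,255] 7 (.step 0 256 252 (.contra 257))))))))))

def cc_6 : CertW :=
  (.step 0 247 246 (.step 2 248 1 (.step 1 247 19 (.step 3 247 1 (.split [10,5,34] [8,5,34] (.step 1 251 2 (.step 0 254 234 (.crule [252,253] 7 (.step 0 256 255 (.contra 257))))) (.crule [250,253] 16 (.step 0 254 249 (.contra 255))))))))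

def cc_7 : CertW :=
  (.split [18,5,34] [34] cc_5 cc_6)

def cc_8 : CertW :=
  (.step 1 236 4 (.step 3 237 1 (.crule [238,43] 7 (.step 1 239 5 (.step 1 240 8 (.step 0 231 241 (.step 0 242 228 (.step 1 240 16 (.step 0 173 244 (.step 0 245 229 (.split [34] [18,5,34] cc_4 cc_7)))))))))))

def cc_9 : CertW :=
  (.step 1 236 4 (.step 0 237 200 (.step 1 236 12 (.step 7 235 1 (.step 0 239 240 (.split [10] [12] (.step 0 242 241 (.contra 243)) (.crule [115,242] 11 (.step 0 243 238 (.contra 244)))))))))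

def cc_10 : CertW :=
  (.split [5,18] [] cc_8 cc_9)

def cc_11 : CertW :=
  (.step 1 186 16 (.step 0 187 188 (.step 1 186 18 (.step 8 186 4 (.step 0 191 171 (.step 1 187 37 (.step 0 145 193 (.crule [189,190] 34 (.step 1 192 13 (.step 4 195 7 (.step 1 196 20 (.step 0 198 120 (.step 0 198 119 (.step 1 196 34 (.step 0 197 201 (.step 0 202 165 (.step 1 199 19 (.step 0 167 204 (.step 4 203 10 (.step 0 137 206 (.step 0 141 206 (.crule [150,203] 58 (.step 0 207 209 (.step 0 210 172 (.step 0 207 209 (.step 0 212 182 (.step 0 208 209 (.step 0 214 172 (.step 0 208 209 (.step 0 216 164 (.step 0 166 209 (.step 0 218 65 (.step 1 213 11 (.step 1 215 29 (.step 1 217 29 (.step 1 220 2 (.step 1 222 12 (.step 1 223 5 (.step 1 223 19 (.step 0 205 226 (.step 1 225 8 (.step 1 225 16 (.step 8 227 3 (.step 0 230 156 (.step 0 230 181 (.step 1 232 11 (.step 1 233 2 (.split [] [5,18] (.step 1 235 4 (.step 0 236 199 (.step 0 236 200 cc_3))) cc_10))))))))))))))))))))))))))))))))))))))))))))))))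

def cc_12 : CertW :=
  (.step 1 184 18 (.step 1 185 21 (.split [18] [16] cc_11 (.crule [185,187] 28 (.step 0 188 0 (.contra 189))))))

def cc_13 : CertW :=
  (.step 0 167 184 (.step 0 185 25 (.step 1 184 8 (.step 0 156 187 (.step 0 188 30 (.step 1 184 12 (.step 0 190 31 (.step 1 184 26 (.step 0 158 192 (.step 9 184 4 (.step 0 193 194 (.step 0 195 191 (.step 8 186 3 (.step 0 197 181 (.step 0 197 189 (.step 0 197 196 (.step 1 198 11 (.step 5 200 1 (.crule [200,199] 7 (.step 0 202 203 (.step 1 201 2 (.step 0 205 204 (.contra 206)))))))))))))))))))))))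

def cc_14 : CertW :=
  (.split [19,20] [] cc_12 cc_13)

def cc_15 : CertW :=
  (.step 1 168 10 (.step 4 169 3 (.step 0 174 175 (.step 0 176 107 (.step 4 177 0 (.step 1 178 3 (.step 6 179 0 (.step 0 160 180 (.step 0 163 180 (.split [] [19,20] cc_2 cc_14))))))))))

def cc_16 : CertW :=
  (.step 1 113 0 (.step 3 114 2 (.step 1 115 13 (.crule [43,115] 1 (.step 0 114 117 (.step 9 116 2 (.step 0 119 117 (.step 1 118 17 (.step 1 118 21 (.step 0 79 122 (.step 1 120 21 (.step 1 121 8 (.step 0 57 125 (.step 0 126 84 (.step 0 58 125 (.step 0 128 84 (.step 9 123 5 (.step 0 130 84 (.step 1 124 28 (.step 0 132 131 (.step 5 129 8 (.step 1 134 37 (.step 7 135 8 (.step 0 55 136 (.step 0 127 136 (.step 0 138 15 (.step 0 127 136 (.step 0 133 136 (.step 1 139 29 (.step 1 140 29 (.step 0 4 143 (.step 1 141 29 (.step 1 142 44 (.step 0 89 146 (.step 0 147 63 (.step 1 143 32 (.step 0 1 149 (.step 1 143 44 (.step 0 89 151 (.step 0 51 151 (.step 9 144 11 (.step 0 152 154 (.step 0 155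 106 (.step 0 152 154 (.step 0 157 13 (.step 0 152 154 (.step 0 159 107 (.step 0 152 154 (.step 0 153 154 (.step 0 154 107 (.step 0 154 23 (.step 1 145 34 (.step 1 145 42 (.step 1 148 25 (.step 1 161 25 (.crule [18,162] 25 (.step 1 167 8 (.step 0 104 170 (.step 0 163 170 (.step 1 167 16 cc_15))))))))))))))))))))))))))))))))))))))))))))))))))))))))))))

def cc_17 : CertW :=
  (.step 0 173 120 (.step 8 161 3 (.step 5 162 8 (.step 1 163 10 (.step 0 174 177 (.step 0 178 172 (.step 1 164 10 (.step 0 180 175 (.step 1 164 32 (.step 1 168 25 (.step 0 183 95 (.step 1 169 32 (.step 0 185 182 (.step 6 169 3 (.step 0 187 153 (.step 8 170 6 (.step 0 155 189 (.step 0 190 186 (.step 0 155 189 (.step 1 176 37 (.step 1 181 25 (.step 0 194 193 (.step 9 184 8 (.step 0 110 196 (.step 0 197 188 (.step 1 191 33 (.step 1 192 33 (.step 0 200 195 (.step 1 198 37 (.step 6 199 6 (.step 0 203 179 (.step 9 201 11 (.step 0 205 204 (.step 1 202 44 (.step 0 207 206 (.contra 208))))))))))))))))))))))))))))))))))))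

def cc_18 : CertW :=
  (.step 1 113 0 (.step 0 114 20 (.step 1 113 8 (.step 0 43 116 (.step 6 113 2 (.step 1 112 8 (.step 0 118 119 (.step 7 112 2 (.step 0 116 121 (.step 0 116 121 (.step 0 123 75 (.step 0 117 121 (.step 1 120 13 (.step 1 122 13 (.step 0 127 61 (.step 0 127 111 (.step 5 124 1 (.crule [124,74] 7 (.step 0 130 131 (.step 0 132 77 (.step 0 130 131 (.step 0 134 78 (.step 5 125 1 (.step 0 98 136 (.crule [122,125] 9 (.step 0 136 138 (.step 0 139 115 (.step 0 136 138 (.step 0 141 114 (.step 0 138 115 (.step 0 138 114 (.step 0 137 138 (.step 0 145 114 (.step 1 126 20 (.step 1 127 4 (.step 0 148 143 (.step 0 148 144 (.step 9 128 1 (.step 0 151 149 (.step 0 151 150 (.step 7 129 4 (.step 0 147 154 (.step 1 133 19 (.step 4 135 3 (.step 1 140 19 (.step 0 90 158 (.step 1 142 19 (.step 0 92 160 (.crule [146,100] 24 (.step 1 152 19 (.step 1 153 19 (.step 1 155 19 (.step 0 164 165 (.step 1 156 10 (.step 0 167 56 (.step 1 157 25 (.step 0 169 166 (.step 8 159 3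 (.step 0 171 89 (.step 9 160 4 cc_17))))))))))))))))))))))))))))))))))))))))))))))))))))))))))))

def cc_19 : CertW :=
  (.split [1,20] [] cc_16 cc_18)

def cc_20 : CertW :=
  (.step 5 70 8 (.step 1 71 29 (.step 1 72 36 (.step 6 79 0 (.step 0 83 55 (.step 1 80 17 (.step 1 81 36 (.step 0 20 86 (.step 7 85 8 (.step 0 88 69 (.step 1 86 17 (.step 0 90 19 (.step 0 24 90 (.step 1 86 21 (.step 0 19 93 (.step 0 94 72 (.step 1 90 8 (.step 1 90 18 (.step 0 28 97 (.step 1 90 20 (.step 0 29 99 (.step 9 91 5 (.step 0 22 101 (.step 0 102 96 (.step 0 22 101 (.step 0 23 101 (.step 0 105 96 (.step 0 23 101 (.step 1 93 36 (.step 0 21 108 (.step 0 109 82 (.step 1 103 27 (.split [] [1,20] cc_1 cc_19)))))))))))))))))))))))))))))))))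

def cc_21 : CertW :=
  (.step 1 19 20 (.step 1 19 36 (.step 6 19 7 (.step 0 13 22 (.step 1 20 17 (.step 1 20 19 (.step 2 20 7 (.step 0 26 0 (.step 1 24 18 (.step 1 24 20 (.step 1 25 8 (.step 1 25 12 (.step 5 27 8 (.crule [0,27] 25 (.crule [27,26] 35 (.crule [0,27] 36 (.crule [27,26] 46 (.step 1 32 37 (.step 1 33 17 (.step 1 33 19 (.step 1 34 17 (.step 1 34 21 (.step 5 34 5 (.crule [33,34] 13 (.step 1 35 37 (.step 5 35 11 (.step 1 36 37 (.step 4 36 10 (.step 0 12 47 (.crule [35,36] 58 (.step 0 49 45 (.step 0 48 49 (.step 7 37 8 (.step 0 50 52 (.step 1 38 28 (.step 8 38 3 (.step 8 39 3 (.step 9 40 5 (.step 0 54 57 (.step 9 41 5 (.step 1 42 29 (.step 1 43 11 (.step 4 43 0 (.step 9 44 11 (.step 0 16 63 (.step 0 64 52 (.step 1 46 24 (.step 0 50 66 (.step 8 46 10 (.step 0 68 49 (.step 0 68 67 (.step 0 68 53 (.step 1 59 29 (.step 7 60 5 (.step 1 61 8 (.step 1 61 12 (.step 1 61 16 (.step 8 61 0 (.step 0 77 76 (.step 1 62 17 cc_20))))))))))))))))))))))))))))))))))))))))))))))))))))))))))))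

def cc_22 : CertW :=
  (.crule [80,79] 13 (.step 1 81 28 (.step 0 47 85 (.step 9 81 5 (.step 0 86 87 (.step 0 30 87 (.step 8 82 3 (.crule [0,83] 36 (.step 4 84 0 (.crule [84,78] 1 (.step 0 77 93 (.crule [39,91] 48 (.step 0 72 95 (.step 1 92 17 (.step 1 94 17 (.step 6 97 0 (.step 0 99 90 (.step 1 98 8 (.step 0 87 101 (.step 0 102 100 (.step 0 88 101 (.step 0 104 100 (.step 0 89 101 (.step 0 106 100 (.step 5 105 8 (.step 1 107 25 (.step 1 108 37 (.step 0 109 110 (.step 7 110 8 (.step 0 103 112 (.step 9 111 11 (.step 0 114 96 (.step 1 113 29 (.step 1 115 45 (.step 0 117 116 (.contra 118))))))))))))))))))))))))))))))))))))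

def cc_23 : CertW :=
  (.step 0 38 79 (.step 1 79 17 (.step 0 41 81 (.split [28] [24] cc_22 (.crule [83,29] 33 (.step 0 84 79 (.contra 85)))))))

def cc_24 : CertW :=
  (.step 1 76 0 (.step 3 77 2 (.split [20] [16] cc_23 (.crule [79,38] 21 (.step 0 80 78 (.contra 81))))))

def cc_25 : CertW :=
  (.crule [112,96] 32 (.step 1 113 17 (.step 1 115 17 (.step 1 115 21 (.step 0 125 123 (.step 1 117 17 (.step 1 117 37 (.step 1 118 28 (.step 9 118 3 (.step 8 119 5 (.step 0 131 129 (.step 8 120 5 (.crule [121,29] 44 (.step 5 122 7 (.step 7 123 0 (.step 0 110 136 (.step 0 130 136 (.step 1 124 8 (.step 0 138 139 (.step 0 140 132 (.step 8 126 5 (.step 0 137 142 (.step 1 127 8 (.step 0 138 144 (.step 0 145 133 (.step 1 128 28 (.step 1 134 37 (.crule [134,39] 54 (.step 0 61 149 (.step 1 135 35 (.step 4 141 8 (.step 1 143 29 (.step 9 148 10 (.step 0 150 154 (.step 7 151 7 (.step 0 146 156 (.step 0 157 155 (.step 1 152 37 (.step 1 153 20 (.step 6 159 8 (.step 0 147 161 (.step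 0 162 158 (.step 1 160 37 (.step 1 163 29 (.step 0 165 164 (.contra 166))))))))))))))))))))))))))))))))))))))))))))))

def cc_26 : CertW :=
  (.step 0 95 111 (.step 5 109 0 (.crule [109,80] 3 (.step 0 114 105 (.crule [108,109] 5 (.step 0 116 107 (.step 1 111 17 (.step 0 118 91 (.step 0 92 118 (.split [24] [28] cc_25 (.crule [0,121] 25 (.step 0 122 111 (.contra 123)))))))))))))

def cc_27 : CertW :=
  (.step 1 106 4 (.step 2 107 1 (.step 0 102 108 (.step 0 90 108 (.split [16] [18] cc_26 (.crule [38,111] 19 (.step 0 112 108 (.contra 113))))))))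

def cc_28 : CertW :=
  (.step 8 226 6 (.step 0 231 230 (.contra 232)))

def cc_29 : CertW :=
  (.crule [160,162] 26 (.step 1 165 29 (.step 5 168 7 (.step 5 169 0 (.crule [169,80] 3 (.step 0 175 105 (.step 0 175 142 (.step 4 170 8 (.crule [170,29] 44 (.step 4 171 8 (.step 6 172 5 (.step 0 152 181 (.step 0 182 174 (.step 0 152 181 (.step 0 184 159 (.step 0 152 181 (.step 1 173 35 (.step 1 174 17 (.step 1 176 21 (.step 0 189 188 (.step 1 178 37 (.step 1 179 37 (.crule [179,39] 54 (.step 0 59 193 (.step 0 61 193 (.step 1 180 37 (.step 1 183 35 (.step 0 189 197 (.step 1 185 37 (.step 1 186 35 (.step 0 191 200 (.step 7 187 7 (.step 0 167 202 (.step 0 203 195 (.step 7 188 0 (.step 0 163 205 (.step 8 190 5 (.step 0 206 207 (.step 6 191 8 (.step 9 192 10 (.step 0 194 210 (.step 6 196 8 (.step 0 212 208 (.step 7 198 7 (.step 0 213 214 (.step 1 199 28 (.step 0 211 216 (.step 0 217 215 (.step 1 200 42 (.step 0 204 219 (.step 9 201 10 (.step 0 220 221 (.step 0 222 209 (.step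 1 218 27 (.step 1 223 25 (.step 0 225 139 (.step 1 224 34 (.step 0 227 177 (.step 1 225 32 (.step 0 229 228 cc_28))))))))))))))))))))))))))))))))))))))))))))))))))))))))))))

def cc_30 : CertW :=
  (.split [24] [28] cc_29 (.crule [0,170] 25 (.step 0 171 159 (.contra 172))))

def cc_31 : CertW :=
  (.step 0 153 91 (.step 0 92 153 (.step 1 153 8 (.step 0 156 93 (.step 0 130 156 (.step 1 153 16 (.step 1 153 18 (.step 1 153 20 (.step 0 85 161 (.step 9 153 3 (.step 8 154 5 (.step 0 157 164 (.step 8 155 5 (.step 0 156 166 (.step 0 158 166 (.split [8] [10] cc_30 (.crule [111,169] 18 (.step 0 170 159 (.contra 171)))))))))))))))))))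

def cc_32 : CertW :=
  (.step 1 236 29 (.step 4 243 2 (.step 1 249 13 (.step 1 250 8 (.step 0 254 247 (.step 1 251 0 (.step 0 256 237 (.step 1 252 1 (.step 1 253 4 (.crule [255,248] 9 (.step 0 259 260 (.step 0 261 257 (.step 6 258 2 (.step 0 241 263 (.step 1 262 1 (.step 1 264 9 (.step 0 266 265 (.contra 267))))))))))))))))))

def cc_33 : CertW :=
  (.step 0 184 190 (.step 7 187 7 (.step 0 192 61 (.step 1 188 37 (.step 0 194 62 (.step 5 189 10 (.step 0 196 37 (.step 0 196 75 (.crule [189,39] 54 (.step 0 71 199 (.step 0 185 199 (.step 0 59 199 (.step 0 59 199 (.step 0 203 197 (.step 0 59 199 (.step 0 205 198 (.step 0 193 199 (.crule [184,191] 27 (.crule [191,190] 33 (.step 1 194 24 (.step 0 210 201 (.step 1 194 28 (.step 9 195 10 (.step 0 200 213 (.step 0 211 213 (.step 0 202 213 (.step 0 216 212 (.step 0 202 213 (.step 0 207 213 (.step 1 204 27 (.step 5 206 7 (.crule [208,209] 15 (.step 0 222 167 (.step 1 214 29 (.step 4 215 8 (.step 1 219 29 (.step 1 220 34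 (.step 1 221 21 (.step 1 225 17 (.step 0 224 229 (.step 1 226 8 (.step 1 227 21 (.step 0 232 2 (.step 7 228 7 (.step 0 234 217 (.step 0 234 218 (.step 1 229 0 (.step 1 229 8 (.step 0 231 238 (.step 8 230 5 (.step 0 240 54 (.step 0 239 240 (.step 0 242 54 (.step 1 232 10 (.step 0 244 164 (.step 9 233 4 (.step 0 223 246 (.step 0 245 246 (.step 0 169 246 (.step 1 235 29 cc_32))))))))))))))))))))))))))))))))))))))))))))))))))))))))))))

def cc_34 : CertW :=
  (.step 0 188 69 (.split [26,33,34] [28,33,34] cc_33 (.crule [190,184] 40 (.step 0 191 68 (.contra 192)))))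

def cc_35 : CertW :=
  (.step 1 180 33 (.step 1 181 18 (.step 0 182 64 (.step 3 182 6 (.step 0 184 66 (.step 1 183 35 (.step 0 92 186 (.split [34] [36,33,34] cc_34 (.crule [68,188] 37 (.step 0 189 184 (.contra 190)))))))))))

def cc_36 : CertW :=
  (.step 0 247 256 (.step 7 244 7 (.step 0 258 255 (.step 1 249 27 (.step 1 251 27 (.step 5 253 7 (.step 1 259 29 (.step 1 260 34 (.step 1 262 21 (.step 0 265 261 (.step 1 263 8 (.step 0 267 211 (.step 1 264 21 (.step 7 265 7 (.step 0 270 257 (.step 9 266 4 (.step 0 164 272 (.step 0 169 272 (.step 4 268 2 (.step 1 269 10 (.step 0 276 273 (.step 1 271 29 (.step 1 274 13 (.step 1 275 1 (.step 1 278 0 (.step 1 278 8 (.step 0 282 210 (.step 1 279 4 (.step 6 280 2 (.step 0 211 285 (.crule [283,277] 9 (.step 0 284 287 (.step 0 288 281 (.step 1 286 9 (.step 1 289 1 (.step 0 291 290 (.contra 292)))))))))))))))))))))))))))))))))))))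

def cc_37 : CertW :=
  (.crule [242,256] 25 (.step 0 257 191 (.contra 258)))

def cc_38 : CertW :=
  (.step 0 198 192 (.crule [197,183] 42 (.crule [196,197] 44 (.step 1 198 21 (.step 0 202 188 (.crule [191,199] 26 (.crule [201,200] 54 (.step 0 185 205 (.step 0 206 193 (.step 8 203 5 (.step 0 208 129 (.step 0 208 53 (.step 0 208 54 (.step 4 204 8 (.step 1 209 9 (.step 1 212 37 (.step 0 214 213 (.step 1 213 10 (.step 0 195 216 (.step 0 217 164 (.step 1 213 18 (.step 0 191 219 (.step 1 213 26 (.step 0 221 207 (.step 1 213 28 (.step 0 223 37 (.step 0 223 75 (.step 1 213 36 (.step 0 212 226 (.step 1 213 42 (.step 0 222 228 (.step 1 214 28 (.step 0 230 224 (.step 0 230 225 (.step 6 214 8 (.step 0 233 218 (.step 9 215 10 (.step 0 235 233 (.step 0 235 230 (.step 0 235 231 (.step 0 235 234 (.step 0 235 232 (.step 0 229 235 (.step 0 241 233 (.step 1 220 35 (.step 0 92 243 (.crule [227,39] 54 (.step 0 59 245 (.step 0 246 236 (.step 0 59 245 (.step 0 248 238 (.step 0 59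 245 (.step 0 250 239 (.step 0 59 245 (.step 0 252 240 (.step 0 61 245 (.step 0 254 237 (.split [24,17,34] [28,17,34] cc_36 cc_37))))))))))))))))))))))))))))))))))))))))))))))))))))))))))

def cc_39 : CertW :=
  (.step 0 183 196 (.split [34] [20,19,34] cc_38 (.crule [198,190] 28 (.step 0 199 183 (.contra 200)))))

def cc_40 : CertW :=
  (.step 1 188 10 (.step 1 188 16 (.step 1 188 18 (.step 1 188 20 (.step 1 188 42 (.step 9 188 3 (.step 0 194 189 (.split [24,19,34] [28,19,34] cc_39 (.crule [183,196] 25 (.step 0 197 190 (.contra 198)))))))))))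

def cc_41 : CertW :=
  (.step 0 192 203 (.step 1 203 21 (.crule [204,192] 19 (.crule [203,204] 21 (.step 8 205 5 (.step 0 208 129 (.step 0 208 54 (.crule [207,206] 9 (.step 1 209 9 (.step 0 198 212 (.step 1 212 24 (.step 0 201 214 (.step 0 215 8 (.step 1 212 28 (.step 0 199 217 (.step 0 218 75 (.step 1 212 36 (.step 0 200 220 (.step 9 213 10 (.step 0 222 199 (.step 0 222 216 (.step 0 222 219 (.crule [221,39] 54 (.step 0 59 226 (.step 0 227 223 (.step 0 59 226 (.step 0 229 224 (.step 0 59 226 (.step 0 231 225 (.step 1 230 27 (.step 5 232 7 (.step 1 234 21 (.step 0 235 233 (.step 7 235 7 (.step 0 237 228 (.step 9 236 4 (.step 0 169 239 (.step 1 238 29 (.step 1 240 13 (.step 1 241 4 (.step 0 243 211 (.step 1 241 8 (.step 0 9 245 (.step 0 246 210 (.step 1 242 4 (.step 0 248 244 (.step 4 247 2 (.step 1 249 1 (.step 1 250 1 (.step 1 251 8 (.step 0 253 210 (.step 6 252 2 (.step 0 255 254 (.contra 256))))))))))))))))))))))))))))))))))))))))))))))))))))))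

def cc_42 : CertW :=
  (.step 1 198 28 (.step 1 198 36 (.step 6 198 8 (.step 2 200 8 (.split [34] [20,17,34] cc_41 (.crule [192,203] 24 (.step 0 204 202 (.contra 205))))))))

def cc_43 : CertW :=
  (.step 0 327 325 (.step 4 328 11 (.step 0 324 329 (.crule [328,313] 56 (.step 0 331 330 (.contra 332))))))

def cc_44 : CertW :=
  (.step 0 267 263 (.step 1 264 17 (.step 0 83 269 (.step 5 264 3 (.step 0 87 271 (.step 4 265 5 (.crule [264,266] 26 (.crule [263,268] 5 (.step 0 275 262 (.step 1 269 18 (.step 1 269 20 (.step 0 86 278 (.step 1 269 36 (.step 9 269 3 (.step 8 270 5 (.step 1 273 29 (.step 4 274 8 (.step 0 191 284 (.step 0 285 280 (.step 1 276 3 (.crule [277,279] 15 (.crule [277,279] 26 (.step 6 283 5 (.step 0 152 290 (.step 1 286 37 (.step 1 287 10 (.step 0 272 293 (.step 0 281 293 (.step 5 288 0 (.step 4 289 8 (.step 1 292 24 (.step 0 206 298 (.step 0 299 295 (.step 1 296 3 (.step 1 297 37 (.step 7 301 0 (.step 0 294 303 (.step 0 304 282 (.step 0 300 303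 (.step 0 306 282 (.step 0 295 303 (.step 0 308 282 (.step 6 302 8 (.step 0 310 309 (.step 4 305 8 (.step 0 291 312 (.step 1 307 29 (.step 1 311 29 (.step 5 313 10 (.step 0 316 37 (.crule [313,39] 54 (.step 0 59 318 (.step 0 319 317 (.step 1 314 24 (.step 0 206 321 (.step 9 314 10 (.step 0 323 322 (.step 1 315 36 (.step 1 320 27 (.step 1 326 34 cc_43))))))))))))))))))))))))))))))))))))))))))))))))))))))))))))

def cc_45 : CertW :=
  (.step 0 84 264 (.step 0 264 86 (.split [8,19,20] [12,19,20] cc_44 (.crule [267,263] 22 (.step 0 268 86 (.contra 269))))))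

def cc_46 : CertW :=
  (.step 1 260 19 (.step 1 261 4 (.step 2 262 1 (.split [16,19,20] [20] cc_45 (.crule [86,264] 19 (.step 0 265 263 (.contra 266)))))))

def cc_47 : CertW :=
  (.step 0 417 416 (.contra 418))

def cc_48 : CertW :=
  (.step 1 342 40 (.step 6 342 6 (.step 0 359 324 (.step 1 346 4 (.step 0 361 112 (.step 0 361 143 (.step 4 349 8 (.step 0 339 364 (.step 1 351 29 (.crule [353,329] 44 (.step 1 354 1 (.step 7 355 7 (.step 0 322 369 (.step 1 357 42 (.step 1 362 1 (.step 1 363 19 (.step 0 342 373 (.step 0 374 357 (.step 1 364 37 (.step 0 376 356 (.crule [365,39] 54 (.step 1 366 34 (.step 0 379 224 (.step 9 366 10 (.step 0 378 381 (.step 0 382 206 (.crule [367,345] 54 (.step 0 358 384 (.step 6 368 2 (.step 0 360 386 (.step 1 372 8 (.step 0 387 388 (.step 0 387 388 (.step 0 390 370 (.step 1 373 42 (.step 0 385 392 (.step 0 393 371 (.step 8 375 9 (.step 0 370 395 (.step 0 370 395 (.step 0 397 394 (.step 0 391 395 (.step 6 376 8 (.step 9 377 10 (.step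 0 398 401 (.step 0 402 400 (.crule [380,224] 48 (.step 0 404 344 (.step 1 389 25 (.step 1 396 41 (.step 1 403 25 (.step 1 405 41 (.step 1 406 40 (.step 0 399 410 (.step 1 407 24 (.step 0 412 411 (.step 1 408 40 (.step 0 413 414 (.step 0 415 383 (.step 1 409 24 cc_47))))))))))))))))))))))))))))))))))))))))))))))))))))))))))))

def cc_49 : CertW :=
  (.step 0 297 267 (.step 1 286 21 (.step 0 299 171 (.step 4 286 5 (.crule [288,174] 30 (.step 1 290 4 (.step 0 303 117 (.step 1 291 16 (.step 0 305 289 (.step 1 291 24 (.step 0 307 276 (.step 1 292 5 (.step 1 294 37 (.step 1 295 0 (.step 8 296 5 (.step 0 312 176 (.crule [298,267] 9 (.step 0 263 314 (.step 0 315 311 (.step 1 299 16 (.step 1 299 18 (.step 0 318 155 (.step 1 299 26 (.step 0 320 128 (.step 8 299 5 (.step 0 321 322 (.step 9 300 4 (.step 1 301 29 (.step 0 325 139 (.step 4 302 6 (.step 1 304 21 (.crule [306,288] 32 (.step 7 309 1 (.step 0 330 278 (.step 1 310 24 (.step 0 206 332 (.step 0 333 276 (.step 1 316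 1 (.crule [317,319] 21 (.step 5 323 7 (.step 6 325 5 (.step 0 152 338 (.step 9 326 7 (.step 0 340 338 (.step 1 327 33 (.step 1 328 12 (.step 0 238 343 (.crule [329,302] 42 (.step 1 331 13 (.step 1 335 8 (.step 0 273 347 (.step 0 348 312 (.step 0 334 347 (.step 0 350 312 (.step 0 308 347 (.step 0 352 313 (.step 4 336 2 (.step 1 337 35 (.step 1 339 35 (.step 1 341 35 cc_48))))))))))))))))))))))))))))))))))))))))))))))))))))))))))))

def cc_50 : CertW :=
  (.step 0 84 285 (.step 0 84 285 (.step 0 287 175 (.step 0 285 175 (.step 1 275 13 (.step 1 280 11 (.step 5 282 1 (.step 4 284 8 (.step 0 191 293 (.step 1 285 17 (.step 0 83 295 (.split [8,19,20] [10,19,20] cc_49 (.crule [267,297] 18 (.step 0 298 285 (.contra 299)))))))))))))))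

def cc_51 : CertW :=
  (.step 0 271 283 (.split [16,19,20] [20] cc_50 (.crule [86,285] 30 (.step 0 286 271 (.contra 287)))))

def cc_52 : CertW :=
  (.step 3 270 6 (.step 0 87 271 (.step 0 272 79 (.step 0 221 271 (.step 0 274 48 (.step 0 271 79 (.step 0 178 271 (.step 0 277 48 (.step 0 178 271 (.step 0 279 266 (.step 0 178 271 (.step 0 281 173 (.split [26,19,20] [28,19,20] cc_51 (.crule [283,271] 29 (.step 0 284 86 (.contra 285))))))))))))))))

def cc_53 : CertW :=
  (.step 1 279 32 (.step 1 279 34 (.step 1 279 36 (.split [20] [36,35,20] (.step 0 283 282 (.split [36,33,20] [20] (.step 0 285 284 (.contra 286)) (.crule [281,285] 39 (.step 0 286 278 (.contra 287))))) (.crule [283,280] 41 (.step 0 284 40 (.contra 285)))))))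

def cc_54 : CertW :=
  (.step 0 280 288 (.step 1 288 32 (.step 0 281 290 (.step 1 288 34 (.step 1 288 42 (.step 8 288 10 (.step 0 294 293 (.step 9 289 11 (.step 0 296 277 (.step 0 296 274 (.crule [291,292] 47 (.crule [291,292] 58 (.step 0 295 300 (.step 0 301 297 (.step 0 295 300 (.step 0 303 298 (.step 5 299 8 (.step 1 305 17 (.step 7 306 8 (.step 0 307 302 (.step 0 307 304 (.step 12 308 3 (.step 1 309 25 (.step 0 311 310 (.contra 312)))))))))))))))))))))))))

def cc_55 : CertW :=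
  (.step 1 311 16 (.step 1 311 18 (.step 1 311 20 (.split [16,21,32] [32] (.step 0 312 315 (.split [32] [16,19,32] (.step 0 317 316 (.contra 318)) (.crule [314,317] 28 (.step 0 318 17 (.contra 319))))) (.crule [315,313] 34 (.step 0 316 305 (.contra 317)))))))

def cc_56 : CertW :=
  (.step 0 318 99 (.step 1 318 2 (.step 1 318 10 (.step 0 101 321 (.step 1 318 18 (.step 0 323 156 (.step 8 318 1 (.step 0 325 324 (.step 9 319 0 (.step 0 326 327 (.step 0 328 320 (.crule [321,322] 5 (.step 0 330 329 (.contra 331))))))))))))))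

def cc_57 : CertW :=
  (.step 0 344 322 (.step 1 344 9 (.crule [344,345] 3 (.step 1 346 10 (.step 0 348 162 (.step 1 346 18 (.step 0 343 350 (.step 9 346 0 (.step 0 155 352 (.step 0 353 347 (.step 1 349 25 (.step 0 339 355 (.step 4 351 5 (.step 0 357 259 (.step 1 354 1 (.step 1 355 8 (.step 0 340 360 (.step 8 356 5 (.step 0 361 362 (.step 0 363 259 (.step 4 358 2 (.step 1 359 8 (.step 0 366 364 (.step 1 365 1 (.step 10 367 2 (.step 0 369 368 (.contra 370)))))))))))))))))))))))))))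

def cc_58 : CertW :=
  (.step 0 320 338 (.step 1 338 8 (.step 1 338 24 (.step 3 341 3 (.step 0 324 342 (.split [8,11,8] [8] cc_57 (.crule [322,344] 18 (.step 0 345 342 (.contra 346)))))))))

def cc_59 : CertW :=
  (.step 0 427 201 (.step 1 413 44 (.step 0 362 429 (.step 0 430 416 (.crule [419,192] 19 (.step 1 423 1 (.step 1 428 21 (.crule [421,432] 9 (.step 6 433 2 (.step 0 422 436 (.step 1 434 0 (.step 0 332 438 (.step 0 439 414 (.step 1 437 9 (.step 1 441 0 (.step 0 435 442 (.step 0 440 442 (.step 1 443 5 (.step 1 444 19 (.step 1 445 12 (.step 0 431 447 (.step 0 448 110 (.step 1 446 2 (.step 9 446 0 (.step 0 426 451 (.step 0 452 450 (.crule [449,80] 3 (.step 0 454 453 (.contra 455)))))))))))))))))))))))))))))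

def cc_60 : CertW :=
  (.step 0 367 363 (.step 1 366 29 (.step 0 369 340 (.crule [363,368] 56 (.step 0 362 371 (.step 0 372 350 (.step 0 362 371 (.step 1 369 16 (.step 0 151 375 (.step 1 369 24 (.step 1 369 26 (.step 0 378 344 (.step 8 369 8 (.step 0 376 380 (.step 9 370 7 (.step 0 337 382 (.step 1 373 43 (.step 1 374 43 (.crule [377,379] 33 (.crule [377,379] 44 (.step 1 384 34 (.step 0 388 383 (.step 1 385 34 (.step 4 386 5 (.step 5 387 10 (.step 1 391 9 (.step 1 392 43 (.step 6 393 5 (.step 0 202 395 (.step 0 389 395 (.step 7 394 10 (.step 0 381 398 (.step 0 399 390 (.step 0 380 398 (.step 0 401 397 (.step 0 380 398 (.step 0 403 390 (.step 1 402 17 (.step 1 405 34 (.step 0 400 406 (.step 0 404 406 (.step 1 407 17 (.step 4 407 5 (.step 0 255 410 (.step 0 411 54 (.step 1 408 17 (.step 1 409 0 (.step 1 409 12 (.step 0 229 415 (.step 0 243 415 (.step 1 409 20 (.step 0 192 418 (.step 8 409 5 (.step 0 420 417 (.step 0 420 54 (.step 4 412 2 (.step 1 413 36 (.step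 0 364 424 (.step 0 425 396 (.step 0 365 424 cc_59))))))))))))))))))))))))))))))))))))))))))))))))))))))))))))

def cc_61 : CertW :=
  (.split [34,25,8] [32,25,8] cc_60 (.crule [367,363] 39 (.step 0 368 344 (.contra 369))))

def cc_62 : CertW :=
  (.step 1 361 44 (.step 2 362 11 (.step 0 357 363 (.step 0 359 363 (.split [8] [28,25,8] cc_61 (.crule [344,366] 36 (.step 0 367 363 (.contra 368))))))))

def cc_63 : CertW :=
  (.step 0 340 365 (.step 1 365 20 (.step 0 145 367 (.step 1 365 36 (.step 8 365 7 (.step 0 368 370 (.step 9 366 8 (.step 0 369 372 (.step 0 373 352 (.step 1 371 35 (.step 0 289 375 (.step 1 374 37 (.step 0 377 376 (.contra 378))))))))))))))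

def cc_64 : CertW :=
  (.step 1 370 17 (.step 3 370 0 (.step 1 371 8 (.step 0 128 373 (.step 0 363 373 (.step 1 372 11 (.crule [372,80] 3 (.step 0 377 105 (.step 0 377 356 (.step 0 377 357 (.step 0 370 377 (.step 0 381 105 (.step 0 370 377 (.step 0 383 357 (.step 1 378 21 (.step 0 385 371 (.step 1 379 33 (.step 0 387 376 (.step 1 380 33 (.step 4 382 5 (.step 1 385 26 (.step 0 391 374 (.step 8 386 5 (.step 0 375 393 (.step 0 392 393 (.step 1 389 40 (.step 1 390 29 (.step 5 395 7 (.step 6 397 5 (.step 0 152 399 (.step 0 400 370 (.step 0 369 399 (.step 0 402 384 (.step 1 398 35 (.step 1 401 35 (.step 0 388 405 (.crule [403,364] 48 (.step 0 396 407 (.step 0 408 394 (.step 7 404 7 (.step 0 409 410 (.step 8 406 9 (.step 0 412 411 (.contra 413))))))))))))))))))))))))))))))))))))))))))))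

def cc_65 : CertW :=
  (.step 0 424 431 (.step 2 427 1 (.step 0 433 384 (.step 5 432 2 (.step 0 428 435 (.step 0 436 429 (.step 0 428 435 (.step 0 438 430 (.step 1 434 13 (.crule [439,437] 34 (.step 1 440 34 (.step 0 442 412 (.step 4 441 7 (.step 0 444 443 (.contra 445)))))))))))))))

def cc_66 : CertW :=
  (.step 0 429 411 (.split [10,5,2] [8,5,2] cc_65 (.crule [424,431] 5 (.step 0 432 426 (.contra 433)))))

def cc_67 : CertW :=
  (.step 1 422 19 (.step 2 422 1 (.step 1 423 2 (.step 0 409 425 (.step 1 423 4 (.step 1 423 20 (.split [0,5,2] [2] cc_66 (.crule [429,398] 10 (.step 0 430 424 (.contra 431))))))))))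

def cc_68 : CertW :=
  (.step 0 442 484 (.step 0 413 484 (.step 3 484 6 (.step 1 485 21 (.step 0 488 374 (.step 1 486 19 (.step 0 419 490 (.split [20,19,2] [2] (.step 9 489 5 (.step 1 492 21 (.step 0 491 494 (.step 0 495 374 (.step 1 493 29 (.step 0 497 496 (.contra 498))))))) (.crule [492,411] 30 (.step 0 493 487 (.contra 494)))))))))))

def cc_69 : CertW :=
  (.step 1 488 28 (.step 0 450 489 (.step 0 408 489 (.step 9 488 5 (.step 0 490 492 (.step 0 493 381 (.step 0 491 492 (.step 0 495 381 (.step 5 496 8 (.step 1 497 37 (.step 7 498 8 (.step 0 494 499 (.step 1 500 29 (.step 0 248 501 (.step 1 501 44 (.step 0 246 503 (.step 9 502 11 (.step 0 505 504 (.contra 506)))))))))))))))))))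

def cc_70 : CertW :=
  (.step 0 22 533 (.step 0 534 256 (.step 3 526 5 (.step 1 532 25 (.step 1 533 17 (.crule [209,535] 19 (.step 1 536 17 (.step 1 538 28 (.step 0 541 530 (.step 1 540 28 (.step 0 543 528 (.step 5 542 8 (.step 1 545 37 (.step 0 537 546 (.step 1 546 44 (.step 7 546 8 (.step 0 544 549 (.step 9 547 11 (.step 0 548 551 (.step 0 552 246 (.step 0 551 246 (.step 1 550 29 (.step 1 553 45 (.step 1 554 45 (.step 1 555 24 (.step 0 219 558 (.step 1 556 24 (.step 0 520 560 (.step 0 561 212 (.step 1 557 24 (.step 0 559 563 (.step 0 564 212 (.step 4 562 2 (.crule [562,539] 9 (.step 0 567 566 (.step 1 565 13 (.step 1 568 5 (.step 0 570 569 (.contra 571)))))))))))))))))))))))))))))))))))))))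

def cc_71 : CertW :=
  (.step 1 521 21 (.step 1 522 0 (.step 3 523 2 (.step 0 54 524 (.step 0 525 255 (.step 0 54 524 (.step 0 527 494 (.step 0 259 524 (.step 0 529 494 (.step 0 55 524 (.step 0 531 494 (.split [18] [16,21,18] cc_70 (.crule [533,96] 21 (.step 0 534 524 (.contra 535)))))))))))))))

def cc_72 : CertW :=
  (.split [10,17,18] [12,17,18] (.step 0 535 537 (.step 1 536 21 (.crule [535,538] 3 (.step 0 534 540 (.step 8 539 5 (.step 0 542 530 (.step 1 541 1 (.step 1 543 9 (.step 0 545 544 (.contra 546)))))))))) (.crule [537,535] 16 (.step 0 538 157 (.contra 539))))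

def cc_73 : CertW :=
  (.step 1 532 17 (.step 1 533 2 (.step 3 534 0 (.split [18] [20,17,18] cc_72 (.crule [157,536] 13 (.step 0 537 535 (.contra 538)))))))

def cc_74 : CertW :=
  (.step 0 405 549 (.step 0 550 538 (.step 1 548 13 (.crule [551,534] 19 (.step 1 552 4 (.step 0 554 509 (.crule [553,536] 7 (.step 1 555 1 (.step 1 556 5 (.step 1 557 8 (.step 0 529 559 (.step 0 560 544 (.step 1 558 12 (.step 0 562 546 (.step 1 561 29 (.step 1 564 12 (.step 0 238 565 (.step 0 566 563 (.step 1 567 45 (.step 1 568 28 (.step 0 569 445 (.step 1 568 36 (.step 9 568 10 (.step 0 572 570 (.crule [571,39] 54 (.step 0 574 573 (.contra 575)))))))))))))))))))))))))))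

def cc_75 : CertW :=
  (.step 2 541 8 (.step 0 381 542 (.step 0 543 539 (.step 0 170 542 (.step 0 545 467 (.step 0 170 542 (.step 0 547 513 (.split [18] [20,17,18] cc_74 (.crule [157,549] 24 (.step 0 550 542 (.contra 551)))))))))))

def cc_76 : CertW :=
  (.step 0 559 531 (.crule [209,551] 19 (.crule [209,551] 30 (.crule [523,553] 19 (.crule [531,560] 9 (.step 0 564 526 (.crule [31,562] 42 (.crule [525,563] 9 (.step 1 565 5 (.step 1 567 5 (.step 1 568 12 (.step 0 51 570 (.step 0 571 558 (.step 0 54 570 (.step 0 573 558 (.step 0 54 570 (.step 0 575 547 (.step 0 55 570 (.step 0 577 558 (.step 1 569 12 (.step 0 579 558 (.crule [562,574] 36 (.step 1 576 29 (.step 1 578 25 (.step 0 583 582 (.crule [566,581] 48 (.step 1 582 44 (.step 0 585 586 (.step 9 584 11 (.step 0 587 588 (.step 0 589 58 (.step 1 590 41 (.step 1 591 24 (.step 0 556 592 (.step 0 593 212 (.step 0 592 212 (.step 0 580 592 (.step 0 596 212 (.step 4 594 2 (.crule [594,561] 9 (.step 0 599 598 (.step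 1 597 13 (.step 1 600 5 (.step 1 601 8 (.step 0 529 603 (.step 1 602 12 (.step 0 595 605 (.step 0 606 219 (.step 3 604 5 (.step 1 607 25 (.step 1 608 17 (.step 0 610 609 (.contra 611)))))))))))))))))))))))))))))))))))))))))))))))))))))

def cc_77 : CertW :=
  (.step 1 548 16 (.step 0 22 549 (.step 0 550 256 (.step 0 126 549 (.step 0 552 527 (.step 1 548 24 (.step 0 520 554 (.step 0 555 257 (.step 0 170 554 (.step 0 557 257 (.split [10,21,18] [8,21,18] cc_76 (.crule [559,531] 14 (.step 0 560 549 (.contra 561))))))))))))))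

def cc_78 : CertW :=
  (.step 0 559 544 (.step 1 556 9 (.crule [558,540] 7 (.step 0 562 537 (.crule [560,544] 36 (.crule [559,560] 42 (.step 1 561 16 (.step 0 126 566 (.step 1 563 5 (.crule [565,564] 48 (.step 0 569 545 (.crule [523,567] 19 (.step 1 568 12 (.step 0 551 572 (.step 0 573 547 (.step 0 553 572 (.step 0 575 170 (.crule [525,571] 9 (.step 1 574 29 (.step 1 576 25 (.step 0 579 543 (.step 1 577 5 (.step 1 578 44 (.step 9 580 11 (.step 0 582 583 (.step 0 584 246 (.step 0 570 583 (.step 0 586 58 (.step 1 581 12 (.step 0 588 170 (.step 1 585 45 (.step 1 587 41 (.step 1 590 24 (.step 0 592 212 (.step 1 591 24 (.step 0 520 594 (.step 0 595 212 (.step 0 165 594 (.step 0 597 212 (.step 0 589 594 (.step 0 599 212 (.step 4 596 2 (.crule [596,598] 9 (.step 0 602 601 (.step 1 600 13 (.step 1 603 5 (.step 1 604 8 (.step 0 529 606 (.step 1 605 12 (.step 0 593 608 (.step 0 609 219 (.step 3 607 5 (.step 1 610 25 (.step 1 611 17 (.step 0 613 612 (.contra 614))))))))))))))))))))))))))))))))))))))))))))))))))))))))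

def cc_79 : CertW :=
  (.step 1 549 12 (.step 0 54 550 (.step 0 259 550 (.step 0 55 550 (.step 1 549 20 (.step 8 549 5 (.step 0 555 530 (.step 0 540 555 (.step 0 557 552 (.split [26,17,18] [28,17,18] cc_78 (.crule [544,559] 35 (.step 0 560 554 (.contra 561)))))))))))))

def cc_80 : CertW :=
  (.step 0 594 606 (.step 0 610 212 (.step 4 608 2 (.crule [608,574] 9 (.step 0 613 612 (.step 1 611 13 (.step 1 614 5 (.step 1 615 8 (.step 0 529 617 (.step 1 616 12 (.step 0 609 619 (.step 0 620 219 (.step 3 618 5 (.step 1 621 25 (.step 1 622 17 (.step 0 624 623 (.contra 625)))))))))))))))))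

def cc_81 : CertW :=
  (.step 1 549 4 (.step 1 549 8 (.step 0 540 551 (.step 0 540 551 (.step 0 553 531 (.step 1 549 16 (.step 0 22 555 (.step 0 556 256 (.step 0 126 555 (.step 0 558 527 (.step 1 549 24 (.step 0 520 560 (.step 0 561 257 (.step 0 170 560 (.step 0 563 257 (.step 1 548 2 (.step 0 565 537 (.step 1 548 10 (.step 0 567 552 (.step 0 567 554 (.step 1 548 12 (.step 0 51 570 (.step 0 54 570 (.step 0 55 570 (.crule [209,557] 19 (.crule [209,557] 30 (.crule [523,559] 19 (.crule [569,568] 7 (.step 0 550 577 (.step 0 578 566 (.crule [31,575] 42 (.crule [525,576] 9 (.step 1 579 5 (.step 1 581 5 (.step 1 582 12 (.step 0 571 584 (.step 0 585 564 (.step 0 572 584 (.step 0 587 564 (.step 0 572 584 (.step 0 589 547 (.step 0 573 584 (.step 0 591 564 (.step 1 583 12 (.step 0 593 564 (.crule [575,588] 36 (.step 1 590 29 (.step 1 592 25 (.step 0 597 596 (.crule [580,595] 48 (.step 1 596 44 (.step 0 599 600 (.step 9 598 11 (.step 0 601 602 (.step 0 603 58 (.step 1 604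 41 (.step 1 605 24 (.step 0 562 606 (.step 0 607 212 (.step 0 606 212 cc_80))))))))))))))))))))))))))))))))))))))))))))))))))))))))))))

def cc_82 : CertW :=
  (.split [21,18] [17,18] cc_79 cc_81)

def cc_83 : CertW :=
  (.step 1 542 37 (.step 3 542 8 (.step 1 543 44 (.step 7 543 8 (.step 0 170 546 (.split [17,18] [21,18] cc_77 cc_82))))))

def cc_84 : CertW :=
  (.step 0 551 543 (.step 1 547 13 (.step 2 548 5 (.step 0 405 554 (.step 0 555 538 (.step 1 549 44 (.crule [551,550] 36 (.step 0 542 558 (.crule [552,551] 42 (.step 1 553 4 (.step 0 561 509 (.crule [556,534] 19 (.step 1 559 33 (.step 0 564 549 (.crule [560,558] 48 (.step 0 566 557 (.step 1 562 1 (.crule [563,536] 7 (.step 9 565 11 (.step 0 567 570 (.step 0 571 58 (.step 1 568 8 (.step 0 529 573 (.step 0 574 545 (.step 1 569 5 (.step 1 572 41 (.step 1 575 29 (.step 1 576 12 (.step 0 579 170 (.step 1 577 24 (.step 0 580 581 (.step 0 582 212 (.step 1 578 12 (.step 0 584 583 (.contra 585)))))))))))))))))))))))))))))))))))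

def cc_85 : CertW :=
  (.step 2 542 8 (.step 0 381 543 (.step 0 544 539 (.step 0 170 543 (.step 0 546 513 (.step 0 407 543 (.step 1 541 37 (.step 3 541 8 (.split [26,17,18] [24,17,18] cc_84 (.crule [551,543] 27 (.step 0 552 157 (.contra 553))))))))))))

def cc_86 : CertW :=
  (.split [36,17,18] [18] cc_83 cc_85)

def cc_87 : CertW :=
  (.step 0 405 533 (.step 1 533 17 (.step 2 533 0 (.step 1 535 2 (.step 1 535 20 (.step 1 535 28 (.step 2 537 0 (.split [18] [36,17,18] cc_75 cc_86))))))))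

def cc_88 : CertW :=
  (.step 0 536 538 (.crule [536,539] 3 (.step 1 540 1 (.step 0 524 541 (.step 0 542 535 (.step 1 541 8 (.step 0 530 544 (.step 0 545 537 (.step 8 543 5 (.step 0 547 546 (.contra 548)))))))))))

def cc_89 : CertW :=
  (.step 0 405 532 (.step 1 533 17 (.step 3 533 0 (.step 1 535 8 (.split [10,3,18] [12,3,18] cc_88 (.crule [538,536] 16 (.step 0 539 534 (.contra 540))))))))

def cc_90 : CertW :=
  (.split [18] [16,3,18] cc_87 cc_89)

def cc_91 : CertW :=
  (.step 0 126 522 (.step 1 522 21 (.step 2 522 2 (.step 1 524 0 (.step 1 524 16 (.step 6 524 2 (.step 0 54 528 (.step 0 259 528 (.step 2 526 2 (.split [16,3,18] [18] cc_73 cc_90))))))))))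

def cc_92 : CertW :=
  (.step 1 521 21 (.step 1 522 21 (.step 3 522 2 (.step 1 523 12 (.step 0 54 526 (.step 0 527 525 (.step 0 55 526 (.step 0 529 525 (.step 1 524 8 (.step 0 528 531 (.step 0 532 255 (.step 0 528 531 (.step 0 534 494 (.step 0 530 531 (.step 0 536 494 (.step 3 533 5 (.step 0 209 538 (.step 1 537 25 (.step 1 538 17 (.crule [209,539] 19 (.step 1 541 28 (.step 0 543 535 (.step 0 254 543 (.step 0 545 535 (.step 5 546 8 (.step 1 547 37 (.step 0 540 548 (.step 1 548 44 (.step 7 548 8 (.step 0 544 551 (.step 9 549 11 (.step 0 550 553 (.step 0 554 246 (.step 0 553 246 (.step 1 552 29 (.step 1 555 45 (.step 1 556 45 (.step 1 557 24 (.step 0 219 560 (.step 1 558 24 (.step 0 520 562 (.step 0 563 212 (.step 1 559 24 (.step 0 561 565 (.step 0 566 212 (.step 4 564 2 (.crule [564,542] 9 (.step 0 569 568 (.step 1 567 13 (.step 1 570 5 (.step 0 572 571 (.contra 573))))))))))))))))))))))))))))))))))))))))))))))))))))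

def cc_93 : CertW :=
  (.split [18] [20,1,18] cc_91 cc_92)

def cc_94 : CertW :=
  (.step 1 515 34 (.step 0 483 516 (.step 1 517 21 (.step 1 518 8 (.step 0 519 492 (.split [20,1,18] [18] cc_71 cc_93))))))

def cc_95 : CertW :=
  (.split [37,2] [35,2] cc_94 (.step 1 515 34 (.step 1 515 42 (.step 8 515 10 (.step 0 511 518 (.step 0 519 517 (.crule [499,516] 58 (.step 0 521 520 (.contra 522)))))))))

def cc_96 : CertW :=
  (.step 0 390 505 (.step 1 498 33 (.step 0 507 473 (.crule [505,506] 9 (.step 9 508 11 (.step 0 510 504 (.step 0 478 510 (.step 0 512 502 (.split [35,2] [37,2] (.step 1 514 34 (.step 1 514 42 (.step 8 514 10 (.step 0 511 517 (.step 0 518 516 (.crule [499,515] 58 (.step 0 520 519 (.contra 521)))))))) cc_95)))))))))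

def cc_97 : CertW :=
  (.step 0 489 395 (.step 1 489 8 (.step 0 491 381 (.step 0 415 491 (.step 0 493 381 (.step 1 489 12 (.step 0 495 481 (.step 1 489 20 (.step 0 497 378 (.step 0 497 476 (.step 9 490 4 (.step 0 487 500 (.step 0 501 495 (.step 0 487 500 (.step 0 503 496 (.split [8,17,2] [12,17,2] cc_96 (.crule [390,505] 12 (.step 0 506 497 (.contra 507)))))))))))))))))))

def cc_98 : CertW :=
  (.step 1 489 28 (.step 0 450 490 (.step 0 408 490 (.step 9 489 5 (.step 0 491 493 (.step 0 494 381 (.step 0 492 493 (.step 0 496 381 (.step 5 497 8 (.step 1 498 37 (.step 7 499 8 (.step 0 495 500 (.step 1 501 29 (.step 0 248 502 (.step 1 502 44 (.step 0 246 504 (.step 9 503 11 (.step 0 506 505 (.contra 507)))))))))))))))))))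

def cc_99 : CertW :=
  (.split [21,2] [17,2] cc_97 cc_98)

def cc_100 : CertW :=
  (.step 1 485 33 (.step 6 486 6 (.split [17,2] [21,2] cc_69 cc_99)))

def cc_101 : CertW :=
  (.step 0 442 485 (.step 0 486 371 (.step 0 413 485 (.step 3 485 6 (.step 5 487 5 (.step 1 488 19 (.split [28,19,2] [24,19,2] (.step 0 492 489 (.step 1 490 29 (.step 1 491 20 (.step 0 421 495 (.crule [493,489] 29 (.step 0 496 497 (.step 0 498 371 (.step 7 494 5 (.step 0 500 499 (.contra 501)))))))))) (.crule [489,492] 27 (.step 0 493 411 (.contra 494))))))))))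

def cc_102 : CertW :=
  (.split [2] [32,19,2] cc_100 cc_101)

def cc_103 : CertW :=
  (.split [32,19,2] [2] cc_68 cc_102)

def cc_104 : CertW :=
  (.step 1 423 19 (.step 7 424 1 (.step 0 399 425 (.step 0 426 386 (.step 0 400 425 (.step 0 428 414 (.step 0 401 425 (.step 0 430 383 (.step 0 401 425 (.step 0 432 414 (.step 0 402 425 (.step 0 434 414 (.step 1 427 13 (.step 1 429 25 (.step 1 431 25 (.step 0 438 299 (.step 1 433 25 (.step 1 436 20 (.step 0 441 413 (.step 0 300 441 (.step 1 436 28 (.step 0 444 307 (.step 0 379 444 (.step 0 446 307 (.step 0 160 444 (.step 0 448 307 (.step 1 437 28 (.step 1 438 28 (.step 0 451 445 (.step 1 438 36 (.step 0 453 300 (.step 9 439 11 (.step 0 301 455 (.step 0 301 455 (.step 0 457 433 (.step 1 440 16 (.crule [39,443] 48 (.step 0 445 460 (.step 0 461 458 (.step 0 452 460 (.step 0 463 456 (.step 0 447 460 (.step 0 465 458 (.step 0 449 460 (.crule [282,454] 48 (.step 0 287 468 (.step 5 464 8 (.step 0 470 459 (.step 5 466 8 (.step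 1 471 37 (.step 1 472 37 (.step 1 473 32 (.step 0 378 475 (.step 1 473 44 (.step 0 469 477 (.step 7 474 8 (.step 0 462 479 (.step 0 435 479 (.step 1 480 29 (.step 1 482 34 cc_103))))))))))))))))))))))))))))))))))))))))))))))))))))))))))))

def cc_105 : CertW :=
  (.step 0 426 430 (.step 1 427 10 (.step 0 426 432 (.step 0 433 384 (.step 4 430 0 (.step 5 431 2 (.crule [430,431] 1 (.step 0 436 437 (.step 0 438 435 (.crule [431,426] 11 (.step 0 436 440 (.step 0 441 423 (.step 1 434 13 (.crule [439,442] 34 (.step 1 443 34 (.step 0 445 429 (.step 4 444 7 (.step 0 447 446 (.contra 448)))))))))))))))))))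

def cc_106 : CertW :=
  (.step 0 422 404 (.step 1 423 19 (.step 2 423 1 (.step 1 422 19 (.step 1 425 20 (.step 0 412 428 (.split [10,5,2] [8,5,2] cc_105 (.crule [426,430] 16 (.step 0 431 424 (.contra 432))))))))))

def cc_107 : CertW :=
  (.split [18,5,2] [2] cc_104 cc_106)

def cc_108 : CertW :=
  (.step 1 371 17 (.step 1 371 19 (.step 1 371 21 (.step 2 371 0 (.step 1 372 2 (.step 1 372 12 (.step 1 372 20 (.step 1 372 28 (.step 6 372 0 (.step 0 380 162 (.step 1 373 10 (.step 0 382 177 (.step 0 382 316 (.step 0 382 179 (.step 0 382 317 (.crule [111,375] 7 (.step 0 108 387 (.step 0 328 387 (.step 2 376 0 (.step 1 387 5 (.step 1 388 3 (.step 1 388 17 (.step 1 388 19 (.step 0 372 394 (.step 1 388 21 (.step 1 389 19 (.step 1 391 2 (.step 1 391 12 (.step 0 187 399 (.step 0 276 399 (.step 0 377 399 (.step 1 391 16 (.step 0 371 403 (.step 1 392 18 (.step 1 393 8 (.step 0 406 381 (.step 1 393 28 (.step 1 394 2 (.step 1 394 16 (.step 0 371 410 (.step 1 394 20 (.step 1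 394 32 (.step 8 395 3 (.step 1 396 8 (.step 1 397 10 (.step 0 416 385 (.step 1 417 27 (.step 0 366 418 (.step 1 418 20 (.step 0 367 420 (.split [2] [18,5,2] cc_67 cc_107)))))))))))))))))))))))))))))))))))))))))))))))))))

def cc_109 : CertW :=
  (.step 1 370 17 (.step 1 371 17 (.step 3 371 0 (.step 1 372 28 (.step 1 373 8 (.step 0 128 376 (.step 0 363 376 (.step 1 373 20 (.step 0 105 379 (.step 1 374 11 (.crule [374,80] 3 (.step 0 382 105 (.step 0 382 356 (.step 0 382 357 (.step 0 382 380 (.step 0 371 382 (.step 0 387 357 (.step 1 383 21 (.step 0 389 373 (.step 1 384 33 (.step 0 391 381 (.step 1 385 33 (.step 4 386 5 (.step 0 376 394 (.step 0 395 375 (.step 1 389 26 (.step 0 397 377 (.step 8 390 5 (.step 0 378 399 (.step 0 398 399 (.step 1 393 40 (.step 1 396 29 (.step 5 401 7 (.step 6 403 5 (.step 0 152 405 (.step 0 406 371 (.step 0 369 405 (.step 0 408 388 (.step 1 404 35 (.step 1 407 35 (.step 0 392 411 (.crule [409,364] 48 (.step 0 402 413 (.step 0 414 400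 (.step 7 410 7 (.step 0 415 416 (.step 8 412 9 (.step 0 418 417 (.contra 419)))))))))))))))))))))))))))))))))))))))))))))))))

def cc_110 : CertW :=
  (.split [2] [16] cc_108 cc_109)

def cc_111 : CertW :=
  (.step 1 366 20 (.step 9 366 7 (.step 0 349 368 (.split [16] [2] cc_64 cc_110))))

def cc_112 : CertW :=
  (.step 0 340 366 (.step 1 366 20 (.step 0 145 368 (.step 1 366 36 (.step 8 366 7 (.step 0 369 371 (.step 9 367 8 (.step 0 370 373 (.step 0 374 352 (.step 1 372 35 (.step 0 289 376 (.step 1 375 37 (.step 0 378 377 (.contra 379))))))))))))))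

def cc_113 : CertW :=
  (.split [29,8] [27,8] cc_111 cc_112)

def cc_114 : CertW :=
  (.step 1 362 44 (.step 3 363 11 (.split [27,8] [29,8] cc_63 cc_113)))

def cc_115 : CertW :=
  (.step 0 455 307 (.step 1 452 36 (.step 0 382 457 (.step 0 458 201 (.step 7 453 1 (.step 0 447 460 (.step 0 461 177 (.step 1 459 5 (.step 1 462 25 (.step 0 464 299 (.step 1 463 12 (.step 0 237 466 (.step 0 467 220 (.step 0 276 466 (.step 0 469 220 (.step 1 463 20 (.step 0 300 471 (.step 0 472 454 (.step 1 463 28 (.step 0 474 456 (.step 9 465 11 (.step 0 301 476 (.step 0 477 470 (.crule [39,473] 48 (.step 0 475 479 (.step 0 480 478 (.step 1 481 29 (.step 1 482 34 (.step 1 482 42 (.step 8 482 10 (.step 0 468 485 (.step 0 486 484 (.crule [224,483] 58 (.step 0 488 487 (.contra 489)))))))))))))))))))))))))))))))))))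

def cc_116 : CertW :=
  (.step 0 368 395 (.step 0 396 384 (.step 1 390 29 (.step 0 398 333 (.step 1 392 29 (.crule [394,342] 42 (.crule [395,387] 48 (.crule [383,397] 56 (.step 0 385 403 (.step 1 398 26 (.step 0 405 335 (.step 9 399 7 (.step 1 400 24 (.step 8 400 8 (.step 4 401 9 (.step 1 402 41 (.step 1 404 43 (.crule [408,406] 33 (.crule [408,406] 44 (.step 1 410 41 (.step 1 411 32 (.step 0 366 416 (.step 0 367 416 (.step 1 412 34 (.step 4 413 5 (.step 5 414 10 (.step 6 415 9 (.step 0 417 422 (.step 0 423 407 (.step 0 418 422 (.step 0 425 407 (.step 1 420 9 (.step 1 421 43 (.step 1 427 28 (.step 6 427 5 (.step 0 152 430 (.step 0 424 430 (.step 0 426 430 (.step 7 428 10 (.step 0 409 434 (.step 0 435 419 (.step 2 429 5 (.step 0 437 175 (.step 1 431 17 (.step 1 432 5 (.step 1 433 17 (.crule [438,174] 19 (.step 1 439 24 (.step 0 219 443 (.step 0 444 314 (.step 1 440 12 (.step 0 276 446 (.step 1 441 34 (.step 0 436 448 (.step 5 442 1 (.step 1 445 13 (.step 1 449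 17 (.step 1 450 5 (.step 1 451 20 (.step 1 451 28 cc_115))))))))))))))))))))))))))))))))))))))))))))))))))))))))))))

def cc_117 : CertW :=
  (.step 1 361 24 (.step 0 344 363 (.step 1 361 32 (.step 0 358 365 (.step 0 360 365 (.step 1 361 34 (.step 7 361 11 (.step 0 358 369 (.step 0 360 369 (.step 1 362 16 (.step 0 372 371 (.step 1 362 26 (.step 0 374 364 (.step 1 362 28 (.step 0 376 345 (.step 0 376 346 (.step 1 362 32 (.step 0 379 369 (.step 1 362 36 (.step 0 370 381 (.step 0 369 381 (.step 0 380 381 (.step 1 362 44 (.step 6 362 11 (.step 0 386 365 (.step 2 373 8 (.step 0 363 388 (.step 0 389 377 (.step 0 363 388 (.step 0 391 376 (.step 0 363 388 (.step 0 393 378 (.split [34,45,8] [32,45,8] cc_116 (.crule [395,380] 39 (.step 0 396 375 (.contra 397))))))))))))))))))))))))))))))))))))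

def cc_118 : CertW :=
  (.split [25,8] [45,8] cc_114 cc_117)

def cc_119 : CertW :=
  (.step 0 339 333 (.step 1 339 24 (.step 0 341 334 (.step 1 339 26 (.step 0 343 335 (.step 1 339 28 (.step 0 345 336 (.step 1 339 32 (.step 1 339 34 (.step 0 348 337 (.step 1 339 42 (.step 6 339 3 (.step 0 351 269 (.step 0 351 330 (.step 8 340 6 (.step 0 142 354 (.step 0 355 347 (.step 0 142 354 (.step 0 143 354 (.step 0 141 354 (.step 0 353 354 (.split [45,8] [25,8] cc_62 cc_118))))))))))))))))))))))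

def cc_120 : CertW :=
  (.step 8 386 5 (.step 1 387 40 (.step 1 389 12 (.step 0 402 400 (.step 1 390 12 (.step 0 399 404 (.step 0 405 403 (.step 7 392 7 (.step 0 406 407 (.step 8 393 9 (.step 0 408 409 (.step 0 410 401 (.crule [382,396] 48 (.step 0 412 411 (.contra 413)))))))))))))))

def cc_121 : CertW :=
  (.step 0 338 333 (.step 1 339 16 (.step 1 339 36 (.step 1 339 44 (.step 1 338 24 (.step 1 338 32 (.step 6 338 3 (.step 0 341 346 (.step 0 341 346 (.step 0 348 329 (.step 8 340 6 (.step 0 142 350 (.step 0 351 345 (.crule [347,349] 15 (.step 0 353 322 (.crule [347,349] 26 (.step 0 344 355 (.step 1 353 9 (.crule [353,354] 3 (.step 1 356 29 (.step 0 359 357 (.step 1 357 0 (.step 0 358 361 (.step 0 362 105 (.step 0 358 361 (.step 0 364 352 (.step 0 358 361 (.step 0 366 82 (.step 1 357 10 (.step 0 368 163 (.step 0 368 250 (.step 1 357 34 (.step 0 371 152 (.step 9 357 0 (.step 0 373 363 (.step 0 373 365 (.step 0 373 367 (.step 6 360 5 (.step 0 152 377 (.step 0 202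 377 (.step 0 379 375 (.step 0 372 377 (.step 0 381 375 (.step 1 369 25 (.step 0 339 383 (.step 1 370 25 (.step 1 374 21 (.step 1 375 33 (.step 0 387 384 (.step 1 376 21 (.step 1 377 21 (.step 1 378 35 (.step 0 386 391 (.step 0 388 391 (.step 1 385 36 (.step 0 342 394 (.step 0 395 380 (.step 1 385 44 (.step 0 343 397 (.step 0 398 231 cc_120))))))))))))))))))))))))))))))))))))))))))))))))))))))))))))

def cc_122 : CertW :=
  (.split [25,8] [11,8] cc_119 cc_121)

def cc_123 : CertW :=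
  (.step 0 123 319 (.step 1 319 10 (.step 1 319 12 (.step 1 319 16 (.step 0 131 323 (.step 1 319 20 (.step 0 119 325 (.step 9 319 1 (.step 0 327 100 (.step 0 327 326 (.step 0 327 144 (.crule [101,321] 9 (.step 0 327 331 (.step 1 330 19 (.step 1 333 24 (.step 1 333 26 (.step 1 333 28 (.step 1 333 34 (.split [11,8] [25,8] cc_58 cc_122)))))))))))))))))))

def cc_124 : CertW :=
  (.step 0 319 99 (.step 1 319 2 (.step 1 319 10 (.step 0 101 322 (.step 1 319 18 (.step 0 324 156 (.step 8 319 1 (.step 0 326 325 (.step 9 320 0 (.step 0 327 328 (.step 0 329 321 (.crule [322,323] 5 (.step 0 331 330 (.contra 332))))))))))))))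

def cc_125 : CertW :=
  (.split [13,8] [11,8] cc_123 cc_124)

def cc_126 : CertW :=
  (.step 9 312 4 (.step 0 8 313 (.step 0 179 313 (.step 0 315 310 (.step 0 179 313 (.split [11,8] [13,8] cc_56 cc_125))))))

def cc_127 : CertW :=
  (.step 1 312 16 (.step 1 312 18 (.step 1 312 20 (.split [16,21,32] [32] (.step 0 313 316 (.split [32] [16,19,32] (.step 0 318 317 (.contra 319)) (.crule [315,318] 28 (.step 0 319 17 (.contra 320))))) (.crule [316,314] 34 (.step 0 317 305 (.contra 318)))))))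

def cc_128 : CertW :=
  (.split [21,32] [19,32] cc_126 cc_127)

def cc_129 : CertW :=
  (.step 1 303 35 (.step 3 303 7 (.step 7 304 7 (.step 0 306 59 (.step 0 306 298 (.step 1 308 29 (.step 1 309 12 (.split [19,32] [21,32] cc_55 cc_128))))))))

def cc_130 : CertW :=
  (.step 1 303 35 (.step 2 303 7 (.step 1 302 35 (.step 1 304 20 (.step 0 74 307 (.step 1 306 26 (.step 0 305 309 (.step 0 310 298 (.step 1 308 35 (.step 0 312 304 (.step 1 311 29 (.step 0 314 313 (.contra 315)))))))))))))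

def cc_131 : CertW :=
  (.split [34,21,32] [32] cc_129 cc_130)

def cc_132 : CertW :=
  (.step 1 289 28 (.step 1 289 36 (.step 9 289 10 (.step 0 292 290 (.crule [291,281] 54 (.step 0 286 294 (.step 0 295 292 (.step 0 60 294 (.step 0 297 293 (.step 1 296 29 (.step 1 299 36 (.step 1 299 44 (.split [32] [34,21,32] (.step 1 302 35 (.step 1 303 20 (.step 0 74 304 (.step 2 304 7 (.step 0 306 298 (.step 1 305 35 (.step 1 307 29 (.step 0 309 308 (.contra 310))))))))) cc_131)))))))))))))

def cc_133 : CertW :=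
  (.step 0 280 289 (.step 1 289 28 (.step 0 40 291 (.step 1 289 32 (.step 0 281 293 (.step 1 289 34 (.step 1 289 42 (.step 8 289 10 (.step 0 292 297 (.step 0 298 296 (.step 0 297 296 (.step 9 290 11 (.step 0 301 277 (.step 0 301 275 (.crule [294,295] 47 (.crule [294,295] 58 (.step 0 299 305 (.step 0 306 303 (.step 0 300 305 (.step 0 308 302 (.step 5 304 8 (.step 1 307 27 (.step 0 288 311 (.step 1 310 17 (.step 0 313 312 (.step 7 313 8 (.step 0 315 309 (.step 8 314 3 (.step 0 317 316 (.contra 318))))))))))))))))))))))))))))))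

def cc_134 : CertW :=
  (.split [37,20] [35,20] cc_132 cc_133)

def cc_135 : CertW :=
  (.step 1 280 32 (.step 1 280 34 (.step 1 280 40 (.step 8 280 9 (.step 0 37 284 (.step 0 285 283 (.step 0 161 284 (.split [35,20] [37,20] cc_54 cc_134))))))))

def cc_136 : CertW :=
  (.step 1 279 24 (.step 0 278 281 (.step 1 280 26 (.step 0 283 282 (.step 1 280 32 (.split [36,35,20] [32,35,20] (.step 0 286 285 (.split [20] [36,35,20] (.step 0 288 287 (.contra 289)) (.crule [288,285] 41 (.step 0 289 40 (.contra 290))))) (.crule [285,286] 39 (.step 0 287 284 (.contra 288)))))))))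

def cc_137 : CertW :=
  (.split [33,20] [35,20] cc_135 cc_136)

def cc_138 : CertW :=
  (.step 1 271 33 (.step 1 272 18 (.step 1 272 24 (.step 6 272 6 (.step 0 275 48 (.step 0 275 266 (.step 2 273 6 (.split [35,20] [33,20] cc_53 cc_137))))))))

def cc_139 : CertW :=
  (.step 1 418 24 (.step 0 426 425 (.contra 427)))

def cc_140 : CertW :=
  (.step 1 352 35 (.step 1 353 40 (.step 6 353 6 (.step 0 368 333 (.step 1 355 4 (.step 0 370 112 (.step 0 370 143 (.step 4 358 8 (.step 0 350 373 (.step 1 360 29 (.crule [362,337] 44 (.step 1 363 1 (.step 7 364 7 (.step 0 331 378 (.step 1 366 42 (.step 1 371 1 (.step 1 372 19 (.step 0 353 382 (.step 0 383 366 (.step 1 373 37 (.step 0 385 365 (.crule [374,39] 54 (.step 1 375 34 (.step 0 388 224 (.step 9 375 10 (.step 0 387 390 (.step 0 391 206 (.crule [376,354] 54 (.step 0 367 393 (.step 6 377 2 (.step 0 369 395 (.step 1 381 8 (.step 0 396 397 (.step 0 396 397 (.step 0 399 379 (.step 1 382 42 (.step 0 394 401 (.step 0 402 380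 (.step 8 384 9 (.step 0 379 404 (.step 0 379 404 (.step 0 406 403 (.step 0 400 404 (.step 6 385 8 (.step 9 386 10 (.step 0 407 410 (.step 0 411 409 (.crule [389,224] 48 (.step 0 413 345 (.step 1 398 25 (.step 1 405 41 (.step 1 412 25 (.step 1 414 41 (.step 1 415 40 (.step 0 408 419 (.step 1 416 24 (.step 0 421 420 (.step 1 417 40 (.step 0 422 423 (.step 0 424 392 cc_139))))))))))))))))))))))))))))))))))))))))))))))))))))))))))))

def cc_141 : CertW :=
  (.step 0 305 267 (.step 1 291 21 (.step 0 307 171 (.step 4 291 5 (.crule [293,174] 30 (.step 1 295 16 (.step 0 311 294 (.step 1 295 24 (.step 0 313 279 (.step 1 295 34 (.step 0 315 298 (.step 1 296 5 (.step 1 300 37 (.step 1 302 21 (.step 1 303 0 (.step 8 304 5 (.step 0 321 176 (.crule [306,267] 9 (.step 0 263 323 (.step 0 324 320 (.step 1 307 16 (.step 1 307 18 (.step 0 327 155 (.step 1 307 26 (.step 0 329 128 (.step 8 307 5 (.step 0 330 331 (.step 9 308 4 (.step 1 309 29 (.step 0 334 139 (.step 4 310 6 (.crule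 [312,293] 32 (.step 3 316 7 (.step 7 317 1 (.step 0 339 282 (.step 1 318 24 (.step 0 206 341 (.step 0 342 279 (.step 1 319 12 (.step 0 238 344 (.step 1 325 1 (.crule [326,328] 21 (.step 5 332 7 (.step 6 334 5 (.step 0 152 349 (.step 9 335 7 (.step 0 351 349 (.step 1 336 33 (.crule [337,310] 42 (.step 1 340 13 (.step 1 346 8 (.step 0 276 356 (.step 0 357 321 (.step 0 343 356 (.step 0 359 321 (.step 0 314 356 (.step 0 361 322 (.step 4 347 2 (.step 1 348 35 (.step 1 350 35 cc_140))))))))))))))))))))))))))))))))))))))))))))))))))))))))))))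

def cc_142 : CertW :=
  (.step 0 274 287 (.step 1 278 13 (.step 3 280 3 (.step 0 84 290 (.step 0 84 290 (.step 0 292 175 (.step 0 290 175 (.step 1 284 11 (.step 5 286 1 (.crule [287,273] 42 (.step 0 297 272 (.step 4 288 8 (.step 0 191 299 (.step 1 289 4 (.step 0 301 117 (.step 1 290 17 (.step 0 83 303 (.split [8,19,20] [10,19,20] cc_141 (.crule [267,305] 18 (.step 0 306 290 (.contra 307)))))))))))))))))))))

def cc_143 : CertW :=
  (.step 0 271 175 (.step 2 270 6 (.step 3 271 6 (.step 0 87 274 (.step 0 275 79 (.step 0 221 274 (.step 0 277 48 (.step 0 274 79 (.step 0 274 266 (.step 0 178 274 (.step 0 281 48 (.step 0 178 274 (.step 0 283 266 (.step 0 178 274 (.step 0 285 173 (.split [26,19,20] [28,19,20] cc_142 (.crule [287,274] 29 (.step 0 288 86 (.contra 289)))))))))))))))))))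

def cc_144 : CertW :=
  (.split [20] [32,19,20] cc_138 cc_143)

def cc_145 : CertW :=
  (.step 1 261 19 (.step 1 262 4 (.step 7 262 1 (.step 0 133 264 (.step 0 134 264 (.step 3 263 1 (.step 1 265 11 (.step 1 268 18 (.split [32,19,20] [20] cc_52 cc_144)))))))))

def cc_146 : CertW :=
  (.step 1 323 29 (.step 1 327 29 (.step 5 329 10 (.step 0 332 37 (.crule [329,39] 54 (.step 0 59 334 (.step 0 335 333 (.step 1 330 24 (.step 0 206 337 (.step 9 330 10 (.step 0 339 338 (.step 1 331 36 (.step 1 336 27 (.step 1 342 34 (.step 0 343 341 (.step 4 344 11 (.step 0 340 345 (.crule [344,329] 56 (.step 0 347 346 (.contra 348))))))))))))))))))))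

def cc_147 : CertW :=
  (.step 0 269 264 (.step 4 269 2 (.crule [269,265] 9 (.step 5 270 0 (.step 0 135 273 (.crule [270,269] 3 (.step 0 273 275 (.step 0 276 271 (.crule [264,270] 5 (.step 0 274 278 (.step 0 273 278 (.step 0 273 278 (.step 0 281 261 (.step 1 278 3 (.step 1 279 17 (.step 4 279 5 (.step 1 280 17 (.step 0 263 286 (.step 5 282 3 (.step 0 137 288 (.crule [282,277] 26 (.step 1 283 0 (.step 0 272 291 (.step 1 283 4 (.step 1 283 10 (.step 0 289 294 (.step 0 288 294 (.step 0 266 294 (.step 1 284 20 (.step 8 284 5 (.step 1 285 29 (.step 1 286 18 (.step 0 261 301 (.step 9 287 3 (.step 0 303 297 (.step 4 290 8 (.step 0 268 305 (.crule [293,292] 6 (.step 6 300 5 (.step 0 152 308 (.crule [302,298] 26 (.step 1 306 37 (.step 5 307 0 (.step 4 310 8 (.step 1 311 24 (.step 0 206 314 (.step 0 315 296 (.step 1 312 17 (.step 1 313 37 (.step 7 317 0 (.step 0 295 319 (.step 0 320 299 (.step 0 316 319 (.step 0 322 299 (.step 0 304 319 (.step 0 324 299 (.step 6 318 8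 (.step 0 326 325 (.step 4 321 8 (.step 0 309 328 cc_146))))))))))))))))))))))))))))))))))))))))))))))))))))))))))))

def cc_148 : CertW :=
  (.step 0 260 136 (.step 1 261 19 (.step 2 261 1 (.step 3 260 1 (.step 1 263 10 (.step 1 263 16 (.step 0 191 267 (.split [8,5,20] [12,5,20] cc_147 (.crule [269,264] 22 (.step 0 270 262 (.contra 271)))))))))))

def cc_149 : CertW :=
  (.split [18,5,20] [20] cc_145 cc_148)

def cc_150 : CertW :=
  (.step 1 223 32 (.step 1 223 36 (.step 1 223 44 (.step 9 223 11 (.step 0 203 227 (.step 0 228 212 (.step 0 203 227 (.step 0 230 214 (.step 0 226 227 (.step 0 232 186 (.step 0 226 227 (.step 0 234 212 (.step 0 226 227 (.step 0 227 187 (.step 0 227 212 (.crule [68,225] 48 (.step 0 56 239 (.step 0 240 233 (.step 0 57 239 (.step 0 242 235 (.step 0 58 239 (.step 0 244 236 (.step 0 58 239 (.step 1 241 27 (.step 1 245 25 (.step 1 247 10 (.step 0 249 196 (.step 1 247 18 (.step 1 251 17 (.step 1 251 21 (.step 1 252 28 (.step 1 253 8 (.step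 1 253 16 (.step 1 253 24 (.step 1 253 28 (.step 0 258 54 (.split [20] [18,5,20] cc_46 cc_149)))))))))))))))))))))))))))))))))))))

def cc_151 : CertW :=
  (.split [33,34] [37,34] cc_150 (.step 1 223 32 (.step 1 223 34 (.step 0 225 68 (.split [34] [34,37,34] (.step 0 227 226 (.contra 228)) (.crule [224,227] 45 (.step 0 228 206 (.contra 229))))))))

def cc_152 : CertW :=
  (.step 1 208 18 (.step 1 208 20 (.step 9 208 4 (.step 0 186 211 (.step 0 186 211 (.step 0 213 150 (.crule [210,190] 19 (.step 5 215 1 (.step 1 216 5 (.step 7 217 1 (.step 0 218 196 (.step 0 218 205 (.step 0 218 197 (.split [37,34] [33,34] (.step 1 222 32 (.step 1 222 34 (.step 0 224 68 (.split [34] [34,37,34] (.step 0 226 225 (.contra 227)) (.crule [223,226] 45 (.step 0 227 206 (.contra 228))))))) cc_151))))))))))))))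

def cc_153 : CertW :=
  (.split [21,34] [19,34] cc_152 (.step 1 208 16 (.step 0 190 209 (.step 1 208 18 (.split [18,21,34] [34] (.step 0 212 211 (.contra 213)) (.crule [210,212] 34 (.step 0 213 31 (.contra 214))))))))

def cc_154 : CertW :=
  (.step 1 199 16 (.step 1 199 36 (.step 0 201 152 (.step 1 199 44 (.step 7 199 8 (.step 0 196 204 (.step 3 200 8 (.split [19,34] [21,34] (.step 1 207 16 (.step 0 190 208 (.step 1 207 18 (.split [18,21,34] [34] (.step 0 211 210 (.contra 212)) (.crule [209,211] 34 (.step 0 212 31 (.contra 213))))))) cc_153))))))))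

def cc_155 : CertW :=
  (.step 1 270 24 (.step 0 196 280 (.step 0 281 8 (.step 0 275 280 (.step 0 283 8 (.step 1 271 1 (.step 7 272 1 (.step 0 286 282 (.step 5 279 7 (.step 1 284 27 (.step 6 285 2 (.step 0 257 290 (.step 1 288 21 (.step 0 292 289 (.step 1 291 9 (.step 7 292 7 (.step 0 295 277 (.step 9 293 4 (.step 0 287 297 (.step 1 294 0 (.step 0 259 299 (.step 1 296 29 (.step 1 298 13 (.step 0 302 301 (.step 1 300 5 (.step 0 304 303 (.contra 305)))))))))))))))))))))))))))

def cc_156 : CertW :=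
  (.step 0 203 219 (.step 0 220 209 (.step 0 203 219 (.step 0 222 213 (.crule [219,218] 36 (.step 0 204 224 (.step 0 225 214 (.crule [223,221] 31 (.crule [212,223] 33 (.step 0 228 193 (.crule [223,221] 42 (.crule [212,223] 44 (.step 0 231 204 (.step 1 224 33 (.crule [227,192] 19 (.step 1 228 21 (.step 0 235 189 (.crule [228,227] 21 (.crule [229,190] 19 (.crule [230,226] 48 (.step 0 216 239 (.step 0 240 205 (.step 1 232 35 (.step 0 199 242 (.step 1 233 40 (.step 0 57 244 (.step 0 245 241 (.step 9 233 11 (.step 0 246 247 (.step 0 248 186 (.step 1 235 8 (.step 8 235 5 (.step 0 251 129 (.step 0 251 249 (.step 0 250 251 (.step 0 254 249 (.step 9 236 4 (.step 0 253 256 (.step 0 255 256 (.crule [237,234] 9 (.step 5 238 1 (.step 1 242 28 (.step 0 211 261 (.step 0 262 75 (.step 1 242 36 (.step 0 215 264 (.step 9 243 10 (.step 0 266 217 (.step 0 266 211 (.step 0 266 263 (.step 1 252 9 (.step 4 258 2 (.step 1 260 5 (.crule [265,39] 54 (.step 0 59 273 (.step 0 274 267 (.step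 0 59 273 (.step 0 276 268 (.step 0 59 273 (.step 0 278 269 cc_155))))))))))))))))))))))))))))))))))))))))))))))))))))))))))))

def cc_157 : CertW :=
  (.step 1 198 16 (.step 0 192 200 (.step 1 198 24 (.step 1 198 26 (.step 1 198 36 (.step 1 198 44 (.step 7 198 8 (.step 1 199 18 (.step 0 207 201 (.step 1 199 24 (.step 0 209 206 (.step 1 199 28 (.step 0 206 211 (.step 0 210 211 (.step 1 199 32 (.step 1 199 36 (.step 1 199 40 (.step 6 199 8 (.step 0 217 202 (.split [26,37,34] [24,37,34] cc_156 (.crule [219,210] 27 (.step 0 220 208 (.contra 221)))))))))))))))))))))))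

def cc_158 : CertW :=
  (.split [17,34] [37,34] cc_154 cc_157)

def cc_159 : CertW :=
  (.step 1 189 16 (.step 0 190 32 (.step 1 189 18 (.step 1 189 20 (.step 1 189 24 (.step 0 194 33 (.step 8 189 3 (.step 0 196 195 (.split [37,34] [17,34] cc_42 cc_158)))))))))

def cc_160 : CertW :=
  (.step 1 257 13 (.step 1 258 1 (.step 1 259 4 (.step 0 262 212 (.step 1 260 4 (.step 0 264 263 (.step 6 261 2 (.step 0 211 266 (.step 1 265 1 (.step 1 267 9 (.step 0 269 268 (.contra 270))))))))))))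

def cc_161 : CertW :=
  (.step 0 199 196 (.step 1 199 21 (.step 0 201 189 (.crule [199,191] 19 (.step 0 190 203 (.step 0 204 193 (.crule [195,200] 15 (.step 0 206 205 (.crule [195,200] 26 (.step 8 202 5 (.step 0 209 129 (.step 0 209 54 (.crule [207,205] 9 (.step 4 208 8 (.step 1 210 9 (.step 1 213 37 (.step 0 215 214 (.step 1 214 10 (.step 0 198 217 (.step 0 218 164 (.step 1 214 18 (.step 0 195 220 (.step 1 214 28 (.step 0 222 75 (.step 1 214 36 (.step 0 213 224 (.step 1 215 28 (.step 0 226 223 (.step 6 215 8 (.step 0 228 219 (.step 9 216 10 (.step 0 230 226 (.step 0 230 229 (.step 0 230 227 (.step 1 221 35 (.step 0 92 234 (.crule [225,39] 54 (.step 0 59 236 (.step 0 237 231 (.step 0 59 236 (.step 0 239 232 (.step 0 59 236 (.step 0 241 233 (.step 0 61 236 (.step 0 243 231 (.step 7 235 7 (.step 0 245 244 (.step 1 240 27 (.step 5 242 7 (.step 1 246 29 (.step 1 248 21 (.step 0 250 247 (.step 1 249 8 (.step 0 252 211 (.step 7 250 7 (.step 0 254 238 (.step 9 251 4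 (.step 0 169 256 (.step 4 253 2 (.step 1 255 29 cc_160))))))))))))))))))))))))))))))))))))))))))))))))))))))))))))

def cc_162 : CertW :=
  (.step 1 188 10 (.step 1 188 16 (.step 1 189 10 (.step 1 189 12 (.step 1 189 16 (.step 1 189 18 (.step 1 189 20 (.step 9 189 3 (.step 0 197 192 (.split [34] [20,19,34] cc_161 (.crule [199,194] 28 (.step 0 200 183 (.contra 201)))))))))))))

def cc_163 : CertW :=
  (.split [17,34] [19,34] cc_159 cc_162)

def cc_164 : CertW :=
  (.step 1 181 33 (.step 2 181 6 (.step 1 182 40 (.step 0 56 184 (.step 6 182 6 (.step 0 186 49 (.split [19,34] [17,34] cc_40 cc_163)))))))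

def cc_165 : CertW :=
  (.step 1 261 8 (.step 0 267 252 (.step 1 262 21 (.step 7 263 7 (.step 0 270 255 (.step 0 270 256 (.step 1 264 0 (.step 9 266 4 (.step 0 164 274 (.step 0 169 274 (.step 4 268 2 (.step 1 269 10 (.step 0 278 275 (.step 1 271 29 (.step 1 272 29 (.step 1 276 13 (.step 1 277 1 (.step 1 280 8 (.step 0 284 241 (.step 1 281 0 (.step 0 286 273 (.step 1 282 4 (.step 6 283 2 (.step 0 242 289 (.crule [285,279] 9 (.step 0 288 291 (.step 0 292 287 (.step 1 290 9 (.step 1 293 1 (.step 0 295 294 (.contra 296)))))))))))))))))))))))))))))))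

def cc_166 : CertW :=
  (.step 0 199 206 (.step 0 207 191 (.step 1 203 24 (.step 0 209 159 (.step 7 205 7 (.step 0 211 61 (.crule [206,195] 31 (.step 0 192 213 (.step 0 214 186 (.crule [185,208] 27 (.crule [185,208] 38 (.step 0 180 217 (.step 0 218 202 (.step 0 180 217 (.step 1 215 21 (.step 1 216 17 (.step 0 221 222 (.step 1 219 37 (.step 5 219 10 (.step 0 225 37 (.step 0 225 75 (.crule [219,39] 54 (.step 0 198 228 (.step 0 59 228 (.step 0 59 228 (.step 0 231 226 (.step 0 59 228 (.step 0 233 227 (.step 0 212 228 (.step 1 220 37 (.step 0 236 222 (.step 1 222 8 (.step 1 222 28 (.step 8 223 5 (.step 0 240 53 (.step 0 240 54 (.step 0 238 240 (.step 0 243 54 (.step 9 224 10 (.step 0 229 245 (.step 0 230 245 (.step 0 235 245 (.step 1 232 27 (.step 5 234 7 (.step 1 236 8 (.step 0 251 244 (.step 1 236 28 (.step 0 247 253 (.step 0 254 239 (.step 0 247 253 (.step 6 237 8 (.step 0 246 257 (.step 0 247 257 (.step 0 259 210 (.step 1 248 29 (.step 1 249 34 (.step 1 250 21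 (.step 1 258 25 (.step 1 260 27 (.step 0 263 265 cc_165))))))))))))))))))))))))))))))))))))))))))))))))))))))))))))

def cc_167 : CertW :=
  (.step 1 180 33 (.step 2 180 6 (.step 1 181 33 (.step 3 181 6 (.step 1 182 20 (.step 1 182 24 (.step 0 187 185 (.step 1 182 26 (.step 0 189 183 (.step 1 182 28 (.step 1 184 18 (.step 0 192 64 (.step 1 184 24 (.step 0 190 194 (.step 1 184 26 (.step 0 185 196 (.step 0 197 66 (.step 0 185 196 (.step 0 188 196 (.step 1 184 36 (.step 0 201 69 (.step 1 193 17 (.step 1 193 35 (.step 0 92 204 (.split [26,33,34] [28,33,34] cc_166 (.crule [206,200] 40 (.step 0 207 68 (.contra 208))))))))))))))))))))))))))))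

def cc_168 : CertW :=
  (.split [34] [32,19,34] cc_164 cc_167)

def cc_169 : CertW :=
  (.step 1 154 16 (.step 0 103 155 (.step 1 154 18 (.step 1 154 24 (.step 0 158 8 (.step 1 154 28 (.step 0 160 37 (.step 8 154 3 (.step 0 162 158 (.step 0 162 159 (.step 0 21 162 (.step 0 63 162 (.step 0 166 159 (.step 0 110 162 (.step 0 168 159 (.step 0 110 162 (.step 1 155 19 (.step 1 171 12 (.step 0 48 172 (.step 1 171 16 (.step 1 171 20 (.step 1 171 28 (.step 8 171 3 (.step 0 177 87 (.step 0 177 8 (.split [32,19,34] [34] cc_35 cc_168))))))))))))))))))))))))))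

def cc_170 : CertW :=
  (.step 0 163 214 (.step 8 202 5 (.step 0 215 216 (.step 1 203 40 (.step 0 218 213 (.step 6 204 8 (.step 0 199 220 (.step 0 221 217 (.step 7 207 7 (.step 0 222 223 (.step 9 209 10 (.step 0 225 224 (.step 8 211 9 (.step 0 226 227 (.step 0 228 219 (.step 1 212 42 (.step 0 230 229 (.contra 231))))))))))))))))))

def cc_171 : CertW :=
  (.step 0 154 91 (.step 1 154 8 (.step 0 156 93 (.step 1 154 16 (.step 0 158 85 (.step 0 158 148 (.step 1 154 24 (.step 9 154 3 (.step 0 161 162 (.step 8 155 5 (.step 0 157 164 (.step 1 153 16 (.step 1 153 24 (.step 0 167 146 (.step 8 153 3 (.step 0 169 168 (.crule [158,159] 15 (.step 0 171 170 (.crule [158,159] 26 (.step 1 165 29 (.step 0 174 139 (.step 1 166 37 (.step 5 171 0 (.crule [171,80] 3 (.step 0 178 105 (.step 0 178 142 (.step 4 172 6 (.step 0 180 181 (.step 4 173 8 (.step 0 183 149 (.step 6 174 5 (.step 0 152 185 (.step 0 186 177 (.step 0 152 185 (.step 0 188 158 (.step 0 185 177 (.step 0 185 158 (.step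 0 185 160 (.step 0 185 184 (.step 9 175 7 (.step 0 194 190 (.step 0 194 191 (.step 0 194 192 (.step 0 194 193 (.step 1 176 28 (.step 1 177 17 (.step 1 179 21 (.step 0 201 200 (.step 1 182 33 (.step 1 183 37 (.step 0 176 204 (.step 1 187 35 (.step 0 201 206 (.step 1 189 35 (.step 0 205 208 (.step 1 195 35 (.step 0 203 210 (.step 1 196 35 (.crule [198,197] 54 (.step 7 200 0 cc_170))))))))))))))))))))))))))))))))))))))))))))))))))))))))))))

def cc_172 : CertW :=
  (.split [17,18] [] cc_169 cc_171)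

def cc_173 : CertW :=
  (.step 1 107 4 (.step 0 103 108 (.step 7 107 1 (.step 3 108 1 (.crule [80,111] 9 (.step 0 108 112 (.step 0 108 112 (.step 0 114 82 (.step 0 112 105 (.step 0 112 82 (.step 0 100 112 (.step 0 118 82 (.step 0 109 112 (.step 0 120 82 (.step 1 113 1 (.step 1 115 21 (.step 1 116 5 (.step 5 121 4 (.step 1 122 18 (.step 1 123 12 (.step 0 50 127 (.step 0 54 127 (.step 0 98 127 (.step 1 123 16 (.step 1 124 12 (.step 0 102 132 (.step 0 48 132 (.step 1 124 16 (.step 1 124 20 (.step 1 124 24 (.step 1 125 27 (.step 1 128 27 (.step 1 129 29 (.step 7 138 4 (.step 0 82 141 (.step 0 117 141 (.step 0 119 141 (.step 1 139 20 (.step 1 139 24 (.step 1 139 32 (.step 0 1 147 (.step 1 139 36 (.step 1 140 12 (.step 1 140 16 (.step 1 140 20 (.split [] [17,18] cc_31 cc_172))))))))))))))))))))))))))))))))))))))))))))))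

def cc_174 : CertW :=
  (.crule [134,96] 32 (.step 1 135 12 (.step 0 50 144 (.step 7 136 0 (.step 0 141 146 (.step 8 138 5 (.step 0 147 148 (.step 1 139 29 (.step 1 140 28 (.step 4 142 8 (.crule [142,29] 44 (.step 5 143 7 (.step 1 145 27 (.step 0 150 155 (.step 6 150 5 (.step 1 152 37 (.step 1 153 37 (.crule [153,39] 54 (.step 0 61 160 (.step 1 154 35 (.step 1 155 34 (.step 9 156 7 (.step 0 163 164 (.step 0 165 157 (.step 6 158 8 (.step 0 167 149 (.step 9 159 10 (.step 0 161 169 (.step 7 162 7 (.step 0 151 171 (.step 0 172 170 (.step 1 166 37 (.step 1 168 29 (.step 0 174 175 (.step 1 173 29 (.step 0 177 176 (.contra 178)))))))))))))))))))))))))))))))))))))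

def cc_175 : CertW :=
  (.step 1 107 4 (.step 1 107 12 (.step 0 102 109 (.step 6 107 1 (.step 1 106 0 (.step 0 112 82 (.step 1 106 8 (.step 0 114 110 (.step 1 106 10 (.step 0 116 111 (.step 7 106 1 (.step 0 110 118 (.step 0 109 118 (.crule [115,117] 9 (.step 0 121 113 (.step 5 119 0 (.step 0 95 123 (.crule [119,80] 3 (.step 0 125 105 (.step 0 123 125 (.step 0 127 105 (.crule [120,119] 5 (.step 0 129 108 (.step 0 123 129 (.step 0 131 108 (.step 0 124 129 (.step 0 133 108 (.step 1 122 21 (.step 1 123 17 (.step 1 126 21 (.step 0 137 136 (.step 4 128 5 (.step 1 130 21 (.step 5 132 3 (.split [24] [28] cc_174 (.crule [0,142] 25 (.step 0 143 132 (.contra 144))))))))))))))))))))))))))))))))))))))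

def cc_176 : CertW :=
  (.split [5,18] [] cc_173 cc_175)

def cc_177 : CertW :=
  (.step 1 99 4 (.step 1 99 8 (.step 1 99 12 (.step 1 99 18 (.step 1 99 20 (.step 0 82 104 (.split [] [5,18] cc_27 cc_176)))))))

def cc_178 : CertW :=
  (.step 1 111 28 (.step 6 111 0 (.step 1 112 8 (.step 0 119 118 (.step 1 112 28 (.step 0 94 121 (.step 0 122 117 (.step 9 113 5 (.step 0 124 120 (.step 0 123 124 (.step 0 126 120 (.step 0 30 124 (.step 0 128 120 (.step 8 115 3 (.step 0 125 130 (.step 0 127 130 (.step 0 129 130 (.crule [0,116] 36 (.step 5 132 8 (.step 1 133 25 (.crule [39,134] 48 (.step 0 72 137 (.step 1 135 37 (.step 0 136 139 (.step 7 139 8 (.step 0 131 141 (.step 9 140 11 (.step 0 143 138 (.step 1 142 29 (.step 1 144 45 (.step 0 146 145 (.contra 147))))))))))))))))))))))))))))))))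

def cc_179 : CertW :=
  (.step 0 104 100 (.step 4 105 0 (.crule [105,100] 1 (.step 0 103 107 (.step 0 103 107 (.step 0 109 106 (.step 1 106 17 (.step 1 108 17 (.step 0 112 111 (.step 0 91 112 (.step 0 114 111 (.split [28] [24] cc_178 (.crule [116,29] 33 (.step 0 117 110 (.contra 118)))))))))))))))

def cc_180 : CertW :=
  (.step 1 99 12 (.step 1 99 20 (.step 9 99 2 (.step 0 101 102 (.split [10] [12] cc_179 (.crule [100,104] 22 (.step 0 105 85 (.contra 106))))))))

def cc_181 : CertW :=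
  (.step 1 83 16 (.step 1 83 18 (.step 1 83 20 (.step 1 83 24 (.step 1 83 26 (.step 0 26 88 (.step 0 89 48 (.step 1 85 17 (.step 1 85 21 (.step 1 91 8 (.step 1 91 28 (.step 1 92 16 (.step 1 92 18 (.step 1 92 26 (.step 0 97 50 (.split [13,8] [] cc_177 cc_180))))))))))))))))

def cc_182 : CertW :=
  (.step 1 83 18 (.split [18] [16] (.step 0 84 85 (.split [16] [20] (.step 0 87 86 (.contra 88)) (.crule [87,84] 34 (.step 0 88 29 (.contra 89))))) (.crule [84,85] 28 (.step 0 86 0 (.contra 87)))))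

def cc_183 : CertW :=
  (.step 1 76 0 (.step 6 76 2 (.step 0 48 78 (.step 2 77 2 (.step 1 80 13 (.step 8 81 2 (.split [] [19,20] cc_181 cc_182)))))))

def cc_184 : CertW :=
  (.step 1 62 10 (.step 1 62 18 (.step 1 62 26 (.step 0 65 46 (.step 1 62 32 (.step 1 62 34 (.step 1 62 36 (.step 1 62 40 (.step 0 57 70 (.step 0 58 70 (.step 1 67 35 (.step 1 73 20 (.step 1 73 28 (.split [1,20] [] cc_24 cc_183))))))))))))))

def cc_185 : CertW :=
  (.step 1 62 32 (.split [36] [32] (.step 0 64 63 (.split [34] [36] (.step 0 66 65 (.contra 67)) (.crule [66,63] 41 (.step 0 67 29 (.contra 68))))) (.crule [63,64] 39 (.step 0 65 0 (.contra 66)))))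

def cc_186 : CertW :=
  (.step 1 20 10 (.step 1 20 18 (.step 1 20 20 (.step 1 20 26 (.step 1 20 34 (.step 7 20 7 (.step 1 23 19 (.step 1 23 35 (.step 3 23 7 (.step 0 13 29 (.step 3 25 7 (.step 1 27 16 (.step 1 27 24 (.step 1 27 26 (.step 1 28 20 (.step 1 28 40 (.step 7 28 7 (.crule [29,0] 31 (.crule [29,0] 42 (.step 3 35 7 (.step 1 38 17 (.step 1 38 19 (.step 1 38 21 (.step 1 39 33 (.step 1 39 35 (.step 4 39 9 (.step 1 41 28 (.step 9 42 4 (.step 0 34 48 (.step 9 43 4 (.step 0 24 50 (.step 0 26 50 (.step 0 52 10 (.step 0 26 50 (.step 0 13 50 (.step 8 44 9 (.step 0 26 56 (.step 0 13 56 (.step 8 45 9 (.step 0 59 36 (.step 0 14 59 (.split [33,34] [] cc_184 cc_185))))))))))))))))))))))))))))))))))))))))))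

def cc_187 : CertW :=
  (.step 1 139 25 (.step 1 140 37 (.step 0 141 142 (.step 7 142 8 (.step 0 137 144 (.step 9 143 11 (.step 0 146 61 (.step 0 146 75 (.step 1 145 29 (.step 1 149 32 (.step 0 1 150 (.step 1 149 40 (.step 0 147 152 (.step 1 149 42 (.step 0 148 154 (.split [42,37,18] [44,37,18] (.step 0 156 155 (.contra 157)) (.crule [153,156] 59 (.step 0 157 151 (.contra 158)))))))))))))))))))

def cc_188 : CertW :=
  (.step 6 63 6 (.step 0 81 79 (.step 0 81 80 (.step 8 64 3 (.step 5 65 1 (.step 1 66 18 (.step 0 86 48 (.step 1 66 20 (.step 9 66 5 (.step 0 37 89 (.step 8 69 3 (.step 4 70 0 (.crule [65,70] 7 (.step 0 85 93 (.step 1 71 44 (.step 0 76 95 (.step 8 71 10 (.step 0 97 96 (.step 7 72 8 (.step 0 91 99 (.step 0 100 98 (.step 9 73 11 (.step 0 101 102 (.step 0 103 82 (.step 0 101 102 (.step 0 105 83 (.crule [87,88] 13 (.step 1 92 17 (.step 1 94 17 (.step 5 106 1 (.step 4 107 0 (.step 1 108 20 (.step 0 112 22 (.step 6 108 0 (.step 0 114 84 (.step 1 109 28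 (.step 1 110 5 (.step 1 111 3 (.step 7 117 1 (.step 0 119 104 (.step 6 118 0 (.step 0 89 121 (.step 0 122 56 (.step 0 90 121 (.step 0 124 56 (.step 1 120 13 (.step 1 126 4 (.step 0 127 93 (.step 0 113 127 (.step 0 129 93 (.step 1 128 3 (.step 5 130 5 (.step 0 116 132 (.step 0 133 115 (.step 1 131 10 (.step 0 123 135 (.step 0 136 84 (.step 0 125 135 (.step 0 138 84 (.step 5 134 8 cc_187))))))))))))))))))))))))))))))))))))))))))))))))))))))))))))

def cc_189 : CertW :=
  (.step 1 20 18 (.step 1 20 20 (.step 1 20 24 (.step 0 0 23 (.step 1 20 26 (.step 0 13 25 (.step 1 20 28 (.step 1 20 34 (.step 6 20 7 (.step 0 13 29 (.step 1 19 12 (.step 1 19 20 (.step 1 19 26 (.step 0 33 24 (.step 0 33 29 (.step 1 19 28 (.step 0 30 36 (.step 1 19 32 (.step 1 19 40 (.step 7 19 7 (.step 0 27 40 (.step 0 41 0 (.step 0 27 40 (.step 1 22 3 (.step 1 32 17 (.crule [35,34] 31 (.step 0 21 46 (.step 0 47 32 (.crule [35,34] 42 (.step 0 28 49 (.step 0 50 38 (.crule [0,42] 25 (.crule [0,42]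 36 (.crule [42,43] 35 (.crule [42,43] 46 (.step 1 44 10 (.step 1 46 19 (.step 0 20 57 (.step 4 49 9 (.step 0 26 59 (.step 0 60 39 (.step 1 51 33 (.step 0 62 58 (.step 1 52 17 (.crule [48,52] 19 (.step 1 54 17 (.step 0 45 66 (.step 0 45 66 (.step 0 68 58 (.crule [52,54] 13 (.step 1 55 37 (.step 0 67 71 (.step 0 62 71 (.step 4 55 10 (.step 0 37 74 (.crule [53,55] 58 (.step 1 57 12 (.step 9 57 4 (.step 0 78 31 (.step 0 78 77 cc_188))))))))))))))))))))))))))))))))))))))))))))))))))))))))))))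

def cc_190 : CertW :=
  (.split [21,34] [] cc_186 cc_189)

def cc_191 : CertW :=
  (.step 4 0 6 (.step 1 1 19 (.step 1 1 21 (.step 1 1 33 (.step 1 1 35 (.step 1 1 37 (.step 1 2 32 (.step 6 2 6 (.step 1 3 8 (.step 1 3 12 (.step 1 4 18 (.step 1 4 28 (.step 6 4 6 (.step 1 5 26 (.step 1 6 28 (.step 1 6 44 (.step 2 7 6 (.step 2 11 6 (.split [] [21,34] cc_21 cc_190)))))))))))))))))))

theorem ct_cc : Ct false false [true, true, true, true] [(0, false), (1, true), (2, true), (3, true), (4, false)]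
    [⟨[2 * cd 3 1], [2 * cd 3 0], true⟩] :=
  ⟨cc_191, by decide +kernel⟩

end Pool.Agent.K7.H46.TS
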