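import Pool.Agent.K7.H46.TW.Pub

set_option autoImplicit false

/-!
# The condition on the signs
-/

namespace Pool.Agent.K7.H46.TS

/-- The four letters `j`, `j + 1`, `j + 2`, `j + 3` have the same sign. -/
def FourEqual {k : ℕ} (ε : Fin k → Bool) (j : Fin k) : Prop :=
  j.1 + 3 < k ∧ ∀ i : Fin k, j.1 ≤ i.1 → i.1 ≤ j.1 + 3 → ε i = ε j

end Pool.Agent.K7.H46.TS
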