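import Pool.Agent.K7.H46.TW.Chain

set_option autoImplicit false

/-!
# Segments of chains, with rules from both sides
-/

namespace Pool.Agent.K7.H46.TS

open Pool.Agent.Y479.LS Pool.Agent.K7.H39.TB Pool.Agent.K7.H46.LO Pool.Agent.K7.H46.TW Aut

variable {X : Type*} [LinearOrder X]

/-- The property of the interface after a tangle of the sign `b`. -/
def Pr (b : Bool) (x y : ZMod 3 → Aut X) : Prop :=
  match b with
  | true => Rgt x y
  | false => Lft x y

theorem Pr.shift {b : Bool} {x y : ZMod 3 → Aut X} (h : Pr b x y) (c : ZMod 3) :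
    Pr b (fun t => x (t + c)) (fun t => y (t + c)) := by
  cases b with
  | true => exact Rgt.shift h c
  | false => exact Lft.shift h c

/-- rotation by `π` -/
theorem lft_mirror {v w : ZMod 3 → Aut X} (h : Lft v w) :
    Lft (fun t => w (-t)) (fun t => v (-t)) := by
  intro p t
  obtain ⟨h1, h2, h3, h4⟩ := h p (-t)
  have e1 : -(t + 1) = -t - 1 := by ring
  have e2 : -(t - 1) = -t + 1 := by ring
  simp only [e1, e2]
  refine ⟨fun hu => h2 fun u => ?_, fun hu => h1 fun u => ?_, fun hu => h4 fun u => ?_,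
    fun hu => h3 fun u => ?_⟩ <;>
  · have := hu (-u)
    rwa [neg_neg] at this

/-- the sign of the letter `i` in a segment -/
def sgn (l : List Bool) (i : ℕ) : Bool := l.getD i true

/-- The tangle `t` of the letter `i`; the column `0` is one region if `A` is true, and the last column
is one region if `B` is true. -/
def bx (A B : Bool) (l : List Bool) (i t : ℕ) : Box :=
  ⟨if A && i == 0 then 0 else cd i (t + 1), if B && i + 1 == l.length then cd (i + 2) 0 else cd (i + 2) t,
    if sgn l i then cd (i + 1) t else cd (i + 1) (t + 1),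
    if sgn l i then cd (i + 1) (t + 1) else cd (i + 1) t⟩

def bxs (A B : Bool) (l : List Bool) : List Box :=
  (List.range l.length).flatMap fun i => (List.range 3).map fun t => bx A B l i t

/-- A segment of a chain. -/
structure Sg (A B : Bool) (l : List Bool) (F : ℕ → ZMod 3 → Aut X) : Prop where
  tri : ∀ i, i < l.length → ∀ t,
    Tri' (sgn l i) (F i (t + 1)) (F (i + 2) t) (F (i + 1) t) (F (i + 1) (t + 1))
  left : A = true → ∀ t, F 0 t = F 0 0
  right : B = true → ∀ t, F (l.length + 1) t = F (l.length + 1) 0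

theorem Sg.shift {A B : Bool} {l : List Bool} {F : ℕ → ZMod 3 → Aut X} (h : Sg A B l F)
    (c : ZMod 3) : Sg A B l (fun i t => F i (t + c)) := by
  refine ⟨fun i hi t => ?_, fun hA t => ?_, fun hB t => ?_⟩
  · have := h.tri i hi (t + c)
    rw [show t + c + 1 = t + 1 + c by ring] at this
    exact this
  · show F 0 (t + c) = F 0 (0 + c)
    rw [h.left hA (t + c), h.left hA (0 + c)]
  · show F (l.length + 1) (t + c) = F (l.length + 1) (0 + c)
    rw [h.right hB (t + c), h.right hB (0 + c)]

theorem Sg.sys {A B : Bool} {l : List Bool} {F : ℕ → ZMod 3 → Aut X} (h : Sg A B l F) :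
    Sys (gF F) (bxs A B l) := by
  have key : ∀ b ∈ bxs A B l, Tri (gF F b.W) (gF F b.E) (gF F b.S) (gF F b.N) := by
    intro b hb
    simp only [bxs, List.mem_flatMap, List.mem_map, List.mem_range] at hb
    obtain ⟨i, hi, t, ht, rfl⟩ := hb
    have h1 := h.tri i hi (t : ZMod 3)
    have eW : gF F (bx A B l i t).W = F i ((t : ZMod 3) + 1) := by
      unfold bx
      simp only
      split_ifs with h2
      · simp only [Bool.and_eq_true, beq_iff_eq] at h2
        rw [h2.2, h.left h2.1 ((t : ZMod 3) + 1)]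
        simp [gF]
      · rw [gF_cd]; push_cast; rfl
    have eE : gF F (bx A B l i t).E = F (i + 2) (t : ZMod 3) := by
      unfold bx
      simp only
      split_ifs with h2
      · simp only [Bool.and_eq_true, beq_iff_eq] at h2
        have h3 := h.right h2.1
        rw [← h2.2] at h3
        rw [gF_cd, h3 (t : ZMod 3)]
        push_cast
        rfl
      · rw [gF_cd]
    rw [eW, eE]
    unfold Tri' at h1
    cases hs : sgn l i with
    | true =>
      rw [hs] at h1
      simp only [if_true] at h1
      simp only [bx, hs, if_true, gF_cd]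
      push_cast
      exact h1
    | false =>
      rw [hs] at h1
      simp only [Bool.false_eq_true, if_false] at h1
      simp only [bx, hs, Bool.false_eq_true, if_false, gF_cd]
      push_cast
      exact h1
  exact ⟨fun b hb => (key b hb).1, fun b hb => (key b hb).2.1, fun b hb => (key b hb).2.2⟩

/-- The four rules of `Lft`, between the columns `e`, `e + 1`. -/
def ll (e t : ℕ) : List WRule :=
  [⟨[(cd e (t + 1), cd e t), (cd e (t + 2), cd e t)], cd (e + 1) t, cd (e + 1) (t + 2)⟩,
   ⟨[(cd (e + 1) (t + 1), cd (e + 1) t), (cd (e + 1) (t + 2), cd (e + 1) t)],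
     cd e t, cd e (t + 1)⟩,
   ⟨[(cd e t, cd e (t + 1)), (cd e t, cd e (t + 2))], cd (e + 1) (t + 2), cd (e + 1) t⟩,
   ⟨[(cd (e + 1) t, cd (e + 1) (t + 1)), (cd (e + 1) t, cd (e + 1) (t + 2))],
     cd e (t + 1), cd e t⟩]

theorem ll_holds {F : ℕ → ZMod 3 → Aut X} {e : ℕ} (h : Lft (F e) (F (e + 1))) (t : ℕ) :
    ∀ c ∈ ll e t, c.Holds (gF F) := by
  intro c hc
  simp only [ll, List.mem_cons, List.not_mem_nil, or_false] at hc
  rcases hc with rfl | rfl | rfl | rfl <;> refine wr_of fun p => ?_ <;>
    simp only [gF_cd] <;> push_cast <;> intro h1 h2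
  · have := (h p t).2.1 (all3 le_rfl h1 h2)
    rwa [sub_one_eq] at this
  · exact (h p t).1 (all3 le_rfl h1 h2)
  · have := (h p t).2.2.2 (all3 le_rfl h1 h2)
    rwa [sub_one_eq] at this
  · exact (h p t).2.2.1 (all3 le_rfl h1 h2)

/-- the rules of a list of properties -/
def rls (q : List (ℕ × Bool)) : List WRule :=
  q.flatMap fun a => (List.range 3).flatMap fun t => if a.2 then rr a.1 t else ll a.1 t

theorem rls_holds {F : ℕ → ZMod 3 → Aut X} {q : List (ℕ × Bool)}
    (h : ∀ a ∈ q, Pr a.2 (F a.1) (F (a.1 + 1))) : ∀ c ∈ rls q, c.Holds (gF F) := by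
  intro c hc
  simp only [rls, List.mem_flatMap, List.mem_range] at hc
  obtain ⟨a, ha, t, -, hc⟩ := hc
  have h1 := h a ha
  cases hb : a.2 with
  | true =>
    rw [hb] at hc h1
    exact rr_holds h1 t c hc
  | false =>
    rw [hb] at hc h1
    exact ll_holds h1 t c hc

/-- An accepted certificate. -/
def Ct (A B : Bool) (l : List Bool) (q : List (ℕ × Bool)) (env : List Fact) : Prop :=
  ∃ c : CertW, checkW (bxs A B l) (rls q) c (envOf env .lf 0) env.length = true

theorem Ct.sound {A B : Bool} {l : List Bool} {q : List (ℕ × Bool)} {env : List Fact}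
    (hC : Ct A B l q env) {F : ℕ → ZMod 3 → Aut X} (h : Sg A B l F)
    (hq : ∀ a ∈ q, Pr a.2 (F a.1) (F (a.1 + 1))) (p : X) : ¬ ∀ f ∈ env, f.Holds (gF F) p := by
  intro henv
  obtain ⟨c, hc⟩ := hC
  exact checkW_sound h.sys (rls_holds hq) c _ _ (envOf_all (t := .lf) henv trivial) hc

/-- A column `e` of a segment is constant. -/
theorem Ct.const {A B : Bool} {l : List Bool} {q : List (ℕ × Bool)} {e : ℕ}
    (hC : Ct A B l q [⟨[2 * cd e 1], [2 * cd e 0], true⟩]) {F : ℕ → ZMod 3 → Aut X}
    (h : Sg A B l F) (hq : ∀ a ∈ q, Pr a.2 (F a.1) (F (a.1 + 1))) (t : ZMod 3) :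
    F e t = F e 0 := by
  have h1 : ∀ (p : X) (t : ZMod 3), F e t p ≤ F e (t + 1) p := by
    intro p t
    by_contra hn
    refine hC.sound (h.shift t) (fun a ha => (hq a ha).shift t) p ?_
    simp only [List.mem_cons, List.not_mem_nil, or_false, forall_eq]
    refine fact_lt ?_
    have c1 : ((1 : ℕ) : ZMod 3) = 1 := by decide
    have c0 : ((0 : ℕ) : ZMod 3) = 0 := by decide
    simp only [c0, c1, zero_add, add_comm 1 t]
    exact not_le.mp hn
  refine Aut.ext' fun p => ?_
  have h2 := const_of_le (f := fun t => F e (-t) p) (fun t => by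
    have := h1 p (-(t + 1))
    rwa [show -(t + 1) + 1 = -t by ring] at this) (-t)
  simp only [neg_neg, neg_zero] at h2
  exact h2

end Pool.Agent.K7.H46.TS
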